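import Mathlib
import Pool.Agent.H80.Cox.Max

set_option autoImplicit false
set_option linter.unusedSectionVars false
set_option linter.unusedSimpArgs false

/-! # Roots, the invariant form, the dihedral criterion -/

namespace Pool.Agent.H44.Cox

open CoxeterSystem Pool.Agent.H80.Cox

variable {B : Type*} [Fintype B] [DecidableEq B] {W : Type*} [Group W]

section form
variable (M : CoxeterMatrix B)

/-- the invariant bilinear form -/
noncomputable def bil (x y : B → ℝ) : ℝ := ∑ s, y s * fB M s x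

lemma bil_add_left (x x' y : B → ℝ) : bil M (x + x') y = bil M x y + bil M x' y := by
  unfold bil
  rw [← Finset.sum_add_distrib]
  apply Finset.sum_congr rfl
  intro s _
  rw [map_add]; ring

lemma bil_smul_left (c : ℝ) (x y : B → ℝ) : bil M (c • x) y = c * bil M x y := by
  unfold bil
  rw [Finset.mul_sum]
  apply Finset.sum_congr rfl
  intro s _
  rw [map_smul, smul_eq_mul]; ring

lemma bil_add_right (x y y' : B → ℝ) : bil M x (y + y') = bil M x y + bil M x y' := by
  unfold bil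
  rw [← Finset.sum_add_distrib]
  apply Finset.sum_congr rfl
  intro s _
  rw [Pi.add_apply]; ring

lemma bil_smul_right (c : ℝ) (x y : B → ℝ) : bil M x (c • y) = c * bil M x y := by
  unfold bil
  rw [Finset.mul_sum]
  apply Finset.sum_congr rfl
  intro s _
  rw [Pi.smul_apply, smul_eq_mul]; ring

lemma bil_neg_left (x y : B → ℝ) : bil M (-x) y = - bil M x y := by
  rw [← neg_one_smul ℝ x, bil_smul_left]; ring

lemma bil_neg_right (x y : B → ℝ) : bil M x (-y) = - bil M x y := by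
  rw [← neg_one_smul ℝ y, bil_smul_right]; ring

lemma bil_sub_left (x x' y : B → ℝ) : bil M (x - x') y = bil M x y - bil M x' y := by
  rw [sub_eq_add_neg, bil_add_left, bil_neg_left]; ring

lemma bil_sub_right (x y y' : B → ℝ) : bil M x (y - y') = bil M x y - bil M x y' := by
  rw [sub_eq_add_neg, bil_add_right, bil_neg_right]; ring

lemma bil_al_right (x : B → ℝ) (s : B) : bil M x (al s) = fB M s x := by
  unfold bil
  rw [Finset.sum_eq_single s]
  · rw [al_self, one_mul]
  · intro t _ ht; rw [al_ne ht]; ring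
  · simp

lemma bil_symm (x y : B → ℝ) : bil M x y = bil M y x := by
  unfold bil
  simp_rw [fB_apply, Finset.mul_sum]
  rw [Finset.sum_comm]
  apply Finset.sum_congr rfl
  intro i _
  apply Finset.sum_congr rfl
  intro j _
  rw [cc_symm M i j]; ring

lemma bil_al_left (x : B → ℝ) (s : B) : bil M (al s) x = fB M s x := by
  rw [bil_symm, bil_al_right]

lemma bil_sig (s : B) (x y : B → ℝ) : bil M (sig M s x) (sig M s y) = bil M x y := by
  rw [sig_apply, sig_apply, bil_sub_left, bil_sub_right, bil_sub_right, bil_smul_left,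
    bil_smul_left, bil_smul_right, bil_smul_right, bil_al_right, bil_al_left, bil_al_right,
    fB_al_self]
  ring

end form

variable {M : CoxeterMatrix B} (cs : CoxeterSystem M W)

lemma bil_rho (w : W) (x y : B → ℝ) : bil M (rho cs w x) (rho cs w y) = bil M x y := by
  induction w using cs.simple_induction_left generalizing x y with
  | one => simp
  | mul_simple_left w s ih => rw [rho_mul, rho_mul, rho_simple, bil_sig, ih]

lemma bil_rho_left (w : W) (x y : B → ℝ) : bil M (rho cs w x) y = bil M x (rho cs w⁻¹ y) := by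
  rw [← bil_rho cs w x, rho_cancel_inv]

/-- `x` is a root -/
def IsRt (x : B → ℝ) : Prop := ∃ w s, x = rho cs w (al s)

variable {cs}

lemma IsRt.al (s : B) : IsRt cs (al s) := ⟨1, s, by rw [rho_one]⟩

lemma IsRt.rho {x : B → ℝ} (h : IsRt cs x) (w : W) : IsRt cs (rho cs w x) := by
  obtain ⟨v, s, rfl⟩ := h
  exact ⟨w * v, s, by rw [rho_mul]⟩

lemma IsRt.neg {x : B → ℝ} (h : IsRt cs x) : IsRt cs (-x) := by
  obtain ⟨v, s, rfl⟩ := h
  exact ⟨v * cs.simple s, s, by rw [rho_mul_simple_al]⟩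

lemma IsRt.pos_or_neg {x : B → ℝ} (h : IsRt cs x) : 0 ≤ x ∨ x ≤ 0 := by
  obtain ⟨v, s, rfl⟩ := h
  exact Pool.Agent.H80.Cox.pos_or_neg cs v s

lemma IsRt.ne_zero {x : B → ℝ} (h : IsRt cs x) : x ≠ 0 := by
  obtain ⟨v, s, rfl⟩ := h
  exact rho_al_ne_zero cs v s

lemma IsRt.false {x : B → ℝ} (h : IsRt cs x) (h1 : 0 ≤ x) (h2 : x ≤ 0) : False :=
  h.ne_zero (le_antisymm h2 h1)

lemma IsRt.pos_of_coord {x : B → ℝ} (h : IsRt cs x) {i : B} (hi : 0 < x i) : 0 ≤ x := by
  rcases h.pos_or_neg with h1 | h1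
  · exact h1
  · exact absurd (h1 i) (not_le.2 hi)

lemma IsRt.neg_of_coord {x : B → ℝ} (h : IsRt cs x) {i : B} (hi : x i < 0) : x ≤ 0 := by
  rcases h.pos_or_neg with h1 | h1
  · exact absurd (h1 i) (not_le.2 hi)
  · exact h1

lemma IsRt.exists_coord {x : B → ℝ} (h : IsRt cs x) (hx : 0 ≤ x) : ∃ i, 0 < x i := by
  by_contra hcon
  push Not at hcon
  exact h.false hx (fun i => hcon i)

lemma IsRt.bil_self {x : B → ℝ} (h : IsRt cs x) : bil M x x = 1 := by
  obtain ⟨v, s, rfl⟩ := h
  rw [bil_rho, bil_al_right, fB_al_self]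

/-- reflection in the root `ρ(w) α_s` -/
lemma rho_conj (w : W) (s : B) (y : B → ℝ) :
    rho cs (w * cs.simple s * w⁻¹) y = y - (2 * bil M y (rho cs w (al s))) • rho cs w (al s) := by
  rw [rho_mul, rho_mul, rho_simple, sig_apply, map_sub, map_smul, rho_cancel_inv]
  congr 3
  rw [← bil_al_right, bil_rho_left, inv_inv]

lemma IsRt.exists_refl {x : B → ℝ} (h : IsRt cs x) :
    ∃ t : W, ∀ y, Pool.Agent.H80.Cox.rho cs t y = y - (2 * bil M y x) • x := by
  obtain ⟨w, s, rfl⟩ := h
  exact ⟨w * cs.simple s * w⁻¹, rho_conj w s⟩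

/-- the reflection of a root in a root is a root -/
lemma IsRt.refl {x y : B → ℝ} (hx : IsRt cs x) (hy : IsRt cs y) :
    IsRt cs (y - (2 * bil M y x) • x) := by
  obtain ⟨t, ht⟩ := hx.exists_refl
  rw [← ht y]
  exact hy.rho t

/-- a simple reflection permutes the positive roots different from its own root -/
lemma IsRt.eq_al {x : B → ℝ} (h : IsRt cs x) (hx : 0 ≤ x) {s : B}
    (hs : Pool.Agent.H80.Cox.rho cs (cs.simple s) x ≤ 0) : x = Pool.Agent.H80.Cox.al s := by
  rw [rho_simple] at hs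
  have h1 : ∀ i, i ≠ s → x i = 0 := by
    intro i hi
    have h2 := hs i
    rw [sig_coord M hi] at h2
    exact le_antisymm h2 (hx i)
  have h2 : x = x s • Pool.Agent.H80.Cox.al s := by
    ext i
    by_cases hi : i = s
    · subst hi; rw [Pi.smul_apply, al_self]; simp
    · rw [h1 i hi, Pi.smul_apply, al_ne hi]; simp
  have h3 := h.bil_self
  rw [h2, bil_smul_left, bil_smul_right, bil_al_right, fB_al_self] at h3
  have h4 : 0 ≤ x s := hx s
  have h5 : x s = 1 := by nlinarith
  rw [h2, h5, one_smul]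

lemma eq_one_of_fix {w : W} (h : ∀ t, rho cs w (al t) = al t) : w = 1 := by
  by_contra hw
  obtain ⟨s, hs⟩ := cs.exists_rightDescent_of_ne_one hw
  rw [isRightDescent_iff] at hs
  have h1 := tits_neg cs w s hs
  rw [h s] at h1
  exact (IsRt.al (cs := cs) s).false (al_nonneg s) h1

/-- the weight is constant on conjugacy classes of generators -/
lemma class_eq {ψ : W → ℝ} (hψ : IsWeight cs ψ) {w : W} {r s : B}
    (h : rho cs w (al r) = al s) : ψ (cs.simple r) = ψ (cs.simple s) := by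
  have h1 : cs.simple s * (w * cs.simple r * w⁻¹) = 1 := by
    apply eq_one_of_fix (cs := cs)
    intro t
    rw [rho_mul, rho_conj, h, bil_al_right, rho_simple, ← sig_apply, sig_sig]
  have h2 : w * cs.simple r * w⁻¹ = cs.simple s := by
    have := eq_inv_of_mul_eq_one_right h1
    rw [this]; simp
  have h3 : w * cs.simple r = cs.simple s * w := by
    rw [← h2]; simp
  have h4 : 0 ≤ rho cs w (al r) := by rw [h]; exact al_nonneg s
  rw [pos_iff] at h4
  have e1 := hψ.mul_simple cs h4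
  have e2 := hψ.simple_mul cs (w := w) (s := s) (by rw [← h3, h4])
  rw [← h3] at e2
  linarith

lemma class_eq' {ψ : W → ℝ} (hψ : IsWeight cs ψ) {w w' : W} {r s : B}
    (h : rho cs w (al r) = rho cs w' (al s)) : ψ (cs.simple r) = ψ (cs.simple s) := by
  apply class_eq hψ (w := w'⁻¹ * w)
  rw [rho_mul, h, rho_inv_cancel]

variable (cs) in
/-- `x` is a root of positive weight -/
def IsPR (ψ : W → ℝ) (x : B → ℝ) : Prop :=
  ∃ w s, 0 < ψ (cs.simple s) ∧ x = rho cs w (al s)

lemma IsPR.isRt {ψ : W → ℝ} {x : B → ℝ} (h : IsPR cs ψ x) : IsRt cs x := by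
  obtain ⟨w, s, _, rfl⟩ := h
  exact ⟨w, s, rfl⟩

lemma IsPR.rho {ψ : W → ℝ} {x : B → ℝ} (h : IsPR cs ψ x) (w : W) : IsPR cs ψ (rho cs w x) := by
  obtain ⟨v, s, hs, rfl⟩ := h
  exact ⟨w * v, s, hs, by rw [rho_mul]⟩

lemma IsPR.al {ψ : W → ℝ} {s : B} (h : 0 < ψ (cs.simple s)) : IsPR cs ψ (al s) :=
  ⟨1, s, h, by rw [rho_one]⟩

lemma IsPR.neg {ψ : W → ℝ} {x : B → ℝ} (h : IsPR cs ψ x) : IsPR cs ψ (-x) := by
  obtain ⟨v, s, hs, rfl⟩ := h
  exact ⟨v * cs.simple s, s, hs, by rw [rho_mul_simple_al]⟩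

lemma IsPR.weight {ψ : W → ℝ} (hψ : IsWeight cs ψ) {w : W} {s : B}
    (h : IsPR cs ψ (Pool.Agent.H80.Cox.rho cs w (Pool.Agent.H80.Cox.al s))) :
    0 < ψ (cs.simple s) := by
  obtain ⟨v, r, hr, hv⟩ := h
  rw [class_eq' hψ hv]
  exact hr

lemma IsPR.refl {ψ : W → ℝ} {x y : B → ℝ} (hx : IsRt cs x) (hy : IsPR cs ψ y) :
    IsPR cs ψ (y - (2 * bil M y x) • x) := by
  obtain ⟨t, ht⟩ := hx.exists_refl
  rw [← ht y]
  exact hy.rho t

/-! ### inversions -/

/-- inversions of an element of a standard parabolic subgroup -/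
lemma inv_form {K : Finset B} {x : B → ℝ} (hx : IsRt cs x) (hx0 : 0 ≤ x) :
    ∀ y ∈ WP cs K, rho cs y x ≤ 0 → ∃ z ∈ WP cs K, ∃ q ∈ K, x = rho cs z (al q) := by
  intro y hy
  revert x
  revert y
  apply WP_induction (P := fun y => ∀ {x : B → ℝ}, IsRt cs x → 0 ≤ x → rho cs y x ≤ 0 →
    ∃ z ∈ WP cs K, ∃ q ∈ K, x = rho cs z (al q))
  · intro x hx hx0 h
    rw [rho_one] at h
    exact absurd (hx.false hx0 h) not_false
  · intro w hw s hs hl ih x hx hx0 h
    rw [rho_mul] at h
    rcases (hx.rho (cs.simple s)).pos_or_neg with h1 | h1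
    · obtain ⟨z, hz, q, hq, hzq⟩ := ih (hx.rho _) h1 h
      refine ⟨cs.simple s * z, mul_mem (simple_mem cs hs) hz, q, hq, ?_⟩
      rw [rho_mul, ← hzq, rho_simple, sig_sig]
    · exact ⟨1, one_mem _, s, hs, by rw [rho_one]; exact hx.eq_al hx0 h1⟩

/-- roots supported on `K` are in the orbit of the parabolic subgroup -/
lemma IsRt.of_supp {K : Finset B} {x : B → ℝ} (h : IsRt cs x) (hs : ∀ i ∉ K, x i = 0) :
    ∃ z ∈ WP cs K, ∃ q ∈ K, x = Pool.Agent.H80.Cox.rho cs z (Pool.Agent.H80.Cox.al q) := by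
  have key : ∀ {x : B → ℝ}, IsRt cs x → (∀ i ∉ K, x i = 0) → 0 ≤ x →
      ∃ z ∈ WP cs K, ∃ q ∈ K, x = Pool.Agent.H80.Cox.rho cs z (Pool.Agent.H80.Cox.al q) := by
    intro x h hs hx0
    obtain ⟨t, ht⟩ := h.exists_refl
    obtain ⟨v, y, hvy, hy, hv⟩ := exists_dec cs K t
    have hv1 : v = 1 := by
      by_contra hv1
      obtain ⟨i, hi⟩ := cs.exists_rightDescent_of_ne_one hv1
      rw [isRightDescent_iff] at hi
      have h1 := tits_neg cs v i hi
      have hiK : i ∉ K := fun hiK => not_pos_and_neg cs (hv i hiK) h1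
      have h2 : v = t * y⁻¹ := by rw [hvy]; simp
      rw [h2, rho_mul, ht] at h1
      have h3 := h1 i
      rw [Pi.sub_apply, Pi.smul_apply, hs i hiK, rho_coord cs (inv_mem hy) _ hiK, al_self] at h3
      simp at h3
      linarith
    subst hv1
    rw [one_mul] at hvy
    subst hvy
    apply inv_form h hx0 t hy
    rw [ht, h.bil_self]
    have : x - (2 * (1 : ℝ)) • x = - x := by module
    rw [this]
    exact neg_nonpos.2 hx0
  rcases h.pos_or_neg with h1 | h1
  · exact key h hs h1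
  · obtain ⟨z, hz, q, hq, hzq⟩ := key h.neg (fun i hi => by rw [Pi.neg_apply, hs i hi, neg_zero])
      (neg_nonneg.2 h1)
    refine ⟨z * cs.simple q, simple_mul_mem cs hz hq, q, hq, ?_⟩
    rw [rho_mul_simple_al, ← hzq, neg_neg]

/-- a root supported on generators of nonpositive weight has nonpositive weight -/
lemma IsPR.not_supp {ψ : W → ℝ} (hψ : IsWeight cs ψ) {Q : Finset B}
    (hQ : ∀ q ∈ Q, ¬ 0 < ψ (cs.simple q)) {x : B → ℝ} (h : IsPR cs ψ x)
    (hs : ∀ i ∉ Q, x i = 0) : False := by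
  obtain ⟨z, hz, q, hq, rfl⟩ := h.isRt.of_supp hs
  exact hQ q hq (h.weight hψ)

lemma finite_inv (w : W) : {x : B → ℝ | IsRt cs x ∧ 0 ≤ x ∧ rho cs w x ≤ 0}.Finite := by
  induction hn : cs.length w using Nat.strong_induction_on generalizing w with
  | _ n ih =>
  subst hn
  by_cases hw : w = 1
  · subst hw
    convert Set.finite_empty
    ext x
    simp only [rho_one, Set.mem_empty_iff_false, iff_false]
    rintro ⟨h1, h2, h3⟩
    exact h1.false h2 h3
  obtain ⟨s, hs⟩ := cs.exists_rightDescent_of_ne_one hw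
  rw [isRightDescent_iff] at hs
  have h1 := ih _ (by omega) (w * cs.simple s) rfl
  apply ((h1.image (rho cs (cs.simple s))).union (Set.finite_singleton (al s))).subset
  rintro x ⟨hx, hx0, hxw⟩
  rcases (hx.rho (cs.simple s)).pos_or_neg with h2 | h2
  · left
    refine ⟨rho cs (cs.simple s) x, ⟨hx.rho _, h2, ?_⟩, ?_⟩
    · rw [← rho_mul, simple_mul_simple_cancel_right]; exact hxw
    · rw [rho_simple, sig_sig]
  · right
    exact hx.eq_al hx0 h2

/-- The dihedral criterion. -/
theorem dihedral {u : W} {γ β : B → ℝ} (hγ : IsRt cs γ) (hβ : IsRt cs β) (hγ0 : 0 ≤ γ)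
    (hβ0 : 0 ≤ β) (huγ : rho cs u γ ≤ 0) (huβ : rho cs u β ≤ 0) (hB : bil M γ β ≤ -1) : False := by
  set κ := - bil M γ β with hκ
  have hκ1 : 1 ≤ κ := by linarith
  let a : ℕ → ℝ × ℝ := fun k => Nat.rec ((0 : ℝ), (1 : ℝ)) (fun _ p => (p.2, 2 * κ * p.2 - p.1)) k
  have ha0 : a 0 = (0, 1) := rfl
  have has : ∀ k, a (k + 1) = ((a k).2, 2 * κ * (a k).2 - (a k).1) := fun k => rfl
  have hinc : ∀ k, 0 ≤ (a k).1 ∧ (a k).1 + 1 ≤ (a k).2 := by
    intro k
    induction k with
    | zero => rw [ha0]; norm_num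
    | succ k ih =>
      rw [has]
      refine ⟨by linarith [ih.1, ih.2], ?_⟩
      simp only
      have h2 : 0 ≤ (a k).2 := by linarith [ih.1, ih.2]
      nlinarith [ih.1, ih.2, mul_nonneg (sub_nonneg.2 hκ1) h2]
  let R : ℕ → (B → ℝ) := fun k => (a k).2 • γ + (a k).1 • β
  obtain ⟨tγ, htγ⟩ := hγ.exists_refl
  obtain ⟨tβ, htβ⟩ := hβ.exists_refl
  have bsymm : bil M β γ = - κ := by rw [bil_symm, hκ]; ring
  have bgb : bil M γ β = - κ := by rw [hκ]; ring
  have hR1 : ∀ k, IsRt cs (R k) ∧ IsRt cs (R (k + 1)) := by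
    intro k
    induction k with
    | zero =>
      constructor
      · have : R 0 = γ := by simp [R, ha0]
        rw [this]; exact hγ
      · have : R 1 = β - (2 * bil M β γ) • γ := by
          simp only [R, has 0, ha0, bsymm]
          module
        rw [zero_add, this]
        exact hγ.refl hβ
    | succ k ih =>
      refine ⟨ih.2, ?_⟩
      have h1 : R (k + 1 + 1) = rho cs tγ (rho cs tβ (R k)) := by
        simp only [R, has (k + 1), has k]
        rw [htβ, htγ]
        simp only [bil_sub_left, bil_add_left, bil_smul_left, bgb, bsymm, hγ.bil_self,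
          hβ.bil_self]
        module
      rw [h1]
      exact (ih.1.rho _).rho _
  have hmem : ∀ k, R k ∈ {x : B → ℝ | IsRt cs x ∧ 0 ≤ x ∧ rho cs u x ≤ 0} := by
    intro k
    have h2 : 0 ≤ (a k).2 := by linarith [(hinc k).1, (hinc k).2]
    refine ⟨(hR1 k).1, ?_, ?_⟩
    · exact add_nonneg (smul_nonneg h2 hγ0) (smul_nonneg (hinc k).1 hβ0)
    · show rho cs u ((a k).2 • γ + (a k).1 • β) ≤ 0
      rw [map_add, map_smul, map_smul]
      exact add_nonpos (smul_nonpos_of_nonneg_of_nonpos h2 huγ)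
        (smul_nonpos_of_nonneg_of_nonpos (hinc k).1 huβ)
  obtain ⟨i, hi⟩ := hγ.exists_coord hγ0
  have hmono : StrictMono (fun k => R k i) := by
    apply strictMono_nat_of_lt_succ
    intro k
    simp only [R, has k, Pi.add_apply, Pi.smul_apply, smul_eq_mul]
    have h1 := (hinc k).2
    have h3 := (hinc (k + 1)).2
    rw [has k] at h3
    simp only at h3
    have h2 : 0 ≤ β i := hβ0 i
    nlinarith [mul_nonneg (sub_nonneg.2 h1) h2, mul_pos (by linarith : (0:ℝ) <
      2 * κ * (a k).2 - (a k).1 - (a k).2) hi]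
  have hinj : Function.Injective R := by
    intro k l hkl
    exact hmono.injective (by simp only [hkl])
  exact Set.infinite_of_injective_forall_mem hinj hmem (finite_inv u)

end Pool.Agent.H44.Cox
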