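import Mathlib
import Pool.Agent.H44.Cox.Roots

set_option autoImplicit false
set_option linter.unusedSectionVars false
set_option linter.unusedSimpArgs false

/-! # Coefficients of roots -/

namespace Pool.Agent.H44.Cox

open CoxeterSystem Pool.Agent.H80.Cox

variable {B : Type*} [Fintype B] [DecidableEq B] {W : Type*} [Group W]
variable {M : CoxeterMatrix B} {cs : CoxeterSystem M W}

/-- A positive root of positive weight which is not orthogonal to a generator `s` of nonpositive
weight outside its support has a product at most `-√2/2` with `α_s`. -/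
lemma c_bound {ψ : W → ℝ} (hψ : IsWeight cs ψ) {β : B → ℝ} (hβ : IsPR cs ψ β) (hβ0 : 0 ≤ β)
    {s : B} (hs : ¬ 0 < ψ (cs.simple s)) (hβs : β s = 0) (hc : 0 < - fB M s β) :
    1 / 2 ≤ (fB M s β) ^ 2 := by
  by_contra hcon
  push Not at hcon
  set c := - fB M s β with hcdef
  have hfB : fB M s β = - c := by rw [hcdef]; ring
  rw [hfB] at hcon
  obtain ⟨i, hi⟩ := hβ.isRt.exists_coord hβ0
  have his : i ≠ s := by rintro rfl; rw [hβs] at hi; exact lt_irrefl _ hi
  have h1 : rho cs (cs.simple s) β = β + (2 * c) • al s := by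
    rw [rho_simple, sig_apply, hfB]; module
  have hβ1 := hβ.isRt.bil_self
  have hbs : bil M β (al s) = - c := by rw [bil_al_right, hfB]
  have hsb : bil M (al s) β = - c := by rw [bil_al_left, hfB]
  -- first new root
  have h2 : IsPR cs ψ ((4 * c ^ 2 - 1) • β + (2 * c) • al s) := by
    have := IsPR.refl (ψ := ψ) hβ.isRt (hβ.rho (cs.simple s))
    rw [h1, bil_add_left, bil_smul_left, hβ1, hsb] at this
    convert this using 1
    module
  have h3 : 0 ≤ (4 * c ^ 2 - 1) • β + (2 * c) • al s := by
    apply h2.isRt.pos_of_coord (i := s)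
    rw [Pi.add_apply, Pi.smul_apply, Pi.smul_apply, hβs, al_self]
    simp only [smul_eq_mul]
    linarith
  have h4 : 0 ≤ 4 * c ^ 2 - 1 := by
    have h5 := h3 i
    rw [Pi.add_apply, Pi.smul_apply, Pi.smul_apply, al_ne his] at h5
    simp only [smul_eq_mul, mul_zero, add_zero, Pi.zero_apply] at h5
    by_contra h6
    push Not at h6
    nlinarith
  have h5 : rho cs (cs.simple s) ((4 * c ^ 2 - 1) • β + (2 * c) • al s) =
      (4 * c ^ 2 - 1) • β + (2 * c * (4 * c ^ 2 - 2)) • al s := by
    rw [map_add, map_smul, map_smul, h1, rho_simple, sig_al_self]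
    module
  have h6 := h2.rho (cs.simple s)
  rw [h5] at h6
  have h7 : (4 * c ^ 2 - 1) • β + (2 * c * (4 * c ^ 2 - 2)) • al s ≤ 0 := by
    apply h6.isRt.neg_of_coord (i := s)
    rw [Pi.add_apply, Pi.smul_apply, Pi.smul_apply, hβs, al_self]
    simp only [smul_eq_mul]
    nlinarith
  have h8 : 4 * c ^ 2 - 1 ≤ 0 := by
    have h9 := h7 i
    rw [Pi.add_apply, Pi.smul_apply, Pi.smul_apply, al_ne his] at h9
    simp only [smul_eq_mul, mul_zero, add_zero, Pi.zero_apply] at h9
    by_contra h6
    push Not at h6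
    nlinarith
  have h9 : 4 * c ^ 2 - 1 = 0 := le_antisymm h8 h4
  have h10 : c = 1 / 2 := by nlinarith
  rw [h9, h10] at h6
  have h11 : (0 : ℝ) • β + (2 * (1 / 2 : ℝ) * (4 * (1 / 2) ^ 2 - 2)) • al s = - al s := by
    module
  rw [h11] at h6
  have h12 := h6.neg
  rw [neg_neg] at h12
  have h13 : IsPR cs ψ (rho cs 1 (al s)) := by rw [rho_one]; exact h12
  exact hs (h13.weight hψ)

/-- Cassini identities for the Chebyshev-type sequence. -/
lemma U_cassini {c : ℝ} {U : ℕ → ℝ} (U0 : U 0 = 0) (U1 : U 1 = 1)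
    (Urec : ∀ k, U (k + 2) = 2 * c * U (k + 1) - U k) (k : ℕ) :
    U (k + 1) ^ 2 - U (k + 2) * U k = 1 := by
  induction k with
  | zero => rw [U0]; simp [U1]
  | succ k ih =>
    have h1 := Urec (k + 1)
    have h2 := Urec k
    rw [show k + 1 + 2 = k + 3 by ring] at *
    rw [show k + 1 + 1 = k + 2 by ring] at *
    rw [h1]
    linear_combination ih + U (k + 2) * h2

lemma U_cassini2 {c : ℝ} {U : ℕ → ℝ} (U0 : U 0 = 0) (U1 : U 1 = 1)
    (Urec : ∀ k, U (k + 2) = 2 * c * U (k + 1) - U k) (k : ℕ) :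
    U (k + 2) ^ 2 - U (k + 4) * U k = 4 * c ^ 2 := by
  have h1 := U_cassini U0 U1 Urec k
  have h2 := Urec k
  have h3 := Urec (k + 1)
  have h4 := Urec (k + 2)
  rw [show k + 1 + 2 = k + 3 by ring, show k + 1 + 1 = k + 2 by ring] at h3
  rw [show k + 2 + 2 = k + 4 by ring, show k + 2 + 1 = k + 3 by ring] at h4
  rw [h4, h3]
  linear_combination (4 * c ^ 2) * h1 + (U (k + 2) + 2 * c * U (k + 1)) * h2


/-- Possible values of the coefficients of positive roots. -/
def Good (x : ℝ) : Prop := x = 0 ∨ 1 ≤ x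

def Good2 (x : ℝ) : Prop := x = 0 ∨ Real.sqrt 2 ≤ x

lemma one_le_sqrt2 : (1 : ℝ) ≤ Real.sqrt 2 := by
  rw [show (1 : ℝ) = Real.sqrt 1 by simp]
  exact Real.sqrt_le_sqrt (by norm_num)

lemma Good2.good {x : ℝ} (h : Good2 x) : Good x := by
  rcases h with h | h
  · exact Or.inl h
  · exact Or.inr (one_le_sqrt2.trans h)

lemma Good.nonneg {x : ℝ} (h : Good x) : 0 ≤ x := by
  rcases h with h | h <;> linarith

lemma Good2.nonneg {x : ℝ} (h : Good2 x) : 0 ≤ x := h.good.nonneg

lemma Good.add {x y : ℝ} (h : Good x) (h' : Good y) : Good (x + y) := by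
  rcases h with rfl | h
  · rw [zero_add]; exact h'
  · right; linarith [h'.nonneg]

lemma Good2.add {x y : ℝ} (h : Good2 x) (h' : Good2 y) : Good2 (x + y) := by
  rcases h with rfl | h
  · rw [zero_add]; exact h'
  · right; linarith [h'.nonneg]

lemma Good.mul {x y : ℝ} (h : Good x) (h' : Good y) : Good (x * y) := by
  rcases h with rfl | h
  · rw [zero_mul]; exact Or.inl rfl
  rcases h' with rfl | h'
  · rw [mul_zero]; exact Or.inl rfl
  · right; nlinarith

lemma Good2.mul {x y : ℝ} (h : Good2 x) (h' : Good y) : Good2 (x * y) := by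
  rcases h with rfl | h
  · rw [zero_mul]; exact Or.inl rfl
  rcases h' with rfl | h'
  · rw [mul_zero]; exact Or.inl rfl
  · right
    have := one_le_sqrt2
    nlinarith

lemma Good.mul2 {x y : ℝ} (h : Good x) (h' : Good2 y) : Good2 (x * y) := by
  rw [mul_comm]; exact h'.mul h

lemma U_good {m : ℕ} {c : ℝ} {U : ℕ → ℝ} (U0 : U 0 = 0) (U1 : U 1 = 1)
    (Urec : ∀ k, U (k + 2) = 2 * c * U (k + 1) - U k)
    (Upos : ∀ k, m = 0 ∨ k ≤ m → 0 ≤ U k) (Um : m ≠ 0 → U m = 0) {k : ℕ}
    (hk : m = 0 ∨ k ≤ m) : Good (U k) := by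
  rcases k with _ | k
  · left; exact U0
  by_cases hkm : m ≠ 0 ∧ k + 1 = m
  · left; rw [hkm.2]; exact Um hkm.1
  right
  have h1 := U_cassini U0 U1 Urec k
  have h2 : 0 ≤ U (k + 2) := Upos _ (by omega)
  have h3 : 0 ≤ U k := Upos _ (by omega)
  have h4 : 0 ≤ U (k + 1) := Upos _ hk
  nlinarith [mul_nonneg h2 h3]

lemma U_good2 {m : ℕ} {c : ℝ} {U : ℕ → ℝ} (U0 : U 0 = 0) (U1 : U 1 = 1)
    (Urec : ∀ k, U (k + 2) = 2 * c * U (k + 1) - U k)
    (Upos : ∀ k, m = 0 ∨ k ≤ m → 0 ≤ U k) (Um : m ≠ 0 → U m = 0) (hc : 1 / 2 ≤ c ^ 2)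
    (hm : Even m) {k : ℕ} (hk : m = 0 ∨ k ≤ m) (hke : Even k) : Good2 (U k) := by
  rcases k with _ | _ | k
  · left; exact U0
  · simp at hke
  by_cases hkm : m ≠ 0 ∧ k + 2 = m
  · left; rw [hkm.2]; exact Um hkm.1
  right
  have h1 := U_cassini2 U0 U1 Urec k
  have hme : m = 0 ∨ k + 4 ≤ m := by
    rcases hk with hk | hk
    · exact Or.inl hk
    · right
      obtain ⟨a, ha⟩ := hm
      obtain ⟨b, hb⟩ := hke
      omega
  have h2 : 0 ≤ U (k + 4) := Upos _ hme
  have h3 : 0 ≤ U k := Upos _ (by omega)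
  have h4 : 0 ≤ U (k + 2) := Upos _ hk
  rw [Real.sqrt_le_left h4]
  nlinarith [mul_nonneg h2 h3]

variable (cs) in
/-- opposite signs -/
def Opp (ψ : W → ℝ) (i r : B) : Prop := ¬ (0 < ψ (cs.simple i) ↔ 0 < ψ (cs.simple r))

lemma Opp.even {ψ : W → ℝ} (hψ : IsWeight cs ψ) {i r : B} (h : Opp cs ψ i r) :
    Even (M i r) ∧ i ≠ r := by
  constructor
  · by_contra hodd
    rw [Nat.not_even_iff_odd] at hodd
    apply h
    rw [hψ.odd cs hodd]
  · rintro rfl
    exact h Iff.rfl

/-- Coefficients of positive roots are `0` or at least `1`; the coefficients at the generators of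
the opposite sign are `0` or at least `√2`. -/
theorem coef {ψ : W → ℝ} (hψ : IsWeight cs ψ) (w : W) (s : B) (h : 0 ≤ rho cs w (al s)) (i : B) :
    Good (rho cs w (al s) i) ∧ (Opp cs ψ i s → Good2 (rho cs w (al s) i)) := by
  induction hn : cs.length w using Nat.strong_induction_on generalizing w s i with
  | _ n ih =>
  subst hn
  by_cases hw : w = 1
  · subst hw
    rw [rho_one]
    by_cases his : i = s
    · subst his
      rw [al_self]
      exact ⟨Or.inr le_rfl, fun h => absurd Iff.rfl h⟩
    · rw [al_ne his]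
      exact ⟨Or.inl rfl, fun _ => Or.inl rfl⟩
  obtain ⟨t, ht⟩ := cs.exists_rightDescent_of_ne_one hw
  rw [isRightDescent_iff] at ht
  have hs := (pos_iff cs w s).1 h
  have hst : s ≠ t := by
    rintro rfl; omega
  -- the longest alternating suffix
  let P : ℕ → Prop := fun k => ∃ v, w = v * cs.wordProd (alternatingWord s t k) ∧
    cs.length v + k = cs.length w
  have hP1 : P 1 := ⟨w * cs.simple t, by simp [alternatingWord], ht⟩
  have hPle : ∀ k, P k → k ≤ cs.length w := by
    rintro k ⟨v, _, h2⟩; omega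
  classical
  set k := Nat.findGreatest P (cs.length w) with hk
  have hk1 : 1 ≤ k := Nat.le_findGreatest (hPle 1 hP1) hP1
  have hPk : P k := Nat.findGreatest_spec (hPle 1 hP1) hP1
  have hPk1 : ¬ P (k + 1) := by
    intro h1
    have := Nat.le_findGreatest (hPle _ h1) h1
    omega
  obtain ⟨v, hv, hvl⟩ := hPk
  have hlt : cs.length v < cs.length w := by omega
  -- next letter
  have hx : cs.length (v * cs.simple (if Even k then t else s)) = cs.length v + 1 := by
    by_contra hcon
    have h1 := (cs.length_mul_simple v (if Even k then t else s)).resolve_left hcon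
    apply hPk1
    refine ⟨v * cs.simple (if Even k then t else s), ?_, by omega⟩
    rw [alternatingWord_succ', wordProd_cons, ← mul_assoc, simple_mul_simple_cancel_right]
    exact hv
  have hy : cs.length (v * cs.simple (if Even k then s else t)) = cs.length v + 1 := by
    by_contra hcon
    have h1 := (cs.length_mul_simple v (if Even k then s else t)).resolve_left hcon
    obtain ⟨j, hj⟩ : ∃ j, k = j + 1 := ⟨k - 1, by omega⟩
    have h2 : (if Even k then s else t) = (if Even j then t else s) := by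
      rw [hj]
      by_cases hje : Even j
      · have : ¬ Even (j + 1) := by simp [hje, parity_simps]
        simp [hje, this]
      · have : Even (j + 1) := by simp [hje, parity_simps]
        simp [hje, this]
    rw [h2] at h1
    rw [hj, alternatingWord_succ', wordProd_cons, ← mul_assoc] at hv
    have h3 := cs.length_mul_le (v * cs.simple (if Even j then t else s))
      (cs.wordProd (alternatingWord s t j))
    rw [← hv] at h3
    have h4 := cs.length_wordProd_le (alternatingWord s t j)
    rw [length_alternatingWord] at h4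
    omega
  have px := tits_pos cs v _ hx
  have py := tits_pos cs v _ hy
  have pst : 0 ≤ rho cs v (al s) ∧ 0 ≤ rho cs v (al t) := by
    by_cases hke : Even k
    · simp only [hke, if_true] at px py; exact ⟨py, px⟩
    · simp only [hke, if_false] at px py; exact ⟨px, py⟩
  have ihs := ih _ hlt v s pst.1 i rfl
  have iht := ih _ hlt v t pst.2 i rfl
  have hkm : M s t = 0 ∨ k + 1 ≤ M s t := by
    by_contra hcon
    push Not at hcon
    obtain ⟨h0, h1⟩ := hcon
    have h2 : w * cs.simple s = v * cs.wordProd (alternatingWord t s (k + 1)) := by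
      rw [alternatingWord_succ, wordProd_concat, ← mul_assoc, ← hv]
    have h0' : M t s ≠ 0 := by rw [M.symmetric]; exact h0
    have h3 := cs.not_isReduced_alternatingWord t s h0' (m := k + 1) (by rw [M.symmetric]; omega)
    have h4 := cs.length_wordProd_le (alternatingWord t s (k + 1))
    rw [length_alternatingWord] at h4
    have h5 : cs.length (cs.wordProd (alternatingWord t s (k + 1))) ≠ k + 1 := by
      intro h5; apply h3; unfold CoxeterSystem.IsReduced; rw [h5, length_alternatingWord]
    have h6 := cs.length_mul_le v (cs.wordProd (alternatingWord t s (k + 1)))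
    rw [← h2] at h6
    omega
  obtain ⟨U, U0, U1, Urec, Upos, Um⟩ := exists_U M hst
  have Um' : M s t ≠ 0 → U (M s t) = 0 := fun h0 => (Um h0).1
  have hU1 : Good (U (k + 1)) := U_good U0 U1 Urec Upos Um' hkm
  have hkm' : M s t = 0 ∨ k ≤ M s t := by rcases hkm with h | h; exact Or.inl h; right; omega
  have hU0 : Good (U k) := U_good U0 U1 Urec Upos Um' hkm'
  have key : ∀ a b : ℝ, Good a → Good b → (Opp cs ψ s t → Good2 b) →
      Good ((a • rho cs v (al s) + b • rho cs v (al t)) i) ∧
      (Opp cs ψ i s → Good2 ((a • rho cs v (al s) + b • rho cs v (al t)) i)) := by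
    intro a b ha hb hab
    rw [Pi.add_apply, Pi.smul_apply, Pi.smul_apply, smul_eq_mul, smul_eq_mul]
    refine ⟨(ha.mul ihs.1).add (hb.mul iht.1), ?_⟩
    intro hopp
    apply Good2.add
    · exact ha.mul2 (ihs.2 hopp)
    · by_cases hopp' : Opp cs ψ s t
      · exact (hab hopp').mul iht.1
      · apply hb.mul2
        apply iht.2
        have h1 : (0 < ψ (cs.simple s) ↔ 0 < ψ (cs.simple t)) := not_not.1 hopp'
        exact fun h2 => hopp (h2.trans h1.symm)
  have hrw : rho cs w (al s) = rho cs v (rho cs (cs.wordProd (alternatingWord s t k)) (al s)) := by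
    rw [← rho_mul, ← hv]
  rw [hrw, rho_alt cs U U0 U1 Urec]
  split_ifs with hke
  · rw [map_add, map_smul, map_smul]
    apply key _ _ hU1 hU0
    intro hopp
    have hev := hopp.even hψ
    have hcc : 1 / 2 ≤ cc M s t ^ 2 := by
      apply half_le_cc_sq
      by_contra hcon
      have hsz := M.off_diagonal s t hst
      obtain ⟨a, ha⟩ := hev.1
      have h2 : M s t = 2 := by omega
      rw [h2] at hkm
      obtain ⟨b, hb⟩ := hke
      omega
    exact U_good2 U0 U1 Urec Upos Um' hcc hev.1 hkm' hke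
  · rw [map_add, map_smul, map_smul, add_comm]
    apply key _ _ hU0 hU1
    intro hopp
    have hev := hopp.even hψ
    have hke' : Even (k + 1) := by simp [hke, parity_simps]
    by_cases h2 : M s t = 2
    · left
      have : k + 1 = M s t := by omega
      rw [this]
      exact Um' (by omega)
    have hcc : 1 / 2 ≤ cc M s t ^ 2 := by
      apply half_le_cc_sq
      by_contra hcon
      have hsz := M.off_diagonal s t hst
      obtain ⟨a, ha⟩ := hev.1
      omega
    exact U_good2 U0 U1 Urec Upos Um' hcc hev.1 hkm hke'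

end Pool.Agent.H44.Cox
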