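import Mathlib
import Pool.Agent.H44.Cox.Coef

set_option autoImplicit false
set_option linter.unusedSectionVars false
set_option linter.unusedSimpArgs false

/-! # Auxiliary lemmas on standard parabolic subgroups and weights -/

namespace Pool.Agent.H44.Cox

open CoxeterSystem Pool.Agent.H80.Cox

variable {B : Type*} [Fintype B] [DecidableEq B] {W : Type*} [Group W]
variable {M : CoxeterMatrix B} {cs : CoxeterSystem M W}

lemma fB_nonpos {y : B → ℝ} (hy : 0 ≤ y) {r : B} (hr : y r = 0) : fB M r y ≤ 0 := by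
  rw [fB_apply]
  apply Finset.sum_nonpos
  intro i _
  by_cases hi : i = r
  · rw [hi, hr]; simp
  · have h1 := cc_nonneg M hi
    have h2 : 0 ≤ y i := hy i
    nlinarith [mul_nonneg h1 h2]

lemma fB_le_term {y : B → ℝ} (hy : 0 ≤ y) {r q : B} (hqr : q ≠ r) :
    fB M r y ≤ y r - cc M q r * y q := by
  rw [fB_apply, ← Finset.add_sum_erase _ _ (Finset.mem_univ r)]
  have h1 : q ∈ Finset.univ.erase r := by simp [hqr]
  rw [← Finset.add_sum_erase _ _ h1, cc_self]
  have h2 : ∑ i ∈ (Finset.univ.erase r).erase q, -(cc M i r) * y i ≤ 0 := by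
    apply Finset.sum_nonpos
    intro i hi
    rw [Finset.mem_erase, Finset.mem_erase] at hi
    have h1 := cc_nonneg M hi.2.1
    have h2 : 0 ≤ y i := hy i
    nlinarith [mul_nonneg h1 h2]
  linarith

lemma fB_le_two {y : B → ℝ} (hy : 0 ≤ y) {r q q' : B} (hqr : q ≠ r) (hq'r : q' ≠ r)
    (hqq' : q' ≠ q) : fB M r y ≤ y r - cc M q r * y q - cc M q' r * y q' := by
  rw [fB_apply, ← Finset.add_sum_erase _ _ (Finset.mem_univ r)]
  have h1 : q ∈ Finset.univ.erase r := by simp [hqr]
  rw [← Finset.add_sum_erase _ _ h1, cc_self]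
  have h1' : q' ∈ (Finset.univ.erase r).erase q := by simp [hq'r, hqq']
  rw [← Finset.add_sum_erase _ _ h1']
  have h2 : ∑ i ∈ ((Finset.univ.erase r).erase q).erase q', -(cc M i r) * y i ≤ 0 := by
    apply Finset.sum_nonpos
    intro i hi
    rw [Finset.mem_erase, Finset.mem_erase, Finset.mem_erase] at hi
    have h1 := cc_nonneg M hi.2.2.1
    have h2 : 0 ≤ y i := hy i
    nlinarith [mul_nonneg h1 h2]
  linarith

/-- left version of the induction along reduced words -/
theorem WP_induction_left {K : Finset B} {P : W → Prop} (h1 : P 1)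
    (hstep : ∀ w ∈ WP cs K, ∀ s ∈ K, cs.length (cs.simple s * w) = cs.length w + 1 → P w →
      P (cs.simple s * w)) : ∀ w ∈ WP cs K, P w := by
  have key : ∀ w ∈ WP cs K, P w⁻¹ := by
    apply WP_induction
    · simpa using h1
    · intro w hw s hs hl ih
      have h2 := hstep w⁻¹ (inv_mem hw) s hs (by
        rw [← cs.length_inv, mul_inv_rev, inv_inv, inv_simple, hl, length_inv]) ih
      rwa [mul_inv_rev, inv_simple]
  intro w hw
  have := key w⁻¹ (inv_mem hw)
  rwa [inv_inv] at this

lemma inv_al_nonneg {w : W} {l : B} (h : cs.length (cs.simple l * w) = cs.length w + 1) :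
    0 ≤ rho cs w⁻¹ (al l) := by
  rw [pos_iff, ← cs.length_inv, mul_inv_rev, inv_inv, inv_simple, h, length_inv]

lemma length_simple_mul_of_inv {w : W} {l : B} (h : 0 ≤ rho cs w⁻¹ (al l)) :
    cs.length (cs.simple l * w) = cs.length w + 1 := by
  rw [pos_iff, length_inv] at h
  rw [← cs.length_inv, mul_inv_rev, inv_simple, h]

lemma fB_chain {K : Finset B} {w : W} (hw : w ∈ WP cs K) {l r : B} (hl : l ∈ K) (hr : r ∉ K)
    (h : cs.length (cs.simple l * w) = cs.length w + 1) : fB M l (rho cs w (al r)) ≤ 0 := by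
  rw [← bil_al_right, bil_rho_left, bil_al_left]
  apply fB_nonpos (inv_al_nonneg h)
  exact supp_rho cs (inv_mem hw) hl r hr

/-- `ρ(w) α_r ≥ α_r` for `w ∈ W_K`, `r ∉ K`. -/
lemma al_le_chain {K : Finset B} {r : B} (hr : r ∉ K) :
    ∀ w ∈ WP cs K, al r ≤ rho cs w (al r) := by
  apply WP_induction_left
  · rw [rho_one]
  · intro w hw l hl h ih
    rw [rho_mul, rho_simple, sig_apply]
    have h1 := fB_chain hw hl hr h
    have h2 : 0 ≤ (-(2 * fB M l (rho cs w (al r)))) • al l :=
      smul_nonneg (by linarith) (al_nonneg l)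
    have h3 : rho cs w (al r) - (2 * fB M l (rho cs w (al r))) • al l =
      rho cs w (al r) + (-(2 * fB M l (rho cs w (al r)))) • al l := by module
    rw [h3]
    exact le_add_of_le_of_nonneg ih h2

lemma chain_step {K : Finset B} {w : W} (hw : w ∈ WP cs K) {l r : B} (hl : l ∈ K) (hr : r ∉ K)
    (h : cs.length (cs.simple l * w) = cs.length w + 1) :
    rho cs w (al r) ≤ rho cs (cs.simple l * w) (al r) := by
  rw [rho_mul, rho_simple, sig_apply]
  have h1 := fB_chain hw hl hr h
  have h2 : 0 ≤ (-(2 * fB M l (rho cs w (al r)))) • al l :=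
    smul_nonneg (by linarith) (al_nonneg l)
  have h3 : rho cs w (al r) - (2 * fB M l (rho cs w (al r))) • al l =
    rho cs w (al r) + (-(2 * fB M l (rho cs w (al r)))) • al l := by module
  rw [h3]
  exact le_add_of_nonneg_right h2

/-- a letter adjacent to `r` shows up in the support of `ρ(w) α_r` -/
lemma letter_coord {K : Finset B} {q r : B} (hr : r ∉ K) (hqr : M q r ≠ 2) :
    ∀ w ∈ WP cs K, rho cs w (al r) q = 0 → w ∈ WP cs (K.erase q) := by
  apply WP_induction_left
  · intro _; exact one_mem _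
  · intro w hw l hl h ih h0
    have hle := chain_step hw hl hr h
    have hal := al_le_chain hr w hw
    have hpos : 0 ≤ rho cs w (al r) := (al_nonneg r).trans hal
    have h1 : rho cs w (al r) q = 0 := le_antisymm ((hle q).trans h0.le) (hpos q)
    have h2 := ih h1
    by_cases hlq : l = q
    · exfalso
      subst hlq
      have hlr : l ≠ r := by rintro rfl; exact hr hl
      rw [rho_mul, rho_simple, sig_coord_self, h1] at h0
      have h3 := fB_le_term (M := M) hpos (r := l) (q := r) (Ne.symm hlr)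
      rw [h1] at h3
      have h4 : (1 : ℝ) ≤ rho cs w (al r) r := by
        have := hal r
        rwa [al_self] at this
      have h5 := half_le_cc M hlr hqr
      rw [cc_symm M] at h5
      nlinarith
    · exact mul_mem (simple_mem cs (by rw [Finset.mem_erase]; exact ⟨hlq, hl⟩)) h2

/-- a dominant vector is maximal in its orbit -/
lemma dom_le {K : Finset B} {z : B → ℝ} (hz : ∀ t ∈ K, 0 ≤ fB M t z) :
    ∀ w ∈ WP cs K, rho cs w z ≤ z ∧
      (rho cs w z = z → w ∈ WP cs (K.filter fun t => fB M t z = 0)) := by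
  apply WP_induction
  · rw [rho_one]
    exact ⟨le_rfl, fun _ => one_mem _⟩
  · intro w hw t ht hl ih
    have h1 := tits_pos cs w t hl
    have h2 : rho cs (w * cs.simple t) z = rho cs w z - (2 * fB M t z) • rho cs w (al t) := by
      rw [rho_mul, rho_simple, sig_apply, map_sub, map_smul]
    have h3 : 0 ≤ (2 * fB M t z) • rho cs w (al t) := smul_nonneg (by linarith [hz t ht]) h1
    rw [h2]
    constructor
    · exact (sub_le_self _ h3).trans ih.1
    · intro h4
      have h5 : rho cs w z = z := by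
        apply le_antisymm ih.1
        calc z = rho cs w z - (2 * fB M t z) • rho cs w (al t) := h4.symm
          _ ≤ rho cs w z := sub_le_self _ h3
      rw [h5] at h4
      have h6 : (2 * fB M t z) • rho cs w (al t) = 0 := by
        have := sub_eq_self.1 h4
        exact this
      have h7 : fB M t z = 0 := by
        rcases smul_eq_zero.1 h6 with h8 | h8
        · linarith
        · exact absurd h8 (rho_al_ne_zero cs w t)
      exact simple_mul_mem cs (ih.2 h5) (by rw [Finset.mem_filter]; exact ⟨ht, h7⟩)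

/-- An element of positive weight inverts a root of positive weight. -/
lemma exists_pos_inv {ψ : W → ℝ} (hψ : IsWeight cs ψ) {K : Finset B} :
    ∀ w ∈ WP cs K, 0 < ψ w → ∃ z ∈ WP cs K, ∃ r ∈ K, 0 < ψ (cs.simple r) ∧
      0 ≤ rho cs z (al r) ∧ rho cs w (rho cs z (al r)) ≤ 0 := by
  apply WP_induction
  · intro h; rw [hψ.one] at h; exact absurd h (lt_irrefl _)
  · intro w hw s hs hl ih h
    by_cases hs0 : 0 < ψ (cs.simple s)
    · refine ⟨1, one_mem _, s, hs, hs0, by rw [rho_one]; exact al_nonneg s, ?_⟩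
      rw [rho_one, rho_mul_simple_al]
      exact neg_nonpos.2 (tits_pos cs w s hl)
    · have h1 := hψ.mul_simple cs hl
      obtain ⟨z, hz, r, hr, hr0, h2, h3⟩ := ih (by linarith)
      refine ⟨cs.simple s * z, mul_mem (simple_mem cs hs) hz, r, hr, hr0, ?_, ?_⟩
      · rcases (((IsRt.al (cs := cs) r).rho z).rho (cs.simple s)).pos_or_neg with h4 | h4
        · rw [rho_mul]; exact h4
        · exfalso
          have h5 := ((IsRt.al (cs := cs) r).rho z).eq_al h2 h4
          exact hs0 (by rw [← class_eq hψ h5]; exact hr0)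
      · rw [rho_mul cs (cs.simple s) z, ← rho_mul, simple_mul_simple_cancel_right]
        exact h3

lemma weight_nonpos {ψ : W → ℝ} (hψ : IsWeight cs ψ) {K : Finset B} {w : W} (hw : w ∈ WP cs K)
    (h : ∀ x, IsPR cs ψ x → 0 ≤ x → (∀ i ∉ K, x i = 0) → rho cs w x ≤ 0 → False) :
    ψ w ≤ 0 := by
  by_contra hcon
  push Not at hcon
  obtain ⟨z, hz, r, hr, hr0, h1, h2⟩ := exists_pos_inv hψ w hw hcon
  exact h _ ⟨z, r, hr0, rfl⟩ h1 (supp_rho cs hz hr) h2

lemma weight_nonpos_Q {ψ : W → ℝ} (hψ : IsWeight cs ψ) {Q : Finset B}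
    (hQ : ∀ q ∈ Q, ¬ 0 < ψ (cs.simple q)) {w : W} (hw : w ∈ WP cs Q) : ψ w ≤ 0 :=
  weight_nonpos hψ hw (fun _ hx _ hs _ => hx.not_supp hψ hQ hs)

/-- two different simple roots of positive weight have nonpositive product -/
lemma acute_eq {ψ : W → ℝ} (hψ : IsWeight cs ψ) {Q : Finset B}
    (hQ : ∀ q ∈ Q, ¬ 0 < ψ (cs.simple q)) {r r' : B} (hr : 0 < ψ (cs.simple r))
    (hr' : 0 < ψ (cs.simple r')) {z : W} (hz : z ∈ WP cs Q)
    (h : 0 < fB M r' (rho cs z (al r))) : rho cs z (al r) = al r' := by
  have hrQ : r ∉ Q := fun hq => hQ r hq hr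
  have hrQ' : r' ∉ Q := fun hq => hQ r' hq hr'
  set x := rho cs z (al r) with hx
  have hxr : x r = 1 := by rw [hx, rho_coord cs hz _ hrQ, al_self]
  have hxrt : IsRt cs x := (IsRt.al r).rho z
  have hxp : IsPR cs ψ x := (IsPR.al hr).rho z
  have hx0 : 0 ≤ x := hxrt.pos_of_coord (i := r) (by rw [hxr]; norm_num)
  have hxi : ∀ i, i ∉ Q → i ≠ r → x i = 0 := by
    intro i hi hir
    rw [hx, rho_coord cs hz _ hi, al_ne hir]
  by_cases hrr : r' = r
  · subst hrr
    by_contra hne
    obtain ⟨q, hq, hxq⟩ : ∃ q ∈ Q, 0 < x q := by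
      by_contra hcon
      push Not at hcon
      apply hne
      ext i
      by_cases hir : i = r'
      · rw [hir, hxr, al_self]
      · rw [al_ne hir]
        by_cases hiQ : i ∈ Q
        · exact le_antisymm (hcon i hiQ) (hx0 i)
        · exact hxi i hiQ hir
    have hqr : q ≠ r' := by rintro rfl; exact hrQ hq
    set κ := fB M r' x with hκ
    have h1 : rho cs (cs.simple r') x = x - (2 * κ) • al r' := by rw [rho_simple, sig_apply]
    have h2 : 0 ≤ x - (2 * κ) • al r' := by
      rw [← h1]
      apply (hxrt.rho _).pos_of_coord (i := q)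
      rw [h1, Pi.sub_apply, Pi.smul_apply, al_ne hqr]
      simpa using hxq
    have h3 : 0 ≤ 1 - 2 * κ := by
      have := h2 r'
      rw [Pi.sub_apply, Pi.smul_apply, al_self, hxr] at this
      simpa using this
    have h4 : IsRt cs (al r' - (2 * κ) • x) := by
      have := hxrt.refl (IsRt.al (cs := cs) r')
      rwa [bil_al_left] at this
    have h5 : al r' - (2 * κ) • x ≤ 0 := by
      apply h4.neg_of_coord (i := q)
      rw [Pi.sub_apply, Pi.smul_apply, al_ne hqr]
      simp only [smul_eq_mul]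
      nlinarith
    have h6 : 1 - 2 * κ ≤ 0 := by
      have := h5 r'
      rw [Pi.sub_apply, Pi.smul_apply, al_self, hxr] at this
      simpa using this
    have h7 : κ = 1 / 2 := by linarith
    have h8 := hxp.rho (cs.simple r')
    rw [h1, h7] at h8
    apply h8.not_supp hψ hQ
    intro i hi
    rw [Pi.sub_apply, Pi.smul_apply]
    by_cases hir : i = r'
    · rw [hir, hxr, al_self]; norm_num
    · rw [hxi i hi hir, al_ne hir]; simp
  · exfalso
    have := fB_nonpos (M := M) hx0 (r := r') (hxi r' hrQ' hrr)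
    linarith

end Pool.Agent.H44.Cox
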