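import Mathlib
import Pool.Agent.H44.Cox.Lem

set_option autoImplicit false
set_option linter.unusedSectionVars false
set_option linter.unusedSimpArgs false

/-! # The core configuration `K = L ∪ {s}` -/

namespace Pool.Agent.H44.Cox

open CoxeterSystem Pool.Agent.H80.Cox

variable {B : Type*} [Fintype B] [DecidableEq B] {W : Type*} [Group W]
variable {M : CoxeterMatrix B} (cs : CoxeterSystem M W)

/-- The minimal counterexample configuration. -/
structure Cr (ψ : W → ℝ) (L : Finset B) (s : B) (y g m u c : W) : Prop where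
  wt : IsWeight cs ψ
  sL : s ∉ L
  mx : IsMax cs ψ (insert s L) y
  fin : FinS cs L
  ns : ¬ 0 < ψ (cs.simple s)
  dec : y = g * m
  mm : m ∈ WP cs L
  gp : ∀ r ∈ L, 0 ≤ rho cs g (al r)
  g1 : g ≠ 1
  full : ∀ r ∈ L, m ∉ WP cs (L.erase r)
  irr : ∀ A C : Finset B, A ∪ C = insert s L → A.Nonempty → C.Nonempty →
    ¬ ∀ a ∈ A, ∀ c ∈ C, M a c = 2
  nfin : ¬ FinS cs (insert s L)
  dec2 : y = u * c
  cm : c ∈ WP cs (L.filter fun r => M r s = 2)
  up : ∀ r ∈ L, M r s = 2 → 0 ≤ rho cs u (al r)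

variable {cs}
variable {ψ : W → ℝ} {L : Finset B} {s : B} {y g m u c : W}

namespace Cr

variable (h : Cr cs ψ L s y g m u c)
include h

lemma mxL : IsMax cs ψ L m :=
  h.mx.part h.wt (Finset.subset_insert _ _) h.dec h.mm h.gp

lemma mx0 : IsMax cs ψ (L.filter fun r => M r s = 2) c := by
  refine h.mx.part h.wt ?_ h.dec2 h.cm ?_
  · exact (Finset.filter_subset _ _).trans (Finset.subset_insert _ _)
  · intro r hr
    rw [Finset.mem_filter] at hr
    exact h.up r hr.1 hr.2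

lemma rho_u (x : B → ℝ) : rho cs u x = rho cs y (rho cs c⁻¹ x) := by
  rw [← rho_mul]
  congr 2
  rw [h.dec2]; simp

lemma cL : c ∈ WP cs L := WP_mono cs (Finset.filter_subset _ _) h.cm

lemma hu0 : ∀ r ∈ L.filter (fun r => M r s = 2), 0 ≤ rho cs u (al r) := fun r hr =>
  h.up r (Finset.mem_filter.1 hr).1 (Finset.mem_filter.1 hr).2

lemma ls_ne {r : B} (hr : r ∈ L) : r ≠ s := by rintro rfl; exact h.sL hr

lemma y_neg {r : B} (hr : r ∈ L) (pr : 0 < ψ (cs.simple r)) : rho cs y (al r) ≤ 0 :=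
  h.mx.neg h.wt (Finset.mem_insert_of_mem hr) pr

lemma y_pos {r : B} (nr : ¬ 0 < ψ (cs.simple r)) : 0 ≤ rho cs y (al r) :=
  h.mx.pos h.wt nr

lemma us_pos : 0 ≤ rho cs u (al s) := by
  rw [h.rho_u, rho_fix cs (A := L.filter fun r => M r s = 2) (fun a ha => (Finset.mem_filter.1 ha).2)
    (inv_mem h.cm)]
  exact h.mx.pos h.wt h.ns

lemma us_length : cs.length (u * cs.simple s) = cs.length u + 1 := (pos_iff cs u s).1 h.us_pos

lemma psi_us : ψ (u * cs.simple s) = ψ u + ψ (cs.simple s) := h.wt.mul_simple cs h.us_length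

lemma psi_y : ψ y = ψ u + ψ c := by
  rw [h.dec2]; exact h.wt _ _ (length_mul_of_pos cs h.hu0 h.cm)

lemma uK : u ∈ WP cs (insert s L) := by
  have : u = y * c⁻¹ := by rw [h.dec2]; simp
  rw [this]
  exact mul_mem h.mx.mem (inv_mem (WP_mono cs
    ((Finset.filter_subset _ _).trans (Finset.subset_insert _ _)) h.cm))

/-- the cost of the letter `s` is positive -/
lemma cost : ψ c < ψ (cs.simple s) + ψ m := by
  by_contra w3
  push Not at w3
  have hLK : WP cs L ≤ WP cs (insert s L) := WP_mono cs (Finset.subset_insert _ _)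
  have hgK : g ∈ WP cs (insert s L) := by
    have : g = y * m⁻¹ := by rw [h.dec]; simp
    rw [this]
    exact mul_mem h.mx.mem (inv_mem (hLK h.mm))
  obtain ⟨r, hr⟩ := cs.exists_rightDescent_of_ne_one h.g1
  rw [isRightDescent_iff] at hr
  have hrs : r = s := by
    have h1 := tits_neg cs g r hr
    rcases Finset.mem_insert.1 (desc_mem cs hgK h1) with h2 | h2
    · exact h2
    · exact absurd (not_pos_and_neg cs (h.gp r h2) h1) not_false
  subst hrs
  set u' := g * cs.simple r with hu'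
  have hgu' : g = u' * cs.simple r := by rw [hu']; simp
  have w4 : ψ g = ψ u' + ψ (cs.simple r) := by
    have := h.wt.mul_simple cs (w := u') (s := r) (by rw [← hgu']; omega)
    rwa [← hgu'] at this
  have l5 : cs.length y = cs.length g + cs.length m := by
    rw [h.dec]; exact length_mul_of_pos cs h.gp h.mm
  have w5 : ψ y = ψ g + ψ m := by
    rw [h.dec] at l5 ⊢; exact h.wt _ _ l5
  have hu'0 : ∀ t ∈ L.filter (fun t => M t r = 2), 0 ≤ rho cs u' (al t) := by
    intro t ht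
    rw [Finset.mem_filter] at ht
    rw [hu', rho_mul, rho_simple, sig_al, cc_of_eq_two M ht.2]
    simp only [mul_zero, zero_smul, add_zero]
    exact h.gp t ht.1
  have l6 : cs.length (u' * c) = cs.length u' + cs.length c := length_mul_of_pos cs hu'0 h.cm
  have w6 : ψ (u' * c) = ψ u' + ψ c := h.wt _ _ l6
  have hu'K : u' ∈ WP cs (insert r L) := simple_mul_mem cs hgK (Finset.mem_insert_self _ _)
  have l7 := h.mx.len' (mul_mem hu'K (WP_mono cs
      ((Finset.filter_subset _ _).trans (Finset.subset_insert _ _)) h.cm)) (w := u' * c)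
    (by rw [w6]; linarith)
  -- ℓ(c) ≤ ℓ(m)
  obtain ⟨x, c', hm, hc', hx⟩ := exists_dec cs (L.filter fun t => M t r = 2) m
  have hxL : x ∈ WP cs L := by
    have : x = m * c'⁻¹ := by rw [hm]; simp
    rw [this]
    exact mul_mem h.mm (inv_mem (WP_mono cs (Finset.filter_subset _ _) hc'))
  have hgx : ∀ t ∈ L.filter (fun t => M t r = 2), 0 ≤ rho cs (g * x) (al t) := by
    intro t ht
    rw [rho_mul]
    exact comb_nonneg cs h.gp (hx t ht) (supp_rho cs hxL (Finset.mem_filter.1 ht).1)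
  have hcc' : c' = c := by
    have h1 : (g * x) * c' = u * c := by rw [← h.dec2, h.dec, hm, mul_assoc]
    exact (dec_unique cs h1 hc' h.cm hgx h.hu0).2
  have l8 : cs.length m = cs.length x + cs.length c := by
    rw [← hcc']
    conv_lhs => rw [hm]
    exact length_mul_of_pos cs hx hc'
  omega

/-- The final comparison. -/
lemma final {h' x : W} (hdec : u * cs.simple s = h' * x) (hx : x ∈ WP cs L)
    (hh' : ∀ r ∈ L, 0 ≤ rho cs h' (al r)) (hψx : ψ x ≤ 0) : False := by
  have hLK : WP cs L ≤ WP cs (insert s L) := WP_mono cs (Finset.subset_insert _ _)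
  have l1 : cs.length (h' * m) = cs.length h' + cs.length m := length_mul_of_pos cs hh' h.mm
  have w1 : ψ (h' * m) = ψ h' + ψ m := h.wt _ _ l1
  have l2 : cs.length (h' * x) = cs.length h' + cs.length x := length_mul_of_pos cs hh' hx
  have w2 : ψ (h' * x) = ψ h' + ψ x := h.wt _ _ l2
  have hus : u * cs.simple s ∈ WP cs (insert s L) :=
    simple_mul_mem cs h.uK (Finset.mem_insert_self _ _)
  have hh'K : h' ∈ WP cs (insert s L) := by
    have : h' = u * cs.simple s * x⁻¹ := by rw [hdec]; simp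
    rw [this]
    exact mul_mem hus (inv_mem (hLK hx))
  have h1 := h.mx.le (h' * m) (mul_mem hh'K (hLK h.mm))
  have h2 := h.psi_us
  rw [hdec, w2] at h2
  have h3 := h.psi_y
  have h4 := h.cost
  linarith

/-! ### splitting off the part on `L` -/

lemma u_fac : u = g * (m * c⁻¹) := by
  rw [← mul_assoc, ← h.dec, h.dec2]; simp

lemma n_mem : m * c⁻¹ ∈ WP cs L := mul_mem h.mm (inv_mem h.cL)

lemma g_nonneg {x : B → ℝ} (hx : 0 ≤ x) (hs : ∀ i ∉ L, x i = 0) : 0 ≤ rho cs g x :=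
  comb_nonneg cs h.gp hx hs

lemma g_nonpos {x : B → ℝ} (hx : x ≤ 0) (hs : ∀ i ∉ L, x i = 0) : rho cs g x ≤ 0 := by
  have := h.g_nonneg (x := -x) (neg_nonneg.2 hx) (fun i hi => by rw [Pi.neg_apply, hs i hi, neg_zero])
  rw [map_neg] at this
  exact neg_nonneg.1 this

lemma rho_u_n (x : B → ℝ) : rho cs u x = rho cs g (rho cs (m * c⁻¹) x) := by
  rw [← rho_mul, ← h.u_fac]

lemma n_length : cs.length m = cs.length (m * c⁻¹) + cs.length c := by
  have hK : ∀ r ∈ L.filter (fun r => M r s = 2), 0 ≤ rho cs (m * c⁻¹) (al r) := by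
    intro r hr
    have hrL := (Finset.mem_filter.1 hr).1
    rcases pos_or_neg cs (m * c⁻¹) r with h1 | h1
    · exact h1
    · exfalso
      have h2 := h.hu0 r hr
      rw [h.rho_u_n] at h2
      have h3 := h.g_nonpos h1 (supp_rho cs h.n_mem hrL)
      have h4 : IsRt cs (rho cs g (rho cs (m * c⁻¹) (al r))) := ((IsRt.al r).rho _).rho _
      exact h4.false h2 h3
  have := length_mul_of_pos cs hK h.cm
  rwa [inv_mul_cancel_right] at this

/-- elements of `W_L` in `m` : `m` has a shorter competitor -/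
lemma m_le {x z : W} (hm : m = x * z) (hz : z ∈ WP cs L)
    (hl : cs.length m = cs.length x + cs.length z) (hx : ψ x ≤ 0) : x = 1 := by
  have h1 : ψ m = ψ x + ψ z := by rw [hm] at hl ⊢; exact h.wt _ _ hl
  have h2 := h.mxL.len' hz (by linarith)
  have h3 : cs.length x = 0 := by omega
  rwa [length_eq_zero_iff] at h3

lemma support_us {β : B → ℝ} (hβ0 : 0 ≤ β) (hs : ∀ i ∉ L, β i = 0)
    (hβ : rho cs (u * cs.simple s) β ≤ 0) (hrt : IsRt cs β) : rho cs u β ≤ 0 := by
  rw [rho_mul, rho_simple, sig_apply, map_sub, map_smul] at hβ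
  have h1 : fB M s β ≤ 0 := fB_nonpos hβ0 (hs s h.sL)
  have h2 : 0 ≤ (-(2 * fB M s β)) • rho cs u (al s) := smul_nonneg (by linarith) h.us_pos
  calc rho cs u β ≤ rho cs u β + (-(2 * fB M s β)) • rho cs u (al s) := le_add_of_nonneg_right h2
    _ = rho cs u β - (2 * fB M s β) • rho cs u (al s) := by module
    _ ≤ 0 := hβ

/-- a negative root for `u` supported on `L` is not orthogonal to `s` -/
lemma attached {β : B → ℝ} (hrt : IsRt cs β) (hβ0 : 0 ≤ β) (hs : ∀ i ∉ L, β i = 0)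
    (hβ : rho cs u β ≤ 0) : 0 < - fB M s β := by
  have h1 : fB M s β ≤ 0 := fB_nonpos hβ0 (hs s h.sL)
  rcases lt_or_eq_of_le h1 with h2 | h2
  · linarith
  · exfalso
    have h3 : ∀ i ∉ L.filter (fun r => M r s = 2), β i = 0 := by
      intro i hi
      by_cases hiL : i ∈ L
      · have hM : M i s ≠ 2 := fun hM => hi (Finset.mem_filter.2 ⟨hiL, hM⟩)
        have h4 := fB_le_term (M := M) hβ0 (r := s) (q := i) (h.ls_ne hiL)
        rw [hs s h.sL, h2] at h4
        have h5 := half_le_cc M (h.ls_ne hiL) hM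
        have h6 : 0 ≤ β i := hβ0 i
        nlinarith
      · exact hs i hiL
    exact hrt.rho u |>.false (comb_nonneg cs h.hu0 hβ0 h3) hβ

/-- The basic inequality. -/
lemma DD {π β : B → ℝ} (hπ : IsPR cs ψ π) (hπ0 : 0 ≤ π) (hπs : ∀ i ∉ L, π i = 0)
    (hπu : rho cs (u * cs.simple s) π ≤ 0) (hβ : IsPR cs ψ β) (hβ0 : 0 ≤ β)
    (hβs : ∀ i ∉ L, β i = 0) (hβu : rho cs u β ≤ 0) :
    2 * (- fB M s π) * (- fB M s β) - 1 < bil M π β := by
  by_contra hcon
  push Not at hcon
  refine dihedral (cs := cs) (u := u) (hπ.isRt.rho (cs.simple s)) hβ.isRt ?_ hβ0 ?_ hβu ?_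
  · rcases (hπ.isRt.rho (cs.simple s)).pos_or_neg with h1 | h1
    · exact h1
    · exfalso
      have h2 := hπ.isRt.eq_al hπ0 h1
      have h3 := hπs s h.sL
      rw [h2, al_self] at h3
      norm_num at h3
  · rw [← rho_mul]; exact hπu
  · rw [rho_simple, sig_apply, bil_sub_left, bil_smul_left, bil_al_left]
    nlinarith

lemma c_sq {β : B → ℝ} (hβ : IsPR cs ψ β) (hβ0 : 0 ≤ β) (hβs : ∀ i ∉ L, β i = 0)
    (hβu : rho cs u β ≤ 0) : 0 < - fB M s β ∧ 1 / 2 ≤ (- fB M s β) ^ 2 := by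
  have h1 := h.attached hβ.isRt hβ0 hβs hβu
  refine ⟨h1, ?_⟩
  have := c_bound h.wt hβ hβ0 h.ns (hβs s h.sL) h1
  rw [neg_sq]; exact this

lemma DD_pos {π β : B → ℝ} (hπ : IsPR cs ψ π) (hπ0 : 0 ≤ π) (hπs : ∀ i ∉ L, π i = 0)
    (hπu : rho cs (u * cs.simple s) π ≤ 0) (hβ : IsPR cs ψ β) (hβ0 : 0 ≤ β)
    (hβs : ∀ i ∉ L, β i = 0) (hβu : rho cs u β ≤ 0) : 0 < bil M π β := by
  have h1 := h.DD hπ hπ0 hπs hπu hβ hβ0 hβs hβu
  have h2 := h.c_sq hπ hπ0 hπs (h.support_us hπ0 hπs hπu hπ.isRt)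
  have h3 := h.c_sq hβ hβ0 hβs hβu
  have h4 : 1 / 2 ≤ (- fB M s π) * (- fB M s β) := by
    have h5 := mul_pos h2.1 h3.1
    nlinarith [mul_le_mul h2.2 h3.2 (by norm_num) (by positivity)]
  linarith

end Cr

end Pool.Agent.H44.Cox
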