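import Mathlib
import Pool.Agent.H44.Cox.Cr

set_option autoImplicit false
set_option linter.unusedSectionVars false
set_option linter.unusedSimpArgs false
set_option linter.unusedVariables false

/-! # The core configuration: the distinguished root -/

namespace Pool.Agent.H44.Cox

open CoxeterSystem Pool.Agent.H80.Cox

variable {B : Type*} [Fintype B] [DecidableEq B] {W : Type*} [Group W]
variable {M : CoxeterMatrix B} (cs : CoxeterSystem M W)

open Classical in
/-- the generators of nonpositive weight in `L` -/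
noncomputable def negS (ψ : W → ℝ) (L : Finset B) : Finset B :=
  L.filter (fun r => ¬ 0 < ψ (cs.simple r))

variable {cs}
variable {ψ : W → ℝ} {L : Finset B} {s : B} {y g m u c : W}

lemma mem_negS {r : B} : r ∈ negS cs ψ L ↔ r ∈ L ∧ ¬ 0 < ψ (cs.simple r) := by
  unfold negS; rw [Finset.mem_filter]

lemma negS_sub : negS cs ψ L ⊆ L := fun r hr => (mem_negS.1 hr).1

lemma negS_neg : ∀ q ∈ negS cs ψ L, ¬ 0 < ψ (cs.simple q) := fun q hq => (mem_negS.1 hq).2

lemma bil_zero {A C : Finset B} (hAC : ∀ a ∈ A, ∀ c ∈ C, M a c = 2) {x z : B → ℝ}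
    (hx : ∀ i ∉ A, x i = 0) (hz : ∀ i ∉ C, z i = 0) : bil M x z = 0 := by
  unfold bil
  apply Finset.sum_eq_zero
  intro t _
  by_cases ht : t ∈ C
  · rw [fB_apply]
    have : ∑ i, -(cc M i t) * x i = 0 := by
      apply Finset.sum_eq_zero
      intro i _
      by_cases hi : i ∈ A
      · rw [cc_of_eq_two M (hAC i hi t ht)]; ring
      · rw [hx i hi]; ring
    rw [this, mul_zero]
  · rw [hz t ht, zero_mul]

/-- supports of roots are connected -/
lemma supp_comm {A C : Finset B} (hAC : ∀ a ∈ A, ∀ c ∈ C, M a c = 2) {w : W}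
    (hw : w ∈ WP cs (A ∪ C)) {r : B} (hr : r ∈ A) : ∀ i ∉ A, rho cs w (al r) i = 0 := by
  intro i hi
  obtain ⟨a, ha, c, hc, rfl⟩ := exists_comm_dec cs hAC w hw
  rw [rho_mul, rho_fix cs (fun x hx => by rw [M.symmetric]; exact hAC r hr x hx) hc]
  exact supp_rho cs ha hr i hi

namespace Cr

variable (h : Cr cs ψ L s y g m u c)
include h

/-- the data of the distinguished root -/
def IsPi (_ : Cr cs ψ L s y g m u c) (v : W) (r : B) : Prop :=
  v ∈ WP cs (negS cs ψ L) ∧ r ∈ L ∧ 0 < ψ (cs.simple r) ∧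
    rho cs (u * cs.simple s) (rho cs v (al r)) ≤ 0

lemma exists_pi : ∃ v r, h.IsPi v r := by
  by_contra hcon
  push Not at hcon
  obtain ⟨h', v, hdec, hv, hh'⟩ := exists_dec cs (negS cs ψ L) (u * cs.simple s)
  have hvL : v ∈ WP cs L := WP_mono cs negS_sub hv
  refine h.final hdec hvL ?_ (weight_nonpos_Q h.wt negS_neg hv)
  intro r hr
  by_cases pr : 0 < ψ (cs.simple r)
  · apply pos_of_not_neg
    intro hneg
    apply hcon v⁻¹ r
    refine ⟨inv_mem hv, hr, pr, ?_⟩
    rw [← rho_mul]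
    have : u * cs.simple s * v⁻¹ = h' := by rw [hdec]; simp
    rw [this]
    exact hneg
  · exact hh' r (mem_negS.2 ⟨hr, pr⟩)

variable {h}

lemma IsPi.isPR {v : W} {r : B} (hp : h.IsPi v r) : IsPR cs ψ (rho cs v (al r)) :=
  (IsPR.al hp.2.2.1).rho v

lemma IsPi.coord {v : W} {r : B} (hp : h.IsPi v r) : rho cs v (al r) r = 1 := by
  rw [rho_coord cs hp.1, al_self]
  intro hr
  exact negS_neg r hr hp.2.2.1

lemma IsPi.nonneg {v : W} {r : B} (hp : h.IsPi v r) : 0 ≤ rho cs v (al r) :=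
  hp.isPR.isRt.pos_of_coord (i := r) (by rw [hp.coord]; norm_num)

lemma IsPi.supp {v : W} {r : B} (hp : h.IsPi v r) : ∀ i ∉ L, rho cs v (al r) i = 0 :=
  supp_rho cs (WP_mono cs negS_sub hp.1) hp.2.1

lemma IsPi.u_neg {v : W} {r : B} (hp : h.IsPi v r) : rho cs u (rho cs v (al r)) ≤ 0 :=
  h.support_us hp.nonneg hp.supp hp.2.2.2 hp.isPR.isRt

lemma IsPi.DD {v : W} {r : B} (hp : h.IsPi v r) {β : B → ℝ} (hβ : IsPR cs ψ β) (hβ0 : 0 ≤ β)
    (hβs : ∀ i ∉ L, β i = 0) (hβu : rho cs u β ≤ 0) :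
    2 * (- fB M s (rho cs v (al r))) * (- fB M s β) - 1 < bil M (rho cs v (al r)) β :=
  h.DD hp.isPR hp.nonneg hp.supp hp.2.2.2 hβ hβ0 hβs hβu

lemma IsPi.DD_pos {v : W} {r : B} (hp : h.IsPi v r) {β : B → ℝ} (hβ : IsPR cs ψ β) (hβ0 : 0 ≤ β)
    (hβs : ∀ i ∉ L, β i = 0) (hβu : rho cs u β ≤ 0) : 0 < bil M (rho cs v (al r)) β :=
  h.DD_pos hp.isPR hp.nonneg hp.supp hp.2.2.2 hβ hβ0 hβs hβu

lemma IsPi.c_sq {v : W} {r : B} (hp : h.IsPi v r) : 0 < - fB M s (rho cs v (al r)) ∧
    1 / 2 ≤ (- fB M s (rho cs v (al r))) ^ 2 :=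
  h.c_sq hp.isPR hp.nonneg hp.supp hp.u_neg

lemma IsPi.c_lt {v : W} {r : B} (hp : h.IsPi v r) : (- fB M s (rho cs v (al r))) ^ 2 < 1 := by
  have h1 := hp.DD hp.isPR hp.nonneg hp.supp hp.u_neg
  rw [hp.isPR.isRt.bil_self] at h1
  nlinarith

/-- uniqueness of the simple root of positive weight made negative by `u` -/
lemma IsPi.uniq {v : W} {r : B} (hp : h.IsPi v r) {v' : W} {r' : B}
    (hv' : v' ∈ WP cs (negS cs ψ L)) (hr' : r' ∈ L) (pr' : 0 < ψ (cs.simple r'))
    (hu : rho cs u (rho cs v' (al r')) ≤ 0) : rho cs v' (al r') = rho cs v (al r) := by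
  have h1 : rho cs v' (al r') r' = 1 := by
    rw [rho_coord cs hv', al_self]
    intro hr
    exact negS_neg r' hr pr'
  have h2 : IsPR cs ψ (rho cs v' (al r')) := (IsPR.al pr').rho v'
  have h3 : 0 ≤ rho cs v' (al r') := h2.isRt.pos_of_coord (i := r') (by rw [h1]; norm_num)
  have h4 := hp.DD_pos h2 h3 (supp_rho cs (WP_mono cs negS_sub hv') hr') hu
  have h5 : bil M (rho cs v (al r)) (rho cs v' (al r')) = fB M r' (rho cs (v'⁻¹ * v) (al r)) := by
    rw [bil_symm, bil_rho_left, bil_al_left, rho_mul]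
  rw [h5] at h4
  have h6 := acute_eq h.wt negS_neg hp.2.2.1 pr' (mul_mem (inv_mem hv') hp.1) h4
  rw [← h6, ← rho_mul, mul_inv_cancel_left]

variable (h)

/-- Lemma M: every neighbour of `s` occurs in a root of positive weight made negative by `u`. -/
lemma lemM {q : B} (hq : q ∈ L) (hqs : M q s ≠ 2) : ∃ β, IsPR cs ψ β ∧ 0 ≤ β ∧
    (∀ i ∉ L, β i = 0) ∧ rho cs u β ≤ 0 ∧ 0 < β q := by
  obtain ⟨n', t, hn, ht, hn'⟩ := exists_dec cs (L.erase q) (m * c⁻¹)
  have htL : t ∈ WP cs L := WP_mono cs (Finset.erase_subset _ _) ht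
  have hn'L : n' ∈ WP cs L := by
    have : n' = m * c⁻¹ * t⁻¹ := by rw [hn]; simp
    rw [this]
    exact mul_mem h.n_mem (inv_mem htL)
  have hceq : c ∈ WP cs (L.erase q) := by
    apply WP_mono cs _ h.cm
    intro x hx
    rw [Finset.mem_filter] at hx
    rw [Finset.mem_erase]
    exact ⟨by rintro rfl; exact hqs hx.2, hx.1⟩
  have hmn : m = n' * (t * c) := by
    rw [← mul_assoc, ← hn]; simp
  have hn1 : n' ≠ 1 := by
    rintro rfl
    apply h.full q hq
    rw [hmn, one_mul]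
    exact mul_mem ht hceq
  have hlen : cs.length m = cs.length n' + cs.length (t * c) := by
    conv_lhs => rw [hmn]
    exact length_mul_of_pos cs hn' (mul_mem ht hceq)
  have hpos : 0 < ψ n' := by
    by_contra hcon
    push Not at hcon
    exact hn1 (h.m_le hmn (mul_mem htL h.cL) hlen hcon)
  obtain ⟨z, hz, r, hr, hr0, h1, h2⟩ := exists_pos_inv h.wt n' hn'L hpos
  set x := rho cs z (al r) with hx
  have hxrt : IsPR cs ψ x := ⟨z, r, hr0, rfl⟩
  have hxs : ∀ i ∉ L, x i = 0 := supp_rho cs hz hr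
  have hxq : 0 < x q := by
    by_contra hcon
    push Not at hcon
    have h3 : x q = 0 := le_antisymm hcon (h1 q)
    have h4 : ∀ i ∉ L.erase q, x i = 0 := by
      intro i hi
      by_cases hiq : i = q
      · rw [hiq, h3]
      · apply hxs
        intro hiL
        exact hi (Finset.mem_erase.2 ⟨hiq, hiL⟩)
    exact (hxrt.isRt.rho n').false (comb_nonneg cs hn' h1 h4) h2
  have hβq : rho cs t⁻¹ x q = x q := rho_coord cs (inv_mem ht) _ (Finset.notMem_erase _ _)
  have hβrt : IsPR cs ψ (rho cs t⁻¹ x) := hxrt.rho _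
  have hβs : ∀ i ∉ L, rho cs t⁻¹ x i = 0 := by
    intro i hi
    rw [rho_coord cs (inv_mem htL) _ hi, hxs i hi]
  refine ⟨rho cs t⁻¹ x, hβrt, hβrt.isRt.pos_of_coord (i := q) (by rw [hβq]; exact hxq), hβs, ?_,
    by rw [hβq]; exact hxq⟩
  rw [h.rho_u_n, hn, ← rho_mul cs (n' * t), mul_assoc, mul_inv_cancel, mul_one]
  apply h.g_nonpos h2
  intro i hi
  rw [rho_coord cs hn'L _ hi, hxs i hi]

/-- positive neighbours of `s` are made negative by `u` -/
lemma u_att {r : B} (hr : r ∈ L) (pr : 0 < ψ (cs.simple r)) (hrs : M r s ≠ 2) :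
    rho cs u (al r) ≤ 0 := by
  apply neg_of_not_pos
  intro hpos
  have hrf : r ∉ L.filter (fun t => M t s = 2) := fun hx => hrs (Finset.mem_filter.1 hx).2
  have h1 : ∀ t ∈ insert r (L.filter fun t => M t s = 2), 0 ≤ rho cs u (al t) := by
    intro t ht
    rcases Finset.mem_insert.1 ht with rfl | ht
    · exact hpos
    · exact h.hu0 t ht
  have h2 : 0 ≤ rho cs c (al r) := (al_nonneg r).trans (al_le_chain hrf c h.cm)
  have h3 : 0 ≤ rho cs u (rho cs c (al r)) := by
    apply comb_nonneg cs h1 h2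
    intro i hi
    rw [Finset.mem_insert, not_or] at hi
    rw [rho_coord cs h.cm _ hi.2, al_ne hi.1]
  rw [← rho_mul, ← h.dec2] at h3
  exact not_pos_and_neg cs h3 (h.y_neg hr pr)

/-- a letter of nonpositive weight which occurs in no relevant root does not occur in `m c⁻¹` -/
lemma no_letter {q : B} (hno : ∀ β, IsPR cs ψ β → 0 ≤ β → (∀ i ∉ L, β i = 0) →
    rho cs u β ≤ 0 → β q ≤ 0) : m * c⁻¹ ∈ WP cs (L.erase q) := by
  obtain ⟨n', t, hn, ht, hn'⟩ := exists_dec cs (L.erase q) (m * c⁻¹)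
  have htL : t ∈ WP cs L := WP_mono cs (Finset.erase_subset _ _) ht
  have hn'L : n' ∈ WP cs L := by
    have : n' = m * c⁻¹ * t⁻¹ := by rw [hn]; simp
    rw [this]
    exact mul_mem h.n_mem (inv_mem htL)
  have hmn : m = n' * (t * c) := by
    rw [← mul_assoc, ← hn]; simp
  have l1 : cs.length (m * c⁻¹) = cs.length n' + cs.length t := by
    rw [hn]; exact length_mul_of_pos cs hn' ht
  have l2 := h.n_length
  have l3 := cs.length_mul_le t c
  have l4 := cs.length_mul_le n' (t * c)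
  rw [← hmn] at l4
  have hlen : cs.length m = cs.length n' + cs.length (t * c) := by omega
  have hψ : ψ n' ≤ 0 := by
    apply weight_nonpos h.wt hn'L
    intro x hx hx0 hxs hxn
    have hxq : 0 < x q := by
      by_contra hcon
      push Not at hcon
      have h3 : x q = 0 := le_antisymm hcon (hx0 q)
      have h4 : ∀ i ∉ L.erase q, x i = 0 := by
        intro i hi
        by_cases hiq : i = q
        · rw [hiq, h3]
        · apply hxs
          intro hiL
          exact hi (Finset.mem_erase.2 ⟨hiq, hiL⟩)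
      exact (hx.isRt.rho n').false (comb_nonneg cs hn' hx0 h4) hxn
    have hβq : rho cs t⁻¹ x q = x q := rho_coord cs (inv_mem ht) _ (Finset.notMem_erase _ _)
    have hβs : ∀ i ∉ L, rho cs t⁻¹ x i = 0 := by
      intro i hi
      rw [rho_coord cs (inv_mem htL) _ hi, hxs i hi]
    have h5 := hno (rho cs t⁻¹ x) (hx.rho _)
      ((hx.rho t⁻¹).isRt.pos_of_coord (i := q) (by rw [hβq]; exact hxq)) hβs ?_
    · rw [hβq] at h5
      exact absurd h5 (not_le.2 hxq)
    · rw [h.rho_u_n, hn, ← rho_mul cs (n' * t), mul_assoc, mul_inv_cancel, mul_one]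
      apply h.g_nonpos hxn
      intro i hi
      rw [rho_coord cs hn'L _ hi, hxs i hi]
  have h1 := h.m_le hmn (mul_mem htL h.cL) hlen hψ
  rw [hn, h1, one_mul]
  exact ht

lemma not_both {q : B} (hq : q ∈ L) (h1 : m * c⁻¹ ∈ WP cs (L.erase q))
    (h2 : c ∈ WP cs (L.erase q)) : False := by
  apply h.full q hq
  have := mul_mem h1 h2
  rwa [inv_mul_cancel_right] at this

omit h in
lemma conn_aux (h : Cr cs ψ L s y g m u c) {v : W} {r : B} (hp : h.IsPi v r) {A C : Finset B}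
    (hAC : A ∪ C = L) (hC : C.Nonempty)
    (hcomm : ∀ a ∈ A, ∀ c ∈ C, M a c = 2) (hr : r ∈ A) : False := by
  obtain ⟨q, hq, hqs⟩ : ∃ q ∈ C, M q s ≠ 2 := by
    by_contra hcon
    push Not at hcon
    refine h.irr (insert s A) C ?_ ⟨s, Finset.mem_insert_self _ _⟩ hC ?_
    · rw [Finset.insert_union, hAC]
    · intro a ha t ht
      rcases Finset.mem_insert.1 ha with rfl | ha
      · rw [M.symmetric]; exact hcon t ht
      · exact hcomm a ha t ht
  have hqA : q ∉ A := by
    intro hqA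
    have := hcomm q hqA q hq
    rw [M.diagonal] at this
    omega
  obtain ⟨β, hβ, hβ0, hβs, hβu, hβq⟩ := h.lemM (hAC ▸ Finset.mem_union_right _ hq) hqs
  have h1 := hp.DD_pos hβ hβ0 hβs hβu
  have h2 : ∀ i ∉ A, rho cs v (al r) i = 0 := by
    apply supp_comm hcomm _ hr
    rw [hAC]; exact WP_mono cs negS_sub hp.1
  obtain ⟨w, hw, r1, hr1, hβw⟩ := hβ.isRt.of_supp hβs
  have hcomm' : ∀ a ∈ C, ∀ c ∈ A, M a c = 2 := fun a ha c hc => by
    rw [M.symmetric]; exact hcomm c hc a ha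
  rw [← hAC] at hw hr1
  rcases Finset.mem_union.1 hr1 with hr1 | hr1
  · have := supp_comm hcomm hw hr1 q hqA
    rw [← hβw] at this
    linarith
  · have h3 := supp_comm hcomm' (by rwa [Finset.union_comm] at hw) hr1
    rw [← hβw] at h3
    rw [bil_zero hcomm h2 h3] at h1
    exact lt_irrefl _ h1

/-- `L` is irreducible -/
lemma conn {A C : Finset B} (hAC : A ∪ C = L) (hA : A.Nonempty) (hC : C.Nonempty) :
    ¬ ∀ a ∈ A, ∀ c ∈ C, M a c = 2 := by
  intro hcomm
  obtain ⟨v, r, hp⟩ := h.exists_pi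
  have hr := hp.2.1
  rw [← hAC] at hr
  rcases Finset.mem_union.1 hr with hr | hr
  · exact conn_aux h hp hAC hC hcomm hr
  · exact conn_aux h hp (by rw [Finset.union_comm]; exact hAC) hA
      (fun a ha c hc => by rw [M.symmetric]; exact hcomm c hc a ha) hr

end Cr

end Pool.Agent.H44.Cox
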