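import Mathlib
import Pool.Agent.H44.Cox.Lem

set_option autoImplicit false
set_option linter.unusedSectionVars false
set_option linter.unusedSimpArgs false
set_option linter.unusedVariables false

/-! # Paths of type `B` -/

namespace Pool.Agent.H44.Cox

open CoxeterSystem Pool.Agent.H80.Cox

variable {B : Type*} [Fintype B] [DecidableEq B] {W : Type*} [Group W]
variable {M : CoxeterMatrix B} {cs : CoxeterSystem M W}

lemma sqrt2_sq : Real.sqrt 2 * Real.sqrt 2 = 2 := Real.mul_self_sqrt (by norm_num)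

lemma sqrt2_pos : 0 < Real.sqrt 2 := Real.sqrt_pos.2 (by norm_num)

lemma cc_four {s t : B} (h : M s t = 4) : cc M s t = Real.sqrt 2 / 2 := by
  unfold cc
  rw [h]
  push_cast
  exact Real.cos_pi_div_four

/-- `x₀ -4- y₀ -3- y₁ -3- ⋯ -3- y_k` -/
structure BPath (M : CoxeterMatrix B) (x0 : B) (y : ℕ → B) (k : ℕ) : Prop where
  h4 : M x0 (y 0) = 4
  h2 : ∀ i, 1 ≤ i → i ≤ k → M x0 (y i) = 2
  h3 : ∀ i, i < k → M (y i) (y (i + 1)) = 3
  h22 : ∀ i j, i + 2 ≤ j → j ≤ k → M (y i) (y j) = 2

/-- the vertex set -/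
def vset (x0 : B) (y : ℕ → B) (n : ℕ) : Finset B := insert x0 ((Finset.range n).image y)

/-- the vertices of the simply laced part -/
def tset (y : ℕ → B) (n : ℕ) : Finset B := (Finset.range n).image y

lemma mem_tset {y : ℕ → B} {n : ℕ} {t : B} : t ∈ tset y n ↔ ∃ i < n, y i = t := by
  unfold tset; simp

lemma mem_vset {x0 : B} {y : ℕ → B} {n : ℕ} {t : B} :
    t ∈ vset x0 y n ↔ t = x0 ∨ ∃ i < n, y i = t := by
  unfold vset; simp

lemma tset_sub_vset (x0 : B) (y : ℕ → B) (n : ℕ) : tset y n ⊆ vset x0 y n :=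
  Finset.subset_insert _ _

lemma tset_mono {y : ℕ → B} {n n' : ℕ} (h : n ≤ n') : tset y n ⊆ tset y n' := by
  intro t ht
  rw [mem_tset] at *
  obtain ⟨i, hi, rfl⟩ := ht
  exact ⟨i, by omega, rfl⟩

lemma vset_mono {x0 : B} {y : ℕ → B} {n n' : ℕ} (h : n ≤ n') : vset x0 y n ⊆ vset x0 y n' := by
  intro t ht
  rw [mem_vset] at *
  rcases ht with rfl | ⟨i, hi, rfl⟩
  · exact Or.inl rfl
  · exact Or.inr ⟨i, by omega, rfl⟩

/-- the vectors `e_i` -/
noncomputable def ev (x0 : B) (y : ℕ → B) : ℕ → (B → ℝ)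
  | 0 => al x0
  | (i + 1) => ev x0 y i + Real.sqrt 2 • al (y i)

lemma ev_zero (x0 : B) (y : ℕ → B) : ev x0 y 0 = al x0 := rfl

lemma ev_succ (x0 : B) (y : ℕ → B) (i : ℕ) :
    ev x0 y (i + 1) = ev x0 y i + Real.sqrt 2 • al (y i) := rfl

lemma ev_mono (x0 : B) (y : ℕ → B) : Monotone (ev x0 y) := by
  apply monotone_nat_of_le_succ
  intro i
  rw [ev_succ]
  exact le_add_of_nonneg_right (smul_nonneg sqrt2_pos.le (al_nonneg _))

lemma ev_nonneg (x0 : B) (y : ℕ → B) (i : ℕ) : 0 ≤ ev x0 y i :=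
  (al_nonneg x0).trans (ev_mono x0 y (Nat.zero_le i))

lemma al_y (x0 : B) (y : ℕ → B) (i : ℕ) :
    al (y i) = (Real.sqrt 2 / 2) • (ev x0 y (i + 1) - ev x0 y i) := by
  rw [ev_succ, add_sub_cancel_left, smul_smul]
  have := sqrt2_sq
  rw [show Real.sqrt 2 / 2 * Real.sqrt 2 = 1 by linarith, one_smul]

namespace BPath

variable {x0 : B} {y : ℕ → B} {k : ℕ} (p : BPath M x0 y k)
include p

lemma mono {k' : ℕ} (h : k' ≤ k) : BPath M x0 y k' where
  h4 := p.h4
  h2 := fun i h1 h2 => p.h2 i h1 (by omega)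
  h3 := fun i hi => p.h3 i (by omega)
  h22 := fun i j h1 h2 => p.h22 i j h1 (by omega)

lemma inj {i j : ℕ} (hi : i ≤ k) (hj : j ≤ k) (h : y i = y j) : i = j := by
  by_contra hne
  rcases lt_or_gt_of_ne hne with h1 | h1
  · have h2 : M (y i) (y j) = 1 := by rw [h, M.diagonal]
    rcases Nat.lt_or_ge (i + 1) j with h3 | h3
    · rw [p.h22 i j (by omega) hj] at h2; omega
    · have : j = i + 1 := by omega
      subst this
      rw [p.h3 i (by omega)] at h2; omega
  · have h2 : M (y j) (y i) = 1 := by rw [h, M.diagonal]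
    rcases Nat.lt_or_ge (j + 1) i with h3 | h3
    · rw [p.h22 j i (by omega) hi] at h2; omega
    · have : i = j + 1 := by omega
      subst this
      rw [p.h3 j (by omega)] at h2; omega

lemma x0_ne {i : ℕ} (hi : i ≤ k) : x0 ≠ y i := by
  intro h
  have h1 : M x0 (y i) = 1 := by rw [← h, M.diagonal]
  rcases Nat.eq_zero_or_pos i with rfl | h2
  · rw [p.h4] at h1; omega
  · rw [p.h2 i h2 hi] at h1; omega

lemma cc_yy {i j : ℕ} (hi : i ≤ k) (hj : j ≤ k) :
    cc M (y i) (y j) = if i = j then -1 else if i = j + 1 ∨ j = i + 1 then 1 / 2 else 0 := by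
  rcases lt_trichotomy i j with h1 | h1 | h1
  · rw [if_neg (by omega)]
    by_cases h2 : j = i + 1
    · rw [if_pos (Or.inr h2)]
      subst h2
      exact cc_of_eq_three M (p.h3 i (by omega))
    · rw [if_neg (by omega)]
      exact cc_of_eq_two M (p.h22 i j (by omega) hj)
  · rw [if_pos h1, h1, cc_self]
  · rw [if_neg (by omega)]
    by_cases h2 : i = j + 1
    · rw [if_pos (Or.inl h2)]
      subst h2
      rw [cc_symm]
      exact cc_of_eq_three M (p.h3 j (by omega))
    · rw [if_neg (by omega)]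
      rw [cc_symm]
      exact cc_of_eq_two M (p.h22 j i (by omega) hi)

lemma cc_xy {i : ℕ} (hi : i ≤ k) : cc M x0 (y i) = if i = 0 then Real.sqrt 2 / 2 else 0 := by
  by_cases h : i = 0
  · rw [if_pos h, h]; exact cc_four p.h4
  · rw [if_neg h]; exact cc_of_eq_two M (p.h2 i (by omega) hi)

lemma fB_y {i j : ℕ} (hj : j ≤ k) (hi : i ≤ k + 1) : fB M (y j) (ev x0 y i) =
    if i = j then -(Real.sqrt 2 / 2) else if i = j + 1 then Real.sqrt 2 / 2 else 0 := by
  induction i with
  | zero =>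
    rw [ev_zero, fB_al, p.cc_xy hj]
    by_cases h : j = 0
    · subst h; simp
    · rw [if_neg h, if_neg (Ne.symm h), if_neg (by omega)]; simp
  | succ i ih =>
    rw [ev_succ, map_add, map_smul, ih (by omega), fB_al, p.cc_yy (by omega) hj, smul_eq_mul]
    by_cases h1 : i = j
    · rw [if_pos h1, if_pos h1, if_neg (by omega), if_pos (by omega)]
      ring
    by_cases h2 : i = j + 1
    · rw [if_neg h1, if_pos h2, if_neg h1, if_pos (Or.inl h2), if_neg (by omega), if_neg (by omega)]
      ring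
    by_cases h3 : j = i + 1
    · rw [if_neg h1, if_neg h2, if_neg h1, if_pos (Or.inr h3), if_pos (by omega)]
      ring
    · rw [if_neg h1, if_neg h2, if_neg h1, if_neg (by omega), if_neg (by omega), if_neg (by omega)]
      ring

lemma fB_x {i : ℕ} (hi : i ≤ k + 1) : fB M x0 (ev x0 y i) = if i = 0 then 1 else 0 := by
  induction i with
  | zero => rw [ev_zero, fB_al_self, if_pos rfl]
  | succ i ih =>
    rw [ev_succ, map_add, map_smul, ih (by omega), fB_al, cc_symm, p.cc_xy (by omega), smul_eq_mul]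
    by_cases h : i = 0
    · rw [if_pos h, if_pos h, if_neg (by omega)]
      have := sqrt2_sq
      linarith
    · rw [if_neg h, if_neg h, if_neg (by omega)]; ring

lemma bil_ev {i j : ℕ} (hi : i ≤ k + 1) (hj : j ≤ k + 1) :
    bil M (ev x0 y i) (ev x0 y j) = if i = j then 1 else 0 := by
  induction j with
  | zero => rw [ev_zero, bil_al_right, p.fB_x hi]
  | succ j ih =>
    rw [ev_succ, bil_add_right, bil_smul_right, bil_al_right, ih (by omega), p.fB_y (by omega) hi]
    have := sqrt2_sq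
    by_cases h1 : i = j
    · rw [if_pos h1, if_pos h1, if_neg (by omega)]
      linarith
    by_cases h2 : i = j + 1
    · rw [if_neg h1, if_neg h1, if_pos h2, if_pos h2]
      linarith
    · rw [if_neg h1, if_neg h1, if_neg h2, if_neg h2]; ring

lemma sig_y {i j : ℕ} (hj : j ≤ k) (hi : i ≤ k + 1) : sig M (y j) (ev x0 y i) =
    if i = j then ev x0 y (j + 1) else if i = j + 1 then ev x0 y j else ev x0 y i := by
  rw [sig_apply, p.fB_y hj hi]
  by_cases h1 : i = j
  · rw [if_pos h1, if_pos h1, h1, ev_succ]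
    module
  by_cases h2 : i = j + 1
  · rw [if_neg h1, if_neg h1, if_pos h2, if_pos h2, h2, ev_succ]
    module
  · rw [if_neg h1, if_neg h1, if_neg h2, if_neg h2]
    module

lemma sig_x {i : ℕ} (hi : i ≤ k + 1) : sig M x0 (ev x0 y i) =
    if i = 0 then - ev x0 y 0 else ev x0 y i := by
  rw [sig_apply, p.fB_x hi]
  by_cases h1 : i = 0
  · rw [if_pos h1, if_pos h1, h1, ev_zero]
    module
  · rw [if_neg h1, if_neg h1]
    module

/-- the simply laced part permutes the `e_i` -/
lemma perm_t {n : ℕ} (hn : n ≤ k + 1) : ∀ w ∈ WP cs (tset y n), ∀ i ≤ k + 1,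
    (i ≤ n → ∃ j ≤ n, rho cs w (ev x0 y i) = ev x0 y j) ∧
    (n < i → rho cs w (ev x0 y i) = ev x0 y i) := by
  apply WP_induction
  · intro i hi
    rw [rho_one]
    exact ⟨fun h => ⟨i, h, rfl⟩, fun _ => rfl⟩
  · intro w hw s hs hl ih i hi
    rw [mem_tset] at hs
    obtain ⟨a, ha, rfl⟩ := hs
    rw [rho_mul, rho_simple, p.sig_y (by omega) hi]
    constructor
    · intro hin
      split_ifs with h1 h2
      · exact (ih (a + 1) (by omega)).1 (by omega)
      · exact (ih a (by omega)).1 (by omega)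
      · exact (ih i hi).1 hin
    · intro hin
      rw [if_neg (by omega), if_neg (by omega)]
      exact (ih i hi).2 hin

/-- the whole group permutes the `± e_i` -/
lemma perm_v {n : ℕ} (hn : n ≤ k + 1) : ∀ w ∈ WP cs (vset x0 y n), ∀ i ≤ k + 1,
    (i ≤ n → ∃ j ≤ n, rho cs w (ev x0 y i) = ev x0 y j ∨ rho cs w (ev x0 y i) = - ev x0 y j) ∧
    (n < i → rho cs w (ev x0 y i) = ev x0 y i) := by
  apply WP_induction
  · intro i hi
    rw [rho_one]
    exact ⟨fun h => ⟨i, h, Or.inl rfl⟩, fun _ => rfl⟩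
  · intro w hw s hs hl ih i hi
    rw [mem_vset] at hs
    rcases hs with rfl | ⟨a, ha, rfl⟩
    · rw [rho_mul, rho_simple, p.sig_x hi]
      constructor
      · intro hin
        split_ifs with h1
        · obtain ⟨j, hj, h2⟩ := (ih 0 (by omega)).1 (by omega)
          refine ⟨j, hj, ?_⟩
          rw [map_neg]
          rcases h2 with h2 | h2
          · right; rw [h2]
          · left; rw [h2, neg_neg]
        · exact (ih i hi).1 hin
      · intro hin
        rw [if_neg (by omega)]
        exact (ih i hi).2 hin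
    · rw [rho_mul, rho_simple, p.sig_y (by omega) hi]
      constructor
      · intro hin
        split_ifs with h1 h2
        · exact (ih (a + 1) (by omega)).1 (by omega)
        · exact (ih a (by omega)).1 (by omega)
        · exact (ih i hi).1 hin
      · intro hin
        rw [if_neg (by omega), if_neg (by omega)]
        exact (ih i hi).2 hin

lemma ev_inj {i j : ℕ} (hi : i ≤ k + 1) (hj : j ≤ k + 1) (h : ev x0 y i = ev x0 y j) : i = j := by
  by_contra hne
  have h1 := p.bil_ev hi hj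
  rw [if_neg hne, h, p.bil_ev hj hj, if_pos rfl] at h1
  norm_num at h1

lemma ev_le {i j : ℕ} (hi : i ≤ k + 1) (hj : j ≤ k + 1) (h : ev x0 y i ≤ ev x0 y j) : i ≤ j := by
  by_contra hne
  have h1 : ev x0 y j ≤ ev x0 y i := ev_mono x0 y (by omega)
  have := p.ev_inj hi hj (le_antisymm h h1)
  omega

lemma ev_isRt {i : ℕ} (hi : i ≤ k + 1) : IsRt cs (ev x0 y i) := by
  induction i with
  | zero => exact IsRt.al x0
  | succ i ih =>
    have h1 := (ih (by omega)).rho (cs.simple (y i))
    rw [rho_simple, p.sig_y (by omega) (by omega), if_pos rfl] at h1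
    exact h1

lemma fix_eq_one {n : ℕ} (hn : n ≤ k + 1) {w : W} (hw : w ∈ WP cs (vset x0 y n))
    (h : ∀ i ≤ n, rho cs w (ev x0 y i) = ev x0 y i) : w = 1 := by
  apply eq_one_of_pos hw
  intro t ht
  rw [mem_vset] at ht
  rcases ht with rfl | ⟨i, hi, rfl⟩
  · have := h 0 (by omega)
    rw [ev_zero] at this
    rw [this]; exact al_nonneg _
  · rw [al_y x0 y i, map_smul, map_sub, h (i + 1) (by omega), h i (by omega), ← al_y x0 y i]
    exact al_nonneg _

/-- Groups of type `B` are finite. -/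
theorem finS : FinS cs (vset x0 y (k + 1)) := by
  apply FinS.of_finite
  set E : Set (B → ℝ) := (fun i => ev x0 y i) '' (Set.Iic (k + 1)) ∪
    (fun i => - ev x0 y i) '' (Set.Iic (k + 1)) with hE
  have hEf : E.Finite := ((Set.finite_Iic _).image _).union ((Set.finite_Iic _).image _)
  set F : W → (Fin (k + 2) → (B → ℝ)) := fun w i => rho cs w (ev x0 y i) with hF
  have h1 : (F '' (WP cs (vset x0 y (k + 1)) : Set W)).Finite := by
    apply (Set.Finite.pi (fun _ : Fin (k + 2) => hEf)).subset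
    rintro f ⟨w, hw, rfl⟩ i _
    obtain ⟨j, hj, h2⟩ := (p.perm_v le_rfl w hw i (by omega)).1 (by omega)
    rcases h2 with h2 | h2
    · left; exact ⟨j, hj, h2.symm⟩
    · right; exact ⟨j, hj, h2.symm⟩
  apply Set.Finite.of_finite_image h1
  intro w hw w' hw' hww
  have h3 : w⁻¹ * w' = 1 := by
    apply p.fix_eq_one le_rfl (mul_mem (inv_mem hw) hw')
    intro i hi
    have h4 : rho cs w (ev x0 y i) = rho cs w' (ev x0 y i) := by
      have := congrFun hww ⟨i, by omega⟩
      exact this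
    rw [rho_mul, ← h4, rho_inv_cancel]
  exact (inv_mul_eq_one.1 h3)

end BPath

end Pool.Agent.H44.Cox
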