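import Mathlib
import Pool.Agent.H44.Cox.Paths
import Pool.Agent.H44.Cox.CrB
import Pool.Agent.H80.Cox.Core

set_option autoImplicit false
set_option linter.unusedSectionVars false
set_option linter.unusedSimpArgs false
set_option linter.unusedVariables false

/-! # Spherical diagrams with generators of both signs -/

namespace Pool.Agent.H44.Cox

open CoxeterSystem Pool.Agent.H80.Cox

variable {B : Type*} [Fintype B] [DecidableEq B] {W : Type*} [Group W]
variable {M : CoxeterMatrix B} {cs : CoxeterSystem M W}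

lemma fin_vec {L : Finset B} (hfin : FinS cs L) {z : B → ℝ} (hz : 0 ≤ z) (hz0 : z ≠ 0)
    (hs : ∀ i ∉ L, z i = 0) (h : ∀ t ∈ L, z t ≠ 0 → fB M t z ≤ 0) : False := by
  obtain ⟨w, _, hw⟩ := hfin
  refine K0_false cs hz hz0 ?_ (comb_nonpos cs hw hz hs)
  intro t
  by_cases ht : z t = 0
  · exact fB_nonpos hz ht
  · apply h t _ ht
    by_contra hc
    exact ht (hs t hc)

lemma fin_arr {L : Finset B} (hfin : FinS cs L) {n : ℕ} (v : Fin n → B) (hv : ∀ i, v i ∈ L)
    (c : Fin n → ℝ) (hc : ∀ i, 0 ≤ c i) (i0 : Fin n) (hi0 : 0 < c i0)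
    (h : ∀ j, 0 ≤ ∑ i, c i * cc M (v i) (v j)) : False := by
  set z : B → ℝ := ∑ i, c i • al (v i) with hz
  have hz0 : 0 ≤ z := Finset.sum_nonneg fun i _ => smul_nonneg (hc i) (al_nonneg _)
  apply fin_vec hfin hz0
  · intro h0
    have h1 := congrFun h0 (v i0)
    have h2 : c i0 ≤ z (v i0) := by
      rw [hz, Finset.sum_apply]
      have h3 := Finset.single_le_sum (f := fun i => (c i • al (v i)) (v i0))
        (fun i _ => smul_nonneg (hc i) (al_nonneg (v i)) (v i0)) (Finset.mem_univ i0)
      simp only [Pi.smul_apply, al_self, smul_eq_mul, mul_one] at h3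
      exact h3
    rw [h1] at h2
    exact absurd h2 (not_le.2 hi0)
  · intro i hi
    rw [hz, Finset.sum_apply]
    apply Finset.sum_eq_zero
    intro j _
    rw [Pi.smul_apply, al_ne (by rintro rfl; exact hi (hv j)), smul_zero]
  · intro t _ ht
    obtain ⟨j, hj⟩ : ∃ j, v j = t := by
      by_contra hcon
      push Not at hcon
      apply ht
      rw [hz, Finset.sum_apply]
      apply Finset.sum_eq_zero
      intro j _
      rw [Pi.smul_apply, al_ne (fun h => hcon j h.symm), smul_zero]
    subst hj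
    rw [hz, map_sum]
    have h1 := h j
    have h2 : ∑ i, fB M (v j) (c i • al (v i)) = - ∑ i, c i * cc M (v i) (v j) := by
      rw [← Finset.sum_neg_distrib]
      apply Finset.sum_congr rfl
      intro i _
      rw [map_smul, fB_al, smul_eq_mul]; ring
    rw [h2]
    linarith

/-! ### walking along a path -/

lemma ev_supp {x0 : B} {y : ℕ → B} {n : ℕ} {t : B} (h0 : t ≠ x0) (h : ∀ i < n, t ≠ y i) :
    ev x0 y n t = 0 := by
  induction n with
  | zero => rw [ev_zero, al_ne h0]
  | succ n ih =>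
    rw [ev_succ, Pi.add_apply, ih (fun i hi => h i (by omega)), Pi.smul_apply,
      al_ne (h n (by omega))]
    simp

lemma fB_ev {x0 : B} {y : ℕ → B} {n : ℕ} {t : B} :
    fB M t (ev x0 y n) = - cc M x0 t - Real.sqrt 2 * ∑ i ∈ Finset.range n, cc M (y i) t := by
  induction n with
  | zero => rw [ev_zero, fB_al]; simp
  | succ n ih =>
    rw [ev_succ, map_add, ih, map_smul, fB_al, Finset.sum_range_succ, smul_eq_mul]
    ring

lemma fB_ev_le {x0 : B} {y : ℕ → B} {n : ℕ} {t : B} (h : ∀ i < n, t ≠ y i) {j : ℕ} (hj : j < n) :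
    fB M t (ev x0 y n) ≤ - cc M x0 t - Real.sqrt 2 * cc M (y j) t := by
  rw [fB_ev]
  have h1 : cc M (y j) t ≤ ∑ i ∈ Finset.range n, cc M (y i) t := by
    apply Finset.single_le_sum (f := fun i => cc M (y i) t) _ (Finset.mem_range.2 hj)
    intro i hi
    exact cc_nonneg M (Ne.symm (h i (Finset.mem_range.1 hi)))
  have h2 := mul_le_mul_of_nonneg_left h1 sqrt2_pos.le
  linarith

lemma sqrt2_gt : (1.41 : ℝ) < Real.sqrt 2 := by
  rw [Real.lt_sqrt (by norm_num)]; norm_num

lemma sqrt2_lt : Real.sqrt 2 < 1.42 := by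
  rw [Real.sqrt_lt' (by norm_num)]; norm_num

lemma cc_ge_of_four {s t : B} (hst : s ≠ t) (h : M s t = 0 ∨ 4 ≤ M s t) :
    Real.sqrt 2 / 2 ≤ cc M s t := by
  have h1 := half_le_cc_sq M h
  have h2 := cc_nonneg M hst
  have h3 := sqrt2_sq
  have h4 := sqrt2_pos
  by_contra hcon
  push Not at hcon
  nlinarith

namespace BPath

variable {x0 : B} {y : ℕ → B} {k : ℕ} (p : BPath M x0 y k)
include p

lemma ev_ne_zero {n : ℕ} (hn : n ≤ k + 1) : ev x0 y n ≠ 0 := by
  intro h0
  have h1 := p.bil_ev (i := n) (j := n) hn hn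
  rw [if_pos rfl, h0] at h1
  have : bil M (0 : B → ℝ) 0 = 0 := by
    unfold bil; simp
  rw [this] at h1
  norm_num at h1

/-- type `C̃` -/
lemma ctilde {L : Finset B} (hfin : FinS cs L) (hx0 : x0 ∈ L) (hy : ∀ i ≤ k, y i ∈ L) {t : B}
    (ht : t ∈ L) (htx : t ≠ x0) (hty : ∀ i ≤ k, t ≠ y i) {j : ℕ} (hj : j ≤ k)
    (hc : Real.sqrt 2 / 2 ≤ cc M (y j) t) : False := by
  have hs := sqrt2_sq
  have hs0 := sqrt2_pos
  have hpos : 0 ≤ ev x0 y (j + 1) + al t := add_nonneg (ev_nonneg _ _ _) (al_nonneg t)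
  refine fin_vec hfin hpos ?_ ?_ ?_
  · intro h0
    have h1 := congrFun h0 t
    rw [Pi.add_apply, al_self] at h1
    have h2 := ev_nonneg x0 y (j + 1) t
    simp only [Pi.zero_apply] at h1 h2
    linarith
  · intro i hi
    rw [Pi.add_apply, ev_supp (by rintro rfl; exact hi hx0)
      (fun a ha => by rintro rfl; exact hi (hy a (by omega))), al_ne (by rintro rfl; exact hi ht)]
    norm_num
  · intro r _ hr
    rw [map_add, fB_al]
    by_cases h1 : r = x0
    · subst h1
      rw [p.fB_x (by omega), if_neg (by omega)]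
      have := cc_nonneg M htx
      linarith
    by_cases h2 : ∃ i ≤ k, r = y i
    · obtain ⟨i, hi, rfl⟩ := h2
      have h3 := cc_nonneg M (hty i hi)
      rw [p.fB_y hi (by omega)]
      split_ifs with h4 h5
      · linarith
      · have : i = j := by omega
        subst this
        rw [cc_symm M t]
        linarith
      · linarith
    by_cases h3 : r = t
    · subst h3
      rw [cc_self]
      have h4 := fB_ev_le (M := M) (x0 := x0) (y := y) (n := j + 1) (t := r)
        (fun i hi => hty i (by omega)) (j := j) (by omega)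
      have h5 := cc_nonneg M (Ne.symm h1)
      nlinarith
    · exfalso
      apply hr
      push Not at h2
      rw [Pi.add_apply, ev_supp h1 (fun i hi => h2 i (by omega)), al_ne h3]
      norm_num

/-- type `B̃` -/
lemma btilde {L : Finset B} (hfin : FinS cs L) (hx0 : x0 ∈ L) (hy : ∀ i ≤ k, y i ∈ L) {t : B}
    (ht : t ∈ L) (htx : t ≠ x0) (hty : ∀ i ≤ k, t ≠ y i) {j : ℕ} (hj : j < k)
    (hc : 1 / 2 ≤ cc M (y j) t) : False := by
  have hs := sqrt2_sq
  have hs0 := sqrt2_pos
  have hpos : 0 ≤ ev x0 y (j + 1) + (Real.sqrt 2 / 2) • al t + (Real.sqrt 2 / 2) • al (y (j + 1)) :=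
    add_nonneg (add_nonneg (ev_nonneg _ _ _) (smul_nonneg (by positivity) (al_nonneg t)))
      (smul_nonneg (by positivity) (al_nonneg _))
  refine fin_vec hfin hpos ?_ ?_ ?_
  · intro h0
    have h1 := congrFun h0 t
    rw [Pi.add_apply, Pi.add_apply, Pi.smul_apply, Pi.smul_apply, al_self,
      al_ne (hty (j + 1) (by omega))] at h1
    have h2 := ev_nonneg x0 y (j + 1) t
    simp only [Pi.zero_apply, smul_eq_mul, mul_zero, mul_one] at h1 h2
    linarith
  · intro i hi
    rw [Pi.add_apply, Pi.add_apply, Pi.smul_apply, Pi.smul_apply,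
      ev_supp (by rintro rfl; exact hi hx0)
      (fun a ha => by rintro rfl; exact hi (hy a (by omega))), al_ne (by rintro rfl; exact hi ht),
      al_ne (by rintro rfl; exact hi (hy (j + 1) (by omega)))]
    simp
  · intro r _ hr
    rw [map_add, map_add, map_smul, map_smul, fB_al, fB_al, smul_eq_mul, smul_eq_mul]
    by_cases h1 : r = x0
    · subst h1
      rw [p.fB_x (by omega), if_neg (by omega), cc_symm M (y (j + 1)), p.cc_xy (by omega),
        if_neg (by omega)]
      have := mul_nonneg hs0.le (cc_nonneg M htx)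
      linarith
    by_cases h2 : ∃ i ≤ k, r = y i
    · obtain ⟨i, hi, rfl⟩ := h2
      have h3 := mul_nonneg hs0.le (cc_nonneg M (hty i hi))
      rw [p.fB_y hi (by omega), p.cc_yy (by omega) hi]
      by_cases h4 : j + 1 = i
      · rw [if_pos h4, if_pos h4]
        linarith
      rw [if_neg h4, if_neg h4]
      by_cases h5 : j + 1 = i + 1
      · have : i = j := by omega
        subst this
        rw [if_pos rfl, if_pos (Or.inl rfl), cc_symm M t]
        nlinarith
      rw [if_neg h5]
      split_ifs with h6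
      · linarith
      · linarith
    by_cases h3 : r = t
    · subst h3
      rw [cc_self]
      have h4 := fB_ev_le (M := M) (x0 := x0) (y := y) (n := j + 1) (t := r)
        (fun i hi => hty i (by omega)) (j := j) (by omega)
      have h5 := cc_nonneg M (Ne.symm h1)
      have h6 := mul_nonneg hs0.le (cc_nonneg M (Ne.symm (hty (j + 1) (by omega))))
      nlinarith
    · exfalso
      apply hr
      push Not at h2
      rw [Pi.add_apply, Pi.add_apply, Pi.smul_apply, Pi.smul_apply,
        ev_supp h1 (fun i hi => h2 i (by omega)), al_ne h3, al_ne (h2 (j + 1) (by omega))]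
      simp

/-- cycles -/
lemma cyc {L : Finset B} (hfin : FinS cs L) (hx0 : x0 ∈ L) (hy : ∀ i ≤ k, y i ∈ L) {t : B}
    (ht : t ∈ L) (htx : t ≠ x0) (hty : ∀ i ≤ k, t ≠ y i)
    (hc : 1 / 2 ≤ cc M (y k) t) (hc' : 1 / 2 ≤ cc M x0 t) : False := by
  have hs := sqrt2_sq
  have hs0 := sqrt2_pos
  have hs1 := sqrt2_gt
  have hs2 := sqrt2_lt
  have hpos : 0 ≤ ev x0 y (k + 1) + Real.sqrt 2 • al t + (Real.sqrt 2 - 1) • al x0 :=
    add_nonneg (add_nonneg (ev_nonneg _ _ _) (smul_nonneg hs0.le (al_nonneg t)))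
      (smul_nonneg (by linarith) (al_nonneg _))
  refine fin_vec hfin hpos ?_ ?_ ?_
  · intro h0
    have h1 := congrFun h0 t
    rw [Pi.add_apply, Pi.add_apply, Pi.smul_apply, Pi.smul_apply, al_self,
      al_ne htx] at h1
    have h2 := ev_nonneg x0 y (k + 1) t
    simp only [Pi.zero_apply, smul_eq_mul, mul_zero, mul_one] at h1 h2
    linarith
  · intro i hi
    rw [Pi.add_apply, Pi.add_apply, Pi.smul_apply, Pi.smul_apply,
      ev_supp (by rintro rfl; exact hi hx0)
      (fun a ha => by rintro rfl; exact hi (hy a (by omega))), al_ne (by rintro rfl; exact hi ht),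
      al_ne (by rintro rfl; exact hi hx0)]
    simp
  · intro r _ hr
    rw [map_add, map_add, map_smul, map_smul, fB_al, fB_al, smul_eq_mul, smul_eq_mul]
    by_cases h1 : r = x0
    · subst h1
      rw [p.fB_x (by omega), if_neg (by omega), cc_self, cc_symm M t]
      nlinarith
    by_cases h2 : ∃ i ≤ k, r = y i
    · obtain ⟨i, hi, rfl⟩ := h2
      have h3 := mul_nonneg hs0.le (cc_nonneg M (hty i hi))
      have h6 : 0 ≤ (Real.sqrt 2 - 1) * cc M x0 (y i) :=
        mul_nonneg (by linarith) (cc_nonneg M (p.x0_ne hi))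
      rw [p.fB_y hi (by omega)]
      by_cases h4 : k + 1 = i
      · omega
      rw [if_neg h4]
      by_cases h5 : k + 1 = i + 1
      · have : i = k := by omega
        subst this
        rw [if_pos rfl]
        rw [cc_symm M t] at *
        nlinarith
      rw [if_neg h5]
      linarith
    by_cases h3 : r = t
    · subst h3
      rw [cc_self]
      have h4 := fB_ev_le (M := M) (x0 := x0) (y := y) (n := k + 1) (t := r)
        (fun i hi => hty i (by omega)) (j := k) (by omega)
      nlinarith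
    · exfalso
      apply hr
      push Not at h2
      rw [Pi.add_apply, Pi.add_apply, Pi.smul_apply, Pi.smul_apply,
        ev_supp h1 (fun i hi => h2 i (by omega)), al_ne h3, al_ne h1]
      simp

lemma ext {L : Finset B} (hfin : FinS cs L) (hx0 : x0 ∈ L) (hy : ∀ i ≤ k, y i ∈ L) {t : B}
    (ht : t ∈ L) (htx : t ≠ x0) (hty : ∀ i ≤ k, t ≠ y i) {i : ℕ} (hi : i ≤ k)
    (hadj : M t (y i) ≠ 2) :
    M (y k) t = 3 ∧ (∀ j < k, M (y j) t = 2) ∧ M x0 t = 2 := by
  have hB : ∀ j < k, M (y j) t = 2 := by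
    intro j hj
    by_contra hcon
    exact p.btilde hfin hx0 hy ht htx hty hj (half_le_cc M (Ne.symm (hty j (by omega))) hcon)
  have hik : i = k := by
    by_contra hne
    exact hadj (by rw [M.symmetric]; exact hB i (by omega))
  subst hik
  have hne := Ne.symm (hty i hi)
  have h2 : M (y i) t ≠ 2 := by rw [M.symmetric]; exact hadj
  have h3 : M (y i) t = 3 := by
    by_contra hcon
    have h1 := M.off_diagonal (y i) t hne
    exact p.ctilde hfin hx0 hy ht htx hty hi (cc_ge_of_four hne (by omega))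
  refine ⟨h3, hB, ?_⟩
  by_contra hcon
  exact p.cyc hfin hx0 hy ht htx hty (half_le_cc M hne h2) (half_le_cc M (Ne.symm htx) hcon)

lemma card_le : k + 1 ≤ Fintype.card B := by
  have h1 : Function.Injective (fun i : Fin (k + 1) => y i) := by
    intro i j hij
    have := p.inj (i := i) (j := j) (by omega) (by omega) hij
    exact Fin.ext this
  have := Fintype.card_le_of_injective _ h1
  simpa using this

end BPath

lemma exists_path {L : Finset B} (hfin : FinS cs L) {x0 y0 : B} (hx0 : x0 ∈ L) (hy0 : y0 ∈ L)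
    (h4 : M x0 y0 = 4) : ∃ (k : ℕ) (y : ℕ → B), y 0 = y0 ∧ BPath M x0 y k ∧ (∀ i ≤ k, y i ∈ L) ∧
      ∀ t ∈ L, t ≠ x0 → (∀ i ≤ k, t ≠ y i) → ∀ i ≤ k, M t (y i) = 2 := by
  by_contra hcon
  push Not at hcon
  have key : ∀ k : ℕ, ∃ y : ℕ → B, y 0 = y0 ∧ BPath M x0 y k ∧ ∀ i ≤ k, y i ∈ L := by
    intro k
    induction k with
    | zero =>
      refine ⟨fun _ => y0, rfl, ⟨h4, fun i _ _ => by omega, fun i hi => by omega,
        fun i j _ _ => by omega⟩, fun _ _ => hy0⟩
    | succ k ih =>
      obtain ⟨y, h0, p, hy⟩ := ih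
      obtain ⟨t, ht, htx, hty, i, hi, hadj⟩ := hcon k y h0 p hy
      obtain ⟨e1, e2, e3⟩ := p.ext hfin hx0 hy ht htx hty hi hadj
      refine ⟨fun i => if i ≤ k then y i else t, ?_, ⟨?_, ?_, ?_, ?_⟩, ?_⟩
      · simpa using h0
      · simpa using p.h4
      · intro j h1 h2
        by_cases h3 : j ≤ k
        · simp only [h3, if_true]; exact p.h2 j h1 h3
        · simp only [h3, if_false]; exact e3
      · intro j h1
        by_cases h3 : j + 1 ≤ k
        · simp only [h3, show j ≤ k by omega, if_true]; exact p.h3 j (by omega)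
        · have : j = k := by omega
          subst this
          simp only [le_refl, h3, if_true, if_false]; exact e1
      · intro a b h1 h2
        by_cases h3 : b ≤ k
        · simp only [h3, show a ≤ k by omega, if_true]; exact p.h22 a b h1 h3
        · simp only [h3, show a ≤ k by omega, if_true, if_false]; exact e2 a (by omega)
      · intro j h1
        by_cases h3 : j ≤ k
        · simp only [h3, if_true]; exact hy j h3
        · simp only [h3, if_false]; exact ht
  obtain ⟨y, _, p, _⟩ := key (Fintype.card B)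
  have := p.card_le
  omega

/-! ### the classification -/

lemma BPath.pos_all {ψ : W → ℝ} (hψ : IsWeight cs ψ) {x0 : B} {y : ℕ → B} {k : ℕ}
    (p : BPath M x0 y k) : ∀ i ≤ k, ψ (cs.simple (y i)) = ψ (cs.simple (y 0)) := by
  intro i
  induction i with
  | zero => intro _; rfl
  | succ i ih =>
    intro hi
    rw [← ih (by omega)]
    exact (hψ.odd cs (by rw [p.h3 i (by omega)]; decide)).symm

lemma sqrt2_half_cc {s t : B} (h : M s t = 4) : Real.sqrt 2 * cc M s t = 1 := by
  rw [cc_four h]
  have := sqrt2_sq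
  linarith

/-- type `F̃₄` -/
lemma ftilde {L : Finset B} (hfin : FinS cs L) {a2 a1 a0 b0 b1 : B} (h2 : a2 ∈ L) (h1 : a1 ∈ L)
    (h0 : a0 ∈ L) (hb0 : b0 ∈ L) (hb1 : b1 ∈ L) (d1 : a2 ≠ a1) (d2 : a2 ≠ a0) (d3 : a2 ≠ b0)
    (d4 : a2 ≠ b1) (d5 : a1 ≠ a0) (d6 : a1 ≠ b0) (d7 : a1 ≠ b1) (d8 : a0 ≠ b0) (d9 : a0 ≠ b1)
    (d10 : b0 ≠ b1) (m1 : M a2 a1 = 3) (m2 : M a1 a0 = 3) (m3 : M a0 b0 = 4) (m4 : M b0 b1 = 3) :
    False := by
  have hs := sqrt2_sq
  have hs0 := sqrt2_pos
  have c1 := cc_of_eq_three M m1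
  have c2 := cc_of_eq_three M m2
  have c3 := cc_four m3
  have c4 := cc_of_eq_three M m4
  have n1 := cc_nonneg M d2
  have n2 := cc_nonneg M d3
  have n3 := cc_nonneg M d4
  have n4 := cc_nonneg M d6
  have n5 := cc_nonneg M d7
  have n6 := cc_nonneg M d9
  have m1' := mul_nonneg hs0.le n1
  have m2' := mul_nonneg hs0.le n2
  have m3' := mul_nonneg hs0.le n3
  have m4' := mul_nonneg hs0.le n4
  have m5' := mul_nonneg hs0.le n5
  have m6' := mul_nonneg hs0.le n6
  refine fin_arr hfin (n := 5) ![a2, a1, a0, b0, b1] ?_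
    ![1, 2, 3, 2 * Real.sqrt 2, Real.sqrt 2] ?_ 0 (by simp) ?_
  · intro i; fin_cases i <;> simp <;> assumption
  · intro i
    fin_cases i <;> simp
  · intro j
    fin_cases j <;> simp only [Fin.sum_univ_succ, Fin.sum_univ_zero, Matrix.cons_val_zero,
      Matrix.cons_val_succ, Fin.mk_zero, Fin.mk_one, Fin.reduceFinMk, Matrix.cons_val,
      Fin.succ_zero_eq_one, Fin.succ_one_eq_two, cc_self, cc_symm M a1 a2, cc_symm M a0 a2,
      cc_symm M a0 a1, cc_symm M b0 a2, cc_symm M b0 a1, cc_symm M b0 a0, cc_symm M b1 a2,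
      cc_symm M b1 a1, cc_symm M b1 a0, cc_symm M b1 b0, c1, c2, c3, c4] <;> nlinarith

/-- types of mixed diagrams -/
inductive Typ (M : CoxeterMatrix B) (P : B → Prop) (L : Finset B) : Prop
  | two (p q : B) (hL : L = {p, q}) (hpq : p ≠ q) (pp : P p) (nq : ¬ P q)
      (hM : M p q = 4 ∨ M p q = 0 ∨ 6 ≤ M p q)
  | gam (q : B) (a : ℕ → B) (k : ℕ) (hk : 1 ≤ k) (p : BPath M q a k)
      (hL : L = vset q a (k + 1)) (nq : ¬ P q) (pa : ∀ i ≤ k, P (a i))
  | del (q : B) (a : ℕ → B) (k : ℕ) (hk : 1 ≤ k) (p : BPath M q a k)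
      (hL : L = vset q a (k + 1)) (pq : P q) (na : ∀ i ≤ k, ¬ P (a i))
  | eps (a1 a0 b0 b1 : B) (hL : L = {a1, a0, b0, b1}) (m1 : M a1 a0 = 3) (m2 : M a0 b0 = 4)
      (m3 : M b0 b1 = 3) (m4 : M a1 b0 = 2) (m5 : M a1 b1 = 2) (m6 : M a0 b1 = 2)
      (p1 : P a1) (p0 : P a0) (n0 : ¬ P b0) (n1 : ¬ P b1)

theorem classify {ψ : W → ℝ} (hψ : IsWeight cs ψ) {L : Finset B} (hfin : FinS cs L)
    (conn : ∀ {A C : Finset B}, A ∪ C = L → A.Nonempty → C.Nonempty →
      ¬ ∀ a ∈ A, ∀ c ∈ C, M a c = 2) {p0 q0 : B} (hp0 : p0 ∈ L) (pp0 : 0 < ψ (cs.simple p0))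
    (hq0 : q0 ∈ L) (nq0 : ¬ 0 < ψ (cs.simple q0)) : Typ M (fun r => 0 < ψ (cs.simple r)) L := by
  classical
  -- connected components
  have conn' : ∀ A : Finset B, A ⊆ L → A.Nonempty → (∀ t ∈ L, t ∉ A → ∀ a ∈ A, M t a = 2) →
      L = A := by
    intro A hA hne hAt
    by_contra hcon
    have h1 : (L \ A).Nonempty := by
      rw [Finset.sdiff_nonempty]
      intro h2
      exact hcon (Finset.Subset.antisymm h2 hA)
    refine conn (A := A) (C := L \ A) (by rw [Finset.union_sdiff_of_subset hA]) hne h1 ?_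
    intro a ha c hc
    rw [Finset.mem_sdiff] at hc
    rw [M.symmetric]
    exact hAt c hc.1 hc.2 a ha
  -- a mixed edge
  obtain ⟨p, hp, pp, q, hq, nq, hM2⟩ : ∃ p ∈ L, 0 < ψ (cs.simple p) ∧ ∃ q ∈ L,
      ¬ 0 < ψ (cs.simple q) ∧ M p q ≠ 2 := by
    by_contra hcon
    push Not at hcon
    refine conn (A := L.filter fun r => 0 < ψ (cs.simple r))
      (C := L.filter fun r => ¬ 0 < ψ (cs.simple r)) (Finset.filter_union_filter_not_eq _ _)
      ⟨p0, Finset.mem_filter.2 ⟨hp0, pp0⟩⟩ ⟨q0, Finset.mem_filter.2 ⟨hq0, nq0⟩⟩ ?_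
    intro a ha c hc
    rw [Finset.mem_filter] at ha hc
    exact hcon a ha.1 ha.2 c hc.1 (not_lt.1 hc.2)
  obtain ⟨hpq, hM⟩ := hψ.mixed cs pp nq
  have hM' := hM.resolve_left hM2
  by_cases h4 : M p q = 4
  swap
  · -- large label
    have h6 : M p q = 0 ∨ 6 ≤ M p q := by tauto
    refine Typ.two p q ?_ hpq pp nq hM'
    apply conn' {p, q}
    · intro t ht
      rw [Finset.mem_insert, Finset.mem_singleton] at ht
      rcases ht with rfl | rfl <;> assumption
    · exact ⟨p, by simp⟩
    · intro t ht htpq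
      rw [Finset.mem_insert, Finset.mem_singleton, not_or] at htpq
      have hc := threequarters_le_cc_sq M h6
      have hc0 := cc_nonneg M hpq
      have hc1 := cc_le_one M p q
      have key : ∀ {a b : B}, a ∈ L → b ∈ L → a ≠ b → t ≠ a → t ≠ b → 3 / 4 ≤ cc M a b ^ 2 →
          0 ≤ cc M a b → cc M a b ≤ 1 → M t a = 2 := by
        intro a b ha hb hab hta htb e1 e2 e3
        by_contra hta2
        have e4 : 1 / 2 ≤ cc M t a := half_le_cc M hta hta2
        have e5 : 0 ≤ cc M t b := cc_nonneg M htb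
        refine fin_three hfin ha hb ht hab (Ne.symm hta) (Ne.symm htb) (x := 1) (y := cc M a b)
          (z := cc M a t) (by norm_num) e2 (by rw [cc_symm]; linarith) ?_ ?_ ?_
        · rw [cc_symm M a t]; nlinarith
        · rw [cc_symm M a t, cc_symm M b t]; nlinarith [mul_nonneg (by linarith : 0 ≤ cc M t a) e5]
        · rw [cc_symm M a t, cc_symm M b t]; nlinarith [mul_nonneg e2 e5]
      intro a ha
      rw [Finset.mem_insert, Finset.mem_singleton] at ha
      rcases ha with rfl | rfl
      · exact key hp hq hpq htpq.1 htpq.2 hc hc0 hc1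
      · exact key hq hp (Ne.symm hpq) htpq.2 htpq.1 (by rw [cc_symm]; exact hc)
          (by rw [cc_symm]; exact hc0) (by rw [cc_symm]; exact hc1)
  -- label 4
  obtain ⟨k, a, ha0, pa, haL, hat⟩ := exists_path hfin hq hp (by rw [M.symmetric]; exact h4)
  obtain ⟨l, b, hb0, pb, hbL, hbt⟩ := exists_path hfin hp hq h4
  have posa : ∀ i ≤ k, 0 < ψ (cs.simple (a i)) := by
    intro i hi
    rw [pa.pos_all hψ i hi, ha0]; exact pp
  have negb : ∀ i ≤ l, ¬ 0 < ψ (cs.simple (b i)) := by
    intro i hi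
    rw [pb.pos_all hψ i hi, hb0]; exact nq
  have hab : ∀ i ≤ k, ∀ j ≤ l, a i ≠ b j := by
    intro i hi j hj he
    exact negb j hj (by rw [← he]; exact posa i hi)
  have hL : L = tset a (k + 1) ∪ tset b (l + 1) := by
    apply conn'
    · intro t ht
      rw [Finset.mem_union, mem_tset, mem_tset] at ht
      rcases ht with ⟨i, hi, rfl⟩ | ⟨i, hi, rfl⟩
      · exact haL i (by omega)
      · exact hbL i (by omega)
    · exact ⟨a 0, by rw [Finset.mem_union, mem_tset]; exact Or.inl ⟨0, by omega, rfl⟩⟩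
    · intro t ht hn x hx
      rw [Finset.mem_union, mem_tset, mem_tset, not_or] at hn
      push Not at hn
      have h1 : ∀ i ≤ k, t ≠ a i := fun i hi h => hn.1 i (by omega) h.symm
      have h2 : ∀ i ≤ l, t ≠ b i := fun i hi h => hn.2 i (by omega) h.symm
      rw [Finset.mem_union, mem_tset, mem_tset] at hx
      rcases hx with ⟨i, hi, rfl⟩ | ⟨i, hi, rfl⟩
      · exact hat t ht (by rw [← hb0]; exact h2 0 (by omega)) h1 i (by omega)
      · exact hbt t ht (by rw [← ha0]; exact h1 0 (by omega)) h2 i (by omega)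
  rcases Nat.eq_zero_or_pos k with rfl | hk
  · rcases Nat.eq_zero_or_pos l with rfl | hl
    · refine Typ.two p q ?_ hpq pp nq hM'
      rw [hL]
      ext t
      simp only [Finset.mem_union, mem_tset, Finset.mem_insert, Finset.mem_singleton]
      constructor
      · rintro (⟨i, hi, rfl⟩ | ⟨i, hi, rfl⟩)
        · left; rw [show i = 0 by omega]; exact ha0
        · right; rw [show i = 0 by omega]; exact hb0
      · rintro (rfl | rfl)
        · exact Or.inl ⟨0, by omega, ha0⟩
        · exact Or.inr ⟨0, by omega, hb0⟩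
    · refine Typ.del p b l hl pb ?_ pp negb
      rw [hL]
      ext t
      simp only [Finset.mem_union, mem_tset, mem_vset]
      constructor
      · rintro (⟨i, hi, rfl⟩ | h1)
        · left; rw [show i = 0 by omega]; exact ha0
        · right; exact h1
      · rintro (rfl | h1)
        · exact Or.inl ⟨0, by omega, ha0⟩
        · exact Or.inr h1
  · rcases Nat.eq_zero_or_pos l with rfl | hl
    · refine Typ.gam q a k hk pa ?_ nq posa
      rw [hL]
      ext t
      simp only [Finset.mem_union, mem_tset, mem_vset]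
      constructor
      · rintro (h1 | ⟨i, hi, rfl⟩)
        · right; exact h1
        · left; rw [show i = 0 by omega]; exact hb0
      · rintro (rfl | h1)
        · exact Or.inr ⟨0, by omega, hb0⟩
        · exact Or.inl h1
    · have hb1p : b 1 ≠ p := by
        have := pb.x0_ne (i := 1) hl
        exact Ne.symm this
      have ha1q : a 1 ≠ q := by
        have := pa.x0_ne (i := 1) hk
        exact Ne.symm this
      have e1 : M p (b 1) = 2 := pb.h2 1 le_rfl hl
      have e2 : M q (a 1) = 2 := pa.h2 1 le_rfl hk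
      have e3 : M (a 1) (b 1) = 2 := by
        rw [M.symmetric]
        apply hat (b 1) (hbL 1 hl) _ _ 1 hk
        · rw [← hb0]; intro h1; have := pb.inj hl (Nat.zero_le l) h1; omega
        · intro i hi h1; exact hab i hi 1 hl h1.symm
      have e4 : M (a 1) p = 3 := by
        rw [M.symmetric, ← ha0]; exact pa.h3 0 (by omega)
      have e5 : M q (b 1) = 3 := by rw [← hb0]; exact pb.h3 0 (by omega)
      have hab' : ∀ i j, i ≤ k → j ≤ l → a i ≠ b j := fun i j hi hj => hab i hi j hj
      have hk1 : k = 1 := by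
        by_contra hne
        have hk2 : 2 ≤ k := by omega
        refine ftilde hfin (haL 2 hk2) (haL 1 hk) (haL 0 (by omega)) (hbL 0 (by omega))
          (hbL 1 hl) ?_ ?_ (hab' 2 0 hk2 (by omega)) (hab' 2 1 hk2 hl) ?_ (hab' 1 0 hk (by omega))
          (hab' 1 1 hk hl) (hab' 0 0 (by omega) (by omega)) (hab' 0 1 (by omega) hl) ?_ ?_ ?_ ?_ ?_
        · intro h1; have := pa.inj hk2 hk h1; omega
        · intro h1; have := pa.inj hk2 (Nat.zero_le k) h1; omega
        · intro h1; have := pa.inj hk (Nat.zero_le k) h1; omega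
        · intro h1; have := pb.inj (Nat.zero_le l) hl h1; omega
        · rw [M.symmetric]; exact pa.h3 1 (by omega)
        · rw [M.symmetric]; exact pa.h3 0 (by omega)
        · rw [ha0, hb0]; exact h4
        · exact pb.h3 0 (by omega)
      have hl1 : l = 1 := by
        by_contra hne
        have hl2 : 2 ≤ l := by omega
        refine ftilde hfin (hbL 2 hl2) (hbL 1 hl) (hbL 0 (by omega)) (haL 0 (by omega))
          (haL 1 hk) ?_ ?_ (hab' 0 2 (by omega) hl2).symm (hab' 1 2 hk hl2).symm ?_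
          (hab' 0 1 (by omega) hl).symm (hab' 1 1 hk hl).symm
          (hab' 0 0 (by omega) (by omega)).symm (hab' 1 0 hk (by omega)).symm ?_ ?_ ?_ ?_ ?_
        · intro h1; have := pb.inj hl2 hl h1; omega
        · intro h1; have := pb.inj hl2 (Nat.zero_le l) h1; omega
        · intro h1; have := pb.inj hl (Nat.zero_le l) h1; omega
        · intro h1; have := pa.inj (Nat.zero_le k) hk h1; omega
        · rw [M.symmetric]; exact pb.h3 1 (by omega)
        · rw [M.symmetric]; exact pb.h3 0 (by omega)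
        · rw [ha0, hb0, M.symmetric]; exact h4
        · exact pa.h3 0 (by omega)
      subst hk1
      subst hl1
      refine Typ.eps (a 1) p q (b 1) ?_ e4 h4 e5 (by rw [M.symmetric]; exact e2) e3 e1
        (posa 1 le_rfl) pp nq (negb 1 le_rfl)
      rw [hL]
      ext t
      simp only [Finset.mem_union, mem_tset, Finset.mem_insert, Finset.mem_singleton]
      constructor
      · rintro (⟨i, hi, rfl⟩ | ⟨i, hi, rfl⟩)
        · have : i = 0 ∨ i = 1 := by omega
          rcases this with rfl | rfl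
          · right; left; exact ha0
          · left; rfl
        · have : i = 0 ∨ i = 1 := by omega
          rcases this with rfl | rfl
          · right; right; left; exact hb0
          · right; right; right; rfl
      · rintro (rfl | rfl | rfl | rfl)
        · exact Or.inl ⟨1, by omega, rfl⟩
        · exact Or.inl ⟨0, by omega, ha0⟩
        · exact Or.inr ⟨0, by omega, hb0⟩
        · exact Or.inr ⟨1, by omega, rfl⟩

end Pool.Agent.H44.Cox
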