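import Mathlib
import Pool.Agent.H44.Cox.Paths

set_option autoImplicit false
set_option linter.unusedSectionVars false
set_option linter.unusedSimpArgs false
set_option linter.unusedVariables false

/-! # Elements of type `B` groups extremal on the simply laced part -/

namespace Pool.Agent.H44.Cox

open CoxeterSystem Pool.Agent.H80.Cox

variable {B : Type*} [Fintype B] [DecidableEq B] {W : Type*} [Group W]
variable {M : CoxeterMatrix B} {cs : CoxeterSystem M W}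

namespace BPath

variable {x0 : B} {y : ℕ → B} {k : ℕ} (p : BPath M x0 y k)
include p

lemma pm {w : W} (hw : w ∈ WP cs (vset x0 y (k + 1))) {i : ℕ} (hi : i ≤ k + 1) :
    ∃ j ≤ k + 1, rho cs w (ev x0 y i) = ev x0 y j ∨ rho cs w (ev x0 y i) = - ev x0 y j :=
  (p.perm_v le_rfl w hw i hi).1 hi

lemma pm_nonneg {w : W} (hw : w ∈ WP cs (vset x0 y (k + 1))) {i : ℕ} (hi : i ≤ k + 1)
    (h : 0 ≤ rho cs w (ev x0 y i)) : ∃ j ≤ k + 1, rho cs w (ev x0 y i) = ev x0 y j := by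
  obtain ⟨j, hj, h1⟩ := p.pm hw hi
  refine ⟨j, hj, ?_⟩
  rcases h1 with h1 | h1
  · exact h1
  · exfalso
    rw [h1] at h
    exact (p.ev_isRt (cs := cs) hj).false (ev_nonneg _ _ _) (neg_nonneg.1 h)

lemma pm_nonpos {w : W} (hw : w ∈ WP cs (vset x0 y (k + 1))) {i : ℕ} (hi : i ≤ k + 1)
    (h : rho cs w (ev x0 y i) ≤ 0) : ∃ j ≤ k + 1, rho cs w (ev x0 y i) = - ev x0 y j := by
  obtain ⟨j, hj, h1⟩ := p.pm hw hi
  refine ⟨j, hj, ?_⟩
  rcases h1 with h1 | h1
  · exfalso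
    rw [h1] at h
    exact (p.ev_isRt (cs := cs) hj).false (ev_nonneg _ _ _) h
  · exact h1

omit p in
lemma anti {w : W} (h : ∀ i ≤ k, rho cs w (al (y i)) ≤ 0) {i j : ℕ} (hij : i ≤ j) (hj : j ≤ k + 1) :
    rho cs w (ev x0 y j) ≤ rho cs w (ev x0 y i) := by
  induction j, hij using Nat.le_induction with
  | base => exact le_rfl
  | succ j hij ih =>
    refine le_trans ?_ (ih (by omega))
    rw [ev_succ, map_add, map_smul]
    exact add_le_of_nonpos_right (smul_nonpos_of_nonneg_of_nonpos sqrt2_pos.le (h j (by omega)))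

omit p in
lemma incr {w : W} (h : ∀ i ≤ k, 0 ≤ rho cs w (al (y i))) {i j : ℕ} (hij : i ≤ j) (hj : j ≤ k + 1) :
    rho cs w (ev x0 y i) ≤ rho cs w (ev x0 y j) := by
  induction j, hij using Nat.le_induction with
  | base => exact le_rfl
  | succ j hij ih =>
    refine le_trans (ih (by omega)) ?_
    rw [ev_succ, map_add, map_smul]
    exact le_add_of_nonneg_right (smul_nonneg sqrt2_pos.le (h j (by omega)))

/-- Lemma G. -/
theorem lemG {w : W} (hw : w ∈ WP cs (vset x0 y (k + 1)))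
    (h1 : ∀ i ≤ k, rho cs w (al (y i)) ≤ 0) (h2 : ∀ i ≤ k, rho cs w⁻¹ (al (y i)) ≤ 0) {i : ℕ}
    (hi : i ≤ k + 1) (h3 : rho cs w (ev x0 y i) ≤ 0) :
    rho cs w (ev x0 y (k + 1)) = - ev x0 y (k + 1) := by
  obtain ⟨j, hj, h4⟩ := p.pm_nonpos hw le_rfl ((anti h1 hi le_rfl).trans h3)
  have h5 : rho cs w⁻¹ (ev x0 y j) = - ev x0 y (k + 1) := by
    rw [← neg_inj, ← map_neg, ← h4, rho_inv_cancel, neg_neg]
  have h6 : rho cs w⁻¹ (ev x0 y (k + 1)) ≤ - ev x0 y (k + 1) := by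
    rw [← h5]; exact anti h2 hj le_rfl
  obtain ⟨l, hl, h7⟩ := p.pm_nonpos (inv_mem hw) le_rfl
    (h6.trans (neg_nonpos.2 (ev_nonneg _ _ _)))
  rw [h7] at h6
  have h8 := p.ev_le le_rfl hl (neg_le_neg_iff.1 h6)
  have h9 : l = k + 1 := by omega
  subst h9
  have h10 := rho_cancel_inv cs w (ev x0 y (k + 1))
  rw [h7, map_neg] at h10
  rw [← h10, neg_neg, h10]

/-- consequence of Lemma G -/
lemma top_neg {w : W} (hw : w ∈ WP cs (vset x0 y (k + 1)))
    (h : rho cs w (ev x0 y (k + 1)) = - ev x0 y (k + 1)) {i : ℕ} (hi : i ≤ k + 1) :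
    rho cs w (ev x0 y (k + 1) + ev x0 y i) ≤ 0 ∧ rho cs w (ev x0 y (k + 1) - ev x0 y i) ≤ 0 := by
  obtain ⟨j, hj, h1⟩ := p.pm hw hi
  have h2 : ev x0 y j ≤ ev x0 y (k + 1) := ev_mono x0 y hj
  have h3 : 0 ≤ ev x0 y j := ev_nonneg _ _ _
  have h4 : 0 ≤ ev x0 y (k + 1) := ev_nonneg _ _ _
  rw [map_add, map_sub, h]
  rcases h1 with h1 | h1
  · rw [h1]
    constructor
    · rw [neg_add_eq_sub]; exact sub_nonpos.2 h2
    · rw [sub_eq_add_neg, ← neg_add]; exact neg_nonpos.2 (add_nonneg h4 h3)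
  · rw [h1]
    constructor
    · rw [← neg_add]; exact neg_nonpos.2 (add_nonneg h4 h3)
    · rw [sub_neg_eq_add, neg_add_eq_sub]; exact sub_nonpos.2 h2

omit p in
/-- elements keeping all the `e_i` positive -/
theorem mem_tset_of_pos (p : BPath M x0 y k) : ∀ w ∈ WP cs (vset x0 y (k + 1)),
    (∀ i ≤ k + 1, 0 ≤ rho cs w (ev x0 y i)) → w ∈ WP cs (tset y (k + 1)) := by
  apply WP_induction
  · intro _; exact one_mem _
  · intro w hw s hs hl ih h
    rw [mem_vset] at hs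
    rcases hs with rfl | ⟨a, ha, rfl⟩
    · exfalso
      have h1 := h 0 (by omega)
      have h2 := tits_pos cs w s hl
      rw [ev_zero, rho_mul_simple_al] at h1
      exact not_pos_and_neg cs h2 (neg_nonneg.1 h1)
    · refine simple_mul_mem cs (ih ?_) (mem_tset.2 ⟨a, ha, rfl⟩)
      intro i hi
      have h1 : ∃ j ≤ k + 1, sig M (y a) (ev x0 y j) = ev x0 y i := by
        by_cases e1 : i = a
        · refine ⟨a + 1, by omega, ?_⟩
          rw [p.sig_y (by omega) (by omega), if_neg (by omega), if_pos rfl, e1]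
        by_cases e2 : i = a + 1
        · refine ⟨a, by omega, ?_⟩
          rw [p.sig_y (by omega) (by omega), if_pos rfl, e2]
        · refine ⟨i, hi, ?_⟩
          rw [p.sig_y (by omega) hi, if_neg e1, if_neg e2]
      obtain ⟨j, hj, h2⟩ := h1
      have h3 := h j hj
      rw [rho_mul, rho_simple, h2] at h3
      exact h3

/-- Lemma G⁺. -/
theorem lemGp {w : W} (hw : w ∈ WP cs (vset x0 y (k + 1)))
    (h1 : ∀ i ≤ k, 0 ≤ rho cs w (al (y i))) (h2 : ∀ i ≤ k, 0 ≤ rho cs w⁻¹ (al (y i)))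
    (hfull : w ∉ WP cs ((vset x0 y (k + 1)).erase (y k))) {i : ℕ} (hi : i ≤ k + 1) :
    rho cs w (ev x0 y i) ≤ 0 := by
  apply ((p.ev_isRt (cs := cs) hi).rho w).pos_or_neg.resolve_left
  intro h3
  apply hfull
  obtain ⟨j, hj, h4⟩ := p.pm_nonneg hw le_rfl (h3.trans (incr h1 hi le_rfl))
  have h5 : rho cs w⁻¹ (ev x0 y j) = ev x0 y (k + 1) := by
    rw [← h4, rho_inv_cancel]
  have h6 : ev x0 y (k + 1) ≤ rho cs w⁻¹ (ev x0 y (k + 1)) := by
    conv_lhs => rw [← h5]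
    exact incr h2 hj le_rfl
  obtain ⟨l, hl, h7⟩ := p.pm_nonneg (inv_mem hw) le_rfl ((ev_nonneg _ _ _).trans h6)
  rw [h7] at h6
  have h8 := p.ev_le le_rfl hl h6
  have h9 : l = k + 1 := by omega
  subst h9
  have h10 := rho_cancel_inv cs w (ev x0 y (k + 1))
  rw [h7] at h10
  have h11 := (dom_le (cs := cs) (K := vset x0 y (k + 1)) (z := ev x0 y (k + 1)) ?_ w hw).2 h10
  · apply WP_mono cs _ h11
    intro t ht
    rw [Finset.mem_filter] at ht
    rw [Finset.mem_erase]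
    refine ⟨?_, ht.1⟩
    rintro rfl
    have h12 := ht.2
    rw [p.fB_y le_rfl le_rfl, if_neg (by omega), if_pos rfl] at h12
    have := sqrt2_pos
    linarith
  · intro t ht
    rw [mem_vset] at ht
    rcases ht with rfl | ⟨a, ha, rfl⟩
    · rw [p.fB_x le_rfl, if_neg (by omega)]
    · rw [p.fB_y (by omega) le_rfl, if_neg (by omega)]
      have := sqrt2_pos
      split_ifs <;> linarith

end BPath

end Pool.Agent.H44.Cox
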