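import Mathlib
import Pool.Agent.H44.Cox.Classify
import Pool.Agent.H44.Cox.LemG

set_option autoImplicit false
set_option linter.unusedSectionVars false
set_option linter.unusedSimpArgs false
set_option linter.unusedVariables false

/-! # Case I: a generator of positive weight is attached to `s` -/

namespace Pool.Agent.H44.Cox

open CoxeterSystem Pool.Agent.H80.Cox

variable {B : Type*} [Fintype B] [DecidableEq B] {W : Type*} [Group W]
variable {M : CoxeterMatrix B} {cs : CoxeterSystem M W}
variable {ψ : W → ℝ} {L : Finset B} {s : B} {y g m u c : W}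

lemma IsPR.good (hψ : IsWeight cs ψ) {β : B → ℝ} (hβ : IsPR cs ψ β) (hβ0 : 0 ≤ β) (i : B) :
    Good (β i) ∧ (¬ 0 < ψ (cs.simple i) → Good2 (β i)) := by
  obtain ⟨w, t, ht, rfl⟩ := hβ
  obtain ⟨h1, h2⟩ := coef hψ w t hβ0 i
  refine ⟨h1, fun hi => h2 ?_⟩
  unfold Opp
  tauto

lemma IsPR.one_le (hψ : IsWeight cs ψ) {β : B → ℝ} (hβ : IsPR cs ψ β) (hβ0 : 0 ≤ β) {i : B}
    (hi : 0 < β i) : 1 ≤ β i := by
  rcases (hβ.good hψ hβ0 i).1 with h1 | h1
  · linarith
  · exact h1

lemma IsPR.sqrt_le (hψ : IsWeight cs ψ) {β : B → ℝ} (hβ : IsPR cs ψ β) (hβ0 : 0 ≤ β) {i : B}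
    (hi : 0 < β i) (hn : ¬ 0 < ψ (cs.simple i)) : Real.sqrt 2 ≤ β i := by
  rcases (hβ.good hψ hβ0 i).2 hn with h1 | h1
  · linarith
  · exact h1

lemma fB_le_three {y : B → ℝ} (hy : 0 ≤ y) {r q q' q'' : B} (hqr : q ≠ r) (hq'r : q' ≠ r)
    (hq''r : q'' ≠ r) (hqq' : q' ≠ q) (hqq'' : q'' ≠ q) (hq'q'' : q'' ≠ q') :
    fB M r y ≤ y r - cc M q r * y q - cc M q' r * y q' - cc M q'' r * y q'' := by
  rw [fB_apply, ← Finset.add_sum_erase _ _ (Finset.mem_univ r)]
  have h1 : q ∈ Finset.univ.erase r := by simp [hqr]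
  rw [← Finset.add_sum_erase _ _ h1, cc_self]
  have h1' : q' ∈ (Finset.univ.erase r).erase q := by simp [hq'r, hqq']
  rw [← Finset.add_sum_erase _ _ h1']
  have h1'' : q'' ∈ ((Finset.univ.erase r).erase q).erase q' := by simp [hq''r, hqq'', hq'q'']
  rw [← Finset.add_sum_erase _ _ h1'']
  have h2 : ∑ i ∈ (((Finset.univ.erase r).erase q).erase q').erase q'', -(cc M i r) * y i ≤ 0 := by
    apply Finset.sum_nonpos
    intro i hi
    rw [Finset.mem_erase, Finset.mem_erase, Finset.mem_erase, Finset.mem_erase] at hi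
    have h1 := cc_nonneg M hi.2.2.2.1
    have h2 : 0 ≤ y i := hy i
    nlinarith [mul_nonneg h1 h2]
  linarith

lemma cc_half {s t : B} (hst : s ≠ t) (h2 : M s t ≠ 2) (h : cc M s t ≤ 1 / 2) : M s t = 3 := by
  by_contra h3
  have h1 := M.off_diagonal s t hst
  have h4 := half_le_cc_sq M (s := s) (t := t) (by omega)
  have h5 := cc_nonneg M hst
  nlinarith

/-- chains of reduced products -/
lemma chain_le {K : Finset B} {w : W} (hw : w ∈ WP cs K) {r : B} (hr : r ∉ K) :
    ∀ v ∈ WP cs K, cs.length (v * w) = cs.length v + cs.length w →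
      rho cs w (al r) ≤ rho cs (v * w) (al r) := by
  apply WP_induction_left
  · intro _; rw [one_mul]
  · intro v hv l hl hlen ih h
    rw [mul_assoc] at h
    have h1 := cs.length_mul_le (cs.simple l) (v * w)
    rw [length_simple] at h1
    have h2 := cs.length_mul_le v w
    have h3 : cs.length (v * w) = cs.length v + cs.length w := by omega
    rw [mul_assoc]
    exact (ih h3).trans (chain_step (mul_mem hv hw) hl hr (by omega))

/-- a letter adjacent to the support shows up -/
lemma letter_coord' {K : Finset B} {w : W} (hw : w ∈ WP cs K) {r q t : B} (hr : r ∉ K)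
    (hqr : q ≠ r) (hqt : q ≠ t) (hM : M q t ≠ 2) (ht : 0 < rho cs w (al r) t) :
    ∀ v ∈ WP cs K, cs.length (v * w) = cs.length v + cs.length w →
      rho cs (v * w) (al r) q = 0 → v ∈ WP cs (K.erase q) := by
  apply WP_induction_left
  · intro _ _; exact one_mem _
  · intro v hv l hl hlen ih h h0
    rw [mul_assoc] at h h0
    have h1 := cs.length_mul_le (cs.simple l) (v * w)
    rw [length_simple] at h1
    have h2 := cs.length_mul_le v w
    have h3 : cs.length (v * w) = cs.length v + cs.length w := by omega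
    have hle := chain_step (mul_mem hv hw) hl hr (by omega)
    have hle' := chain_le hw hr v hv h3
    have hpos : 0 ≤ rho cs (v * w) (al r) :=
      ((al_nonneg r).trans (al_le_chain hr w hw)).trans hle'
    have h4 : rho cs (v * w) (al r) q = 0 := le_antisymm ((hle q).trans h0.le) (hpos q)
    have h5 := ih h3 h4
    by_cases hlq : l = q
    · exfalso
      subst hlq
      rw [rho_mul, rho_simple, sig_coord_self, h4] at h0
      have h6 := fB_le_term (M := M) hpos (r := l) (q := t) (Ne.symm hqt)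
      rw [h4] at h6
      have h7 := half_le_cc M hqt hM
      rw [cc_symm M] at h7
      have h8 := hle' t
      nlinarith
    · exact mul_mem (simple_mem cs (by rw [Finset.mem_erase]; exact ⟨hlq, hl⟩)) h5

/-- maximal elements and the functionals `fB` -/
lemma max_fB {K : Finset B} {w : W} (hψ : IsWeight cs ψ) (hw : IsMax cs ψ K w) {r t : B}
    (hr : r ∉ K) (ht : t ∈ K) (pt : 0 < ψ (cs.simple t)) : 0 ≤ fB M t (rho cs w (al r)) := by
  rw [← bil_al_right, bil_rho_left, bil_al_left]
  have h1 := (hw.inv hψ).neg hψ ht pt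
  have h2 := fB_nonpos (M := M) (y := - rho cs w⁻¹ (al t)) (neg_nonneg.2 h1) (r := r) (by
    rw [Pi.neg_apply, supp_rho cs (inv_mem hw.mem) ht r hr, neg_zero])
  rw [map_neg] at h2
  linarith

namespace Cr

variable (h : Cr cs ψ L s y g m u c)
include h

lemma I_DD {r : B} (hr : r ∈ L) (pr : 0 < ψ (cs.simple r)) (hrs : M r s ≠ 2) {β : B → ℝ}
    (hβ : IsPR cs ψ β) (hβ0 : 0 ≤ β) (hβs : ∀ i ∉ L, β i = 0) (hβu : rho cs u β ≤ 0) :
    2 * cc M r s * (- fB M s β) - 1 < fB M r β := by
  obtain ⟨v, r0, hp⟩ := h.exists_pi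
  have e := hp.uniq (v' := 1) (one_mem _) hr pr (by rw [rho_one]; exact h.u_att hr pr hrs)
  rw [rho_one] at e
  have := hp.DD hβ hβ0 hβs hβu
  rw [← e, fB_al, neg_neg, bil_al_left] at this
  exact this

lemma al_supp {r : B} (hr : r ∈ L) : ∀ i ∉ L, al r i = 0 := by
  intro i hi
  exact al_ne (by rintro rfl; exact hi hr)

lemma I_c0 {r : B} (hr : r ∈ L) (pr : 0 < ψ (cs.simple r)) (hrs : M r s ≠ 2) :
    1 / 2 ≤ cc M r s ^ 2 ∧ cc M r s ^ 2 < 1 ∧ 0 < cc M r s := by
  have h1 := h.wt.mixed_sq cs pr h.ns hrs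
  have h2 := h.I_DD hr pr hrs (IsPR.al pr) (al_nonneg r) (h.al_supp hr) (h.u_att hr pr hrs)
  rw [fB_al, fB_al_self, neg_neg] at h2
  have h3 := cc_nonneg M (h.ls_ne hr)
  refine ⟨h1, by nlinarith, ?_⟩
  rcases lt_or_eq_of_le h3 with h4 | h4
  · exact h4
  · rw [← h4] at h1; norm_num at h1

/-- `r` is the only neighbour of `s` -/
lemma I_uniq {r : B} (hr : r ∈ L) (pr : 0 < ψ (cs.simple r)) (hrs : M r s ≠ 2) {q : B}
    (hq : q ∈ L) (hqr : q ≠ r) : M q s = 2 := by
  by_contra hqs
  obtain ⟨h1, h2, h3⟩ := h.I_c0 hr pr hrs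
  obtain ⟨β, hβ, hβ0, hβs, hβu, hβq⟩ := h.lemM hq hqs
  have h4 := h.I_DD hr pr hrs hβ hβ0 hβs hβu
  have hqneg : ¬ 0 < ψ (cs.simple q) := by
    intro pq
    obtain ⟨v, r0, hp⟩ := h.exists_pi
    have e1 := hp.uniq (v' := 1) (one_mem _) hr pr (by rw [rho_one]; exact h.u_att hr pr hrs)
    have e2 := hp.uniq (v' := 1) (one_mem _) hq pq (by rw [rho_one]; exact h.u_att hq pq hqs)
    rw [rho_one] at e1 e2
    have e3 := congrFun (e1.trans e2.symm) q
    rw [al_self, al_ne hqr] at e3
    norm_num at e3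
  have h5 := hβ.sqrt_le h.wt hβ0 hβq hqneg
  have h6 := fB_le_two (M := M) hβ0 (r := s) (q := r) (q' := q) (h.ls_ne hr) (h.ls_ne hq) hqr
  rw [hβs s h.sL] at h6
  have h7 := fB_le_term (M := M) hβ0 (r := r) (q := q) hqr
  have h8 := half_le_cc M (h.ls_ne hq) hqs
  have h9 : 0 ≤ β r := hβ0 r
  have h10 := cc_nonneg M hqr
  have hs := sqrt2_sq
  have hs0 := sqrt2_pos
  have h11 : Real.sqrt 2 / 2 ≤ cc M r s := by
    by_contra hcon
    push Not at hcon
    nlinarith
  have h12 : cc M r s * β r + cc M q s * β q ≤ - fB M s β := by linarith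
  have h13 : 2 * cc M r s * (cc M r s * β r + cc M q s * β q) ≤ 2 * cc M r s * (- fB M s β) :=
    mul_le_mul_of_nonneg_left h12 (by linarith)
  have h14 : 0 ≤ β r * (2 * cc M r s ^ 2 - 1) := mul_nonneg h9 (by linarith)
  have h15 : 1 / 2 * Real.sqrt 2 ≤ cc M q s * β q :=
    mul_le_mul h8 h5 hs0.le (by linarith)
  have h16 : Real.sqrt 2 / 2 * (1 / 2 * Real.sqrt 2) ≤ cc M r s * (cc M q s * β q) :=
    mul_le_mul h11 h15 (by positivity) h3.le
  have h17 : 0 ≤ cc M q r * β q := mul_nonneg h10 (by linarith)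
  nlinarith

lemma I_cb {r : B} (hr : r ∈ L) (pr : 0 < ψ (cs.simple r)) (hrs : M r s ≠ 2) {β : B → ℝ}
    (hβs : ∀ i ∉ L, β i = 0) : - fB M s β = cc M r s * β r := by
  rw [fB_apply, Finset.sum_eq_single r]
  · ring
  · intro i _ hir
    by_cases hi : i ∈ L
    · rw [cc_of_eq_two M (h.I_uniq hr pr hrs hi hir)]; ring
    · rw [hβs i hi]; ring
  · simp

lemma I_filter {r : B} (hr : r ∈ L) (pr : 0 < ψ (cs.simple r)) (hrs : M r s ≠ 2) :
    L.filter (fun t => M t s = 2) = L.erase r := by
  ext t
  rw [Finset.mem_filter, Finset.mem_erase]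
  constructor
  · rintro ⟨h1, h2⟩
    exact ⟨by rintro rfl; exact hrs h2, h1⟩
  · rintro ⟨h1, h2⟩
    exact ⟨h2, h.I_uniq hr pr hrs h2 h1⟩

lemma I_mx0 {r : B} (hr : r ∈ L) (pr : 0 < ψ (cs.simple r)) (hrs : M r s ≠ 2) :
    IsMax cs ψ (L.erase r) c := by
  have := h.mx0
  rwa [h.I_filter hr pr hrs] at this

lemma I_x {r : B} (hr : r ∈ L) (pr : 0 < ψ (cs.simple r)) (hrs : M r s ≠ 2) :
    rho cs c (al r) r = 1 ∧ 0 ≤ rho cs c (al r) ∧ IsPR cs ψ (rho cs c (al r)) ∧
      (∀ i ∉ L, rho cs c (al r) i = 0) ∧ rho cs u (rho cs c (al r)) ≤ 0 := by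
  have h1 := (h.I_mx0 hr pr hrs).mem
  have h2 := Finset.notMem_erase r L
  refine ⟨?_, (al_nonneg r).trans (al_le_chain h2 c h1), (IsPR.al pr).rho c,
    supp_rho cs h.cL hr, ?_⟩
  · rw [rho_coord cs h1 _ h2, al_self]
  · rw [← rho_mul, ← h.dec2]; exact h.y_neg hr pr

lemma I_kap {r : B} (hr : r ∈ L) (pr : 0 < ψ (cs.simple r)) (hrs : M r s ≠ 2) :
    2 * cc M r s ^ 2 - 1 < fB M r (rho cs c (al r)) := by
  obtain ⟨h1, h2, h3, h4, h5⟩ := h.I_x hr pr hrs
  have h6 := h.I_DD hr pr hrs h3 h2 h4 h5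
  rw [h.I_cb hr pr hrs h4, h1] at h6
  linarith

/-- all neighbours of `r` in `L` are positive -/
lemma I_pos {r : B} (hr : r ∈ L) (pr : 0 < ψ (cs.simple r)) (hrs : M r s ≠ 2) {q : B}
    (hq : q ∈ L) (hqr : q ≠ r) (hadj : M q r ≠ 2) : 0 < ψ (cs.simple q) := by
  by_contra nq
  obtain ⟨h1, h2, h3⟩ := h.I_c0 hr pr hrs
  have hno : ∀ β, IsPR cs ψ β → 0 ≤ β → (∀ i ∉ L, β i = 0) → rho cs u β ≤ 0 → β q ≤ 0 := by
    intro β hβ hβ0 hβs hβu
    by_contra hcon
    push Not at hcon
    have h4 := h.I_DD hr pr hrs hβ hβ0 hβs hβu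
    rw [h.I_cb hr pr hrs hβs] at h4
    have h5 := hβ.sqrt_le h.wt hβ0 hcon nq
    have h6 := fB_le_term (M := M) hβ0 (r := r) (q := q) hqr
    have h7 : 0 ≤ β r := hβ0 r
    have h8 := h.wt.mixed cs pr nq
    have h9 : Real.sqrt 2 / 2 ≤ cc M q r := by
      apply cc_ge_of_four hqr
      rw [M.symmetric] at hadj ⊢
      have := h8.2
      omega
    have hs := sqrt2_sq
    have hs0 := sqrt2_pos
    have h10 : Real.sqrt 2 / 2 * Real.sqrt 2 ≤ cc M q r * β q :=
      mul_le_mul h9 h5 hs0.le (by linarith)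
    have h11 : 0 ≤ β r * (2 * cc M r s ^ 2 - 1) := mul_nonneg h7 (by linarith)
    nlinarith
  obtain ⟨x1, x2, x3, x4, x5⟩ := h.I_x hr pr hrs
  have h12 := hno _ x3 x2 x4 x5
  have h13 : rho cs c (al r) q = 0 := le_antisymm h12 (x2 q)
  have h14 := letter_coord (Finset.notMem_erase r L) hadj c (h.I_mx0 hr pr hrs).mem h13
  refine h.not_both hq (h.no_letter hno) (WP_mono cs ?_ h14)
  intro t ht
  rw [Finset.mem_erase, Finset.mem_erase] at ht
  rw [Finset.mem_erase]
  exact ⟨ht.1, ht.2.2⟩

lemma I_fB {r : B} (hr : r ∈ L) (pr : 0 < ψ (cs.simple r)) (hrs : M r s ≠ 2) {t : B}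
    (ht : t ∈ L) (htr : t ≠ r) (pt : 0 < ψ (cs.simple t)) : 0 ≤ fB M t (rho cs c (al r)) :=
  max_fB h.wt (h.I_mx0 hr pr hrs) (Finset.notMem_erase r L) (Finset.mem_erase.2 ⟨htr, ht⟩) pt

/-- coefficients at neighbours of the support -/
lemma I_next {r : B} (hr : r ∈ L) (pr : 0 < ψ (cs.simple r)) (hrs : M r s ≠ 2) {t z : B}
    (ht : t ∈ L) (htr : t ≠ r) (pt : 0 < ψ (cs.simple t)) (hzt : z ≠ t) (hadj : M z t ≠ 2)
    (hz : 0 < rho cs c (al r) z) : 1 ≤ rho cs c (al r) t := by
  obtain ⟨x1, x2, x3, x4, x5⟩ := h.I_x hr pr hrs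
  apply x3.one_le h.wt x2
  have h1 := h.I_fB hr pr hrs ht htr pt
  have h2 := fB_le_term (M := M) x2 (r := t) (q := z) hzt
  have h3 := half_le_cc M hzt hadj
  nlinarith

lemma I_nbr {r : B} (hr : r ∈ L) (pr : 0 < ψ (cs.simple r)) (hrs : M r s ≠ 2) {t : B}
    (ht : t ∈ L) (htr : t ≠ r) (hadj : M t r ≠ 2) :
    rho cs c (al r) t = 1 ∧ M t r = 3 ∧ M r s = 4 ∧ (∀ t' ∈ L, t' ≠ r → t' ≠ t → M t' r = 2) := by
  obtain ⟨x1, x2, x3, x4, x5⟩ := h.I_x hr pr hrs
  have pt := h.I_pos hr pr hrs ht htr hadj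
  have h1 : 1 ≤ rho cs c (al r) t := h.I_next hr pr hrs ht htr pt (z := r) (Ne.symm htr)
    (by rw [M.symmetric]; exact hadj) (by rw [x1]; norm_num)
  set x := rho cs c (al r) with hx
  set κ := fB M r x with hκ
  have h0 := h.I_kap hr pr hrs
  have hκ0 : 0 < κ := by
    have := (h.I_c0 hr pr hrs).1
    linarith
  -- κ ≥ 1/2
  have h2 : 1 / 2 ≤ κ := by
    have h3 : IsRt cs (al r - (2 * κ) • x) := by
      have := x3.isRt.refl (IsRt.al (cs := cs) r)
      rwa [bil_al_left] at this
    have h4 : al r - (2 * κ) • x ≤ 0 := by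
      apply h3.neg_of_coord (i := t)
      rw [Pi.sub_apply, Pi.smul_apply, al_ne htr, smul_eq_mul]
      nlinarith
    have h5 := h4 r
    rw [Pi.sub_apply, Pi.smul_apply, al_self, x1, smul_eq_mul, Pi.zero_apply] at h5
    linarith
  have h6 := fB_le_term (M := M) x2 (r := r) (q := t) htr
  rw [x1] at h6
  have h7 := half_le_cc M htr hadj
  have h8 : cc M t r * x t ≤ 1 / 2 := by linarith
  have h9 : x t = 1 := by nlinarith
  have h10 : cc M t r ≤ 1 / 2 := by rw [h9] at h8; linarith
  refine ⟨h9, cc_half htr hadj h10, ?_, ?_⟩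
  · have h11 : ¬ (M r s = 0 ∨ 6 ≤ M r s) := by
      intro hcon
      have := threequarters_le_cc_sq M hcon
      nlinarith
    have := (h.wt.mixed cs pr h.ns).2
    omega
  · intro t' ht' htr' htt'
    by_contra hadj'
    have pt' := h.I_pos hr pr hrs ht' htr' hadj'
    have h12 : 1 ≤ x t' := h.I_next hr pr hrs ht' htr' pt' (z := r) (Ne.symm htr')
      (by rw [M.symmetric]; exact hadj') (by rw [← hx, x1]; norm_num)
    have h13 := fB_le_two (M := M) x2 (r := r) (q := t) (q' := t') htr htr' htt'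
    rw [x1] at h13
    have h14 := half_le_cc M htr' hadj'
    nlinarith

/-- Case I, all generators in `L` positive -/
lemma I_allpos {r : B} (hr : r ∈ L) (pr : 0 < ψ (cs.simple r)) (hrs : M r s ≠ 2)
    (hall : ∀ t ∈ L, 0 < ψ (cs.simple t)) : False := by
  classical
  by_cases hLr : L = {r}
  · apply h.nfin
    rw [hLr]
    apply FinS.pair cs (Ne.symm (h.ls_ne hr))
    intro h0
    have h1 := (h.I_c0 hr pr hrs).2.1
    rw [cc_of_eq_zero M (by rw [M.symmetric]; exact h0)] at h1
    norm_num at h1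
  obtain ⟨x1, x2, x3, x4, x5⟩ := h.I_x hr pr hrs
  -- a first neighbour
  have h4 : M r s = 4 := by
    by_contra hcon
    have hne : (L.erase r).Nonempty := by
      rw [Finset.nonempty_iff_ne_empty]
      intro h0
      apply hLr
      apply Finset.Subset.antisymm
      · intro t ht
        rw [Finset.mem_singleton]
        by_contra htr
        have : t ∈ L.erase r := Finset.mem_erase.2 ⟨htr, ht⟩
        rw [h0] at this
        exact absurd this (Finset.notMem_empty t)
      · intro t ht
        rw [Finset.mem_singleton] at ht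
        rw [ht]; exact hr
    refine h.conn (A := {r}) (C := L.erase r) ?_ ⟨r, by simp⟩ hne ?_
    · rw [← Finset.insert_eq]; exact Finset.insert_erase hr
    · intro a ha t ht
      rw [Finset.mem_singleton] at ha
      rw [Finset.mem_erase] at ht
      subst ha
      by_contra hadj
      exact hcon (h.I_nbr hr pr hrs ht.2 ht.1 (by rw [M.symmetric]; exact hadj)).2.2.1
  have key : ∀ k : ℕ, ∃ a : ℕ → B, a 0 = r ∧ BPath M s a k ∧
      ∀ i ≤ k, a i ∈ L ∧ rho cs c (al r) (a i) = 1 := by
    intro k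
    induction k with
    | zero =>
      refine ⟨fun _ => r, rfl, ⟨by rw [M.symmetric]; exact h4, fun i _ _ => by omega,
        fun i hi => by omega, fun i j _ _ => by omega⟩, fun _ _ => ⟨hr, x1⟩⟩
    | succ k ih =>
      obtain ⟨a, h0, p, ha⟩ := ih
      have har : ∀ i ≤ k, a i = r → i = 0 := fun i hi he =>
        p.inj hi (Nat.zero_le k) (by rw [h0]; exact he)
      -- some vertex outside the path is adjacent to it
      obtain ⟨t, ht, htp, i, hi, hadj⟩ : ∃ t ∈ L, (∀ i ≤ k, t ≠ a i) ∧ ∃ i ≤ k, M t (a i) ≠ 2 := by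
        by_contra hcon
        push Not at hcon
        apply h.nfin
        have hL : L = tset a (k + 1) := by
          by_contra hne
          have hsub : tset a (k + 1) ⊆ L := by
            intro t ht
            obtain ⟨i, hi, rfl⟩ := mem_tset.1 ht
            exact (ha i (by omega)).1
          refine h.conn (A := tset a (k + 1)) (C := L \ tset a (k + 1))
            (by rw [Finset.union_sdiff_of_subset hsub]) ⟨a 0, mem_tset.2 ⟨0, by omega, rfl⟩⟩ ?_ ?_
          · rw [Finset.sdiff_nonempty]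
            intro h2
            exact hne (Finset.Subset.antisymm h2 hsub)
          · intro x hx t ht
            obtain ⟨i, hi, rfl⟩ := mem_tset.1 hx
            rw [Finset.mem_sdiff, mem_tset] at ht
            push Not at ht
            rw [M.symmetric]
            exact hcon t ht.1 (fun j hj he => ht.2 j (by omega) he.symm) i (by omega)
        rw [hL]
        exact p.finS
      have pt := hall t ht
      have htr : t ≠ r := by rw [← h0]; exact htp 0 (Nat.zero_le k)
      -- uniqueness of the vertex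
      have h5 : ∀ j < k, M (a j) t = 2 := by
        intro j hj
        by_contra hadj'
        rw [M.symmetric] at hadj'
        rcases Nat.eq_zero_or_pos j with rfl | hj0
        · have e1 : a 1 ≠ r := fun he => by have := har 1 (by omega) he; omega
          have e2 : M (a 1) r ≠ 2 := by
            rw [← h0, M.symmetric, p.h3 0 (by omega)]; norm_num
          have := (h.I_nbr hr pr hrs (ha 1 (by omega)).1 e1 e2).2.2.2 t ht htr (htp 1 (by omega))
          rw [← h0] at this
          exact hadj' this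
        · have ej : a j ≠ r := fun he => by have := har j (by omega) he; omega
          have e1 := h.I_fB hr pr hrs (ha j (by omega)).1 ej (hall _ (ha j (by omega)).1)
          have e0 : 0 < rho cs c (al r) (a j) := by rw [(ha j (by omega)).2]; norm_num
          have e2 : 1 ≤ rho cs c (al r) t := h.I_next hr pr hrs ht htr pt (z := a j)
            (Ne.symm (htp j (by omega))) (by rw [M.symmetric]; exact hadj') e0
          have n1 : a (j - 1) ≠ a j := fun he => by
            have := p.inj (by omega) (by omega) he; omega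
          have n2 : a (j + 1) ≠ a j := fun he => by
            have := p.inj (by omega) (by omega) he; omega
          have n3 : a (j + 1) ≠ a (j - 1) := fun he => by
            have := p.inj (by omega) (by omega) he; omega
          have e3 := fB_le_three (M := M) x2 (r := a j) (q := a (j - 1)) (q' := a (j + 1))
            (q'' := t) n1 n2 (htp j (by omega)) n3 (htp _ (by omega)) (htp _ (by omega))
          rw [(ha j (by omega)).2, (ha (j - 1) (by omega)).2, (ha (j + 1) (by omega)).2,
            p.cc_yy (by omega) (by omega), p.cc_yy (by omega) (by omega), if_neg (by omega),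
            if_pos (Or.inr (by omega)), if_neg (by omega), if_pos (Or.inl rfl)] at e3
          have e4 := half_le_cc M (htp j (by omega)) hadj'
          nlinarith
      have hik : i = k := by
        by_contra hne
        exact hadj (by rw [M.symmetric]; exact h5 i (by omega))
      subst hik
      have e0 : 0 < rho cs c (al r) (a i) := by rw [(ha i le_rfl).2]; norm_num
      have e2 : 1 ≤ rho cs c (al r) t := h.I_next hr pr hrs ht htr pt (z := a i)
        (Ne.symm (htp i le_rfl)) (by rw [M.symmetric]; exact hadj) e0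
      have h6 : rho cs c (al r) t = 1 ∧ M t (a i) = 3 := by
        rcases Nat.eq_zero_or_pos i with rfl | hi0
        · rw [h0] at hadj ⊢
          have := h.I_nbr hr pr hrs ht htr hadj
          exact ⟨this.1, this.2.1⟩
        · have ej : a i ≠ r := fun he => by have := har i le_rfl he; omega
          have e1 := h.I_fB hr pr hrs (ha i le_rfl).1 ej (hall _ (ha i le_rfl).1)
          have n1 : a (i - 1) ≠ a i := fun he => by
            have := p.inj (by omega) (by omega) he; omega
          have e3 := fB_le_two (M := M) x2 (r := a i) (q := a (i - 1)) (q' := t) n1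
            (htp i le_rfl) (htp _ (by omega))
          rw [(ha i le_rfl).2, (ha (i - 1) (by omega)).2,
            p.cc_yy (by omega) (by omega), if_neg (by omega), if_pos (Or.inr (by omega))] at e3
          have e4 := half_le_cc M (htp i le_rfl) hadj
          have e5 : cc M t (a i) * rho cs c (al r) t ≤ 1 / 2 := by linarith
          have e6 : rho cs c (al r) t = 1 := by nlinarith
          refine ⟨e6, cc_half (htp i le_rfl) hadj ?_⟩
          rw [e6] at e5
          linarith
      refine ⟨fun j => if j ≤ i then a j else t, ?_, ⟨?_, ?_, ?_, ?_⟩, ?_⟩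
      · simpa using h0
      · simpa using p.h4
      · intro j e1 e2
        by_cases e3 : j ≤ i
        · simp only [e3, if_true]; exact p.h2 j e1 e3
        · simp only [e3, if_false]
          rw [M.symmetric]; exact h.I_uniq hr pr hrs ht htr
      · intro j e1
        by_cases e3 : j + 1 ≤ i
        · simp only [e3, show j ≤ i by omega, if_true]; exact p.h3 j (by omega)
        · have : j = i := by omega
          subst this
          simp only [le_refl, e3, if_true, if_false]
          rw [M.symmetric]; exact h6.2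
      · intro b d e1 e2
        by_cases e3 : d ≤ i
        · simp only [e3, show b ≤ i by omega, if_true]; exact p.h22 b d e1 e3
        · simp only [e3, show b ≤ i by omega, if_true, if_false]; exact h5 b (by omega)
      · intro j e1
        by_cases e3 : j ≤ i
        · simp only [e3, if_true]; exact ha j e3
        · simp only [e3, if_false]; exact ⟨ht, h6.1⟩
  obtain ⟨a, _, p, _⟩ := key (Fintype.card B)
  have := p.card_le
  omega

end Cr

end Pool.Agent.H44.Cox
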