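import Mathlib
import Pool.Agent.H44.Cox.CaseI

set_option autoImplicit false
set_option linter.unusedSectionVars false
set_option linter.unusedSimpArgs false
set_option linter.unusedVariables false

/-! # Case I: mixed `L` -/

namespace Pool.Agent.H44.Cox

open CoxeterSystem Pool.Agent.H80.Cox

variable {B : Type*} [Fintype B] [DecidableEq B] {W : Type*} [Group W]
variable {M : CoxeterMatrix B} {cs : CoxeterSystem M W}
variable {ψ : W → ℝ} {L : Finset B} {s : B} {y g m u c : W}

namespace BPath

variable {x0 : B} {a : ℕ → B} {k : ℕ} (p : BPath M x0 a k)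
include p

/-- the root `(e_i + e_j)/√2` -/
lemma isPR_add {ψ : W → ℝ} (hpos : ∀ i ≤ k, 0 < ψ (cs.simple (a i))) {i j : ℕ} (hij : i < j)
    (hj : j ≤ k + 1) : IsPR cs ψ ((Real.sqrt 2 / 2) • (ev x0 a j + ev x0 a i)) ∧
      IsPR cs ψ ((Real.sqrt 2 / 2) • (ev x0 a j - ev x0 a i)) := by
  have hs := sqrt2_sq
  -- the difference
  have key : ∀ d : ℕ, ∀ i, i + d + 1 ≤ k + 1 →
      IsPR cs ψ ((Real.sqrt 2 / 2) • (ev x0 a (i + d + 1) - ev x0 a i)) := by
    intro d
    induction d with
    | zero =>
      intro i hi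
      have h1 := al_y x0 a i
      rw [Nat.add_zero, ← h1]
      exact IsPR.al (hpos i (by omega))
    | succ d ih =>
      intro i hi
      have h1 := (ih i (by omega)).rho (cs.simple (a (i + d + 1)))
      rw [map_smul, map_sub, rho_simple, p.sig_y (by omega) (by omega), if_pos rfl,
        p.sig_y (by omega) (by omega), if_neg (by omega), if_neg (by omega)] at h1
      exact h1
  have h1 : IsPR cs ψ ((Real.sqrt 2 / 2) • (ev x0 a j - ev x0 a i)) := by
    have := key (j - i - 1) i (by omega)
    rwa [show i + (j - i - 1) + 1 = j by omega] at this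
  refine ⟨?_, h1⟩
  have h2 := IsPR.refl (p.ev_isRt (cs := cs) (i := i) (by omega)) h1
  rw [bil_smul_left, bil_sub_left, p.bil_ev hj (by omega), p.bil_ev (by omega) (by omega),
    if_neg (by omega), if_pos rfl] at h2
  convert h2 using 1
  module

end BPath

namespace Cr

variable (h : Cr cs ψ L s y g m u c)
include h

lemma I_final {q : B} {a : ℕ → B} {k : ℕ} (p : BPath M q a k) (hk : 1 ≤ k)
    (hq : q ∈ L) (haL : ∀ i ≤ k, a i ∈ L) (pa : ∀ i ≤ k, 0 < ψ (cs.simple (a i)))
    (hrs : M (a k) s ≠ 2) (hc : c ∈ WP cs (tset a k)) {gJ mJ : W} (hJ : y = gJ * mJ)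
    (hmJ : mJ ∈ WP cs (vset q a (k + 1))) (hgJ : ∀ r ∈ vset q a (k + 1), 0 ≤ rho cs gJ (al r))
    (hmT : mJ ∉ WP cs (tset a (k + 1))) : False := by
  have hs := sqrt2_sq
  have hs0 := sqrt2_pos
  have hr := haL k le_rfl
  have pr := pa k le_rfl
  have hsub : vset q a (k + 1) ⊆ insert s L := by
    intro t ht
    rw [mem_vset] at ht
    rcases ht with rfl | ⟨i, hi, rfl⟩
    · exact Finset.mem_insert_of_mem hq
    · exact Finset.mem_insert_of_mem (haL i (by omega))
  have hmx : IsMax cs ψ (vset q a (k + 1)) mJ := h.mx.part h.wt hsub hJ hmJ hgJ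
  have hneg : ∀ i ≤ k, rho cs mJ (al (a i)) ≤ 0 := fun i hi =>
    hmx.neg h.wt (mem_vset.2 (Or.inr ⟨i, by omega, rfl⟩)) (pa i hi)
  have hneg' : ∀ i ≤ k, rho cs mJ⁻¹ (al (a i)) ≤ 0 := fun i hi =>
    (hmx.inv h.wt).neg h.wt (mem_vset.2 (Or.inr ⟨i, by omega, rfl⟩)) (pa i hi)
  have hex : ∃ i ≤ k + 1, rho cs mJ (ev q a i) ≤ 0 := by
    by_contra hcon
    push Not at hcon
    apply hmT
    apply BPath.mem_tset_of_pos p mJ hmJ
    intro i hi
    exact ((p.ev_isRt (cs := cs) hi).rho mJ).pos_or_neg.resolve_right (hcon i hi)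
  obtain ⟨i0, hi0, hi0'⟩ := hex
  have htop := p.lemG hmJ hneg hneg' hi0 hi0'
  -- the second root
  obtain ⟨j, hj, hcj⟩ := (p.perm_t (n := k) (by omega) c⁻¹ (inv_mem hc) k (by omega)).1 le_rfl
  have hctop := (p.perm_t (n := k) (by omega) c⁻¹ (inv_mem hc) (k + 1) le_rfl).2 (by omega)
  set β := (Real.sqrt 2 / 2) • (ev q a (k + 1) + ev q a k) with hβd
  have hβ : IsPR cs ψ β := (p.isPR_add pa (by omega) le_rfl).1
  have hβ0 : 0 ≤ β := smul_nonneg (by positivity) (add_nonneg (ev_nonneg _ _ _) (ev_nonneg _ _ _))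
  have hβs : ∀ i ∉ L, β i = 0 := by
    intro i hi
    have e1 : i ≠ q := by rintro rfl; exact hi hq
    have e2 : ∀ j, j ≤ k → i ≠ a j := by rintro j hj rfl; exact hi (haL j hj)
    rw [hβd, Pi.smul_apply, Pi.add_apply, ev_supp e1 (fun j hj => e2 j (by omega)),
      ev_supp e1 (fun j hj => e2 j (by omega))]
    simp
  have hβu : rho cs u β ≤ 0 := by
    rw [h.rho_u, hβd, map_smul, map_add, hctop, hcj, hJ, rho_mul]
    have e1 := (p.top_neg hmJ htop (i := j) (by omega)).1
    have hgJn : ∀ {x : B → ℝ}, x ≤ 0 → (∀ i ∉ vset q a (k + 1), x i = 0) → rho cs gJ x ≤ 0 := by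
      intro x hx hxs
      have := comb_nonneg cs hgJ (x := -x) (neg_nonneg.2 hx)
        (fun i hi => by rw [Pi.neg_apply, hxs i hi, neg_zero])
      rw [map_neg] at this
      exact neg_nonneg.1 this
    rw [map_smul, map_smul]
    apply smul_nonpos_of_nonneg_of_nonpos (by positivity)
    apply hgJn e1
    intro i hi
    rw [rho_coord cs hmJ _ hi]
    rw [mem_vset, not_or] at hi
    push Not at hi
    rw [Pi.add_apply, ev_supp hi.1 (fun j hj => (hi.2 j hj).symm),
      ev_supp hi.1 (fun j' hj' => (hi.2 j' (by omega)).symm), add_zero]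
  have hDD := h.I_DD hr pr hrs hβ hβ0 hβs hβu
  rw [h.I_cb hr pr hrs hβs] at hDD
  have e1 : fB M (a k) β = 0 := by
    rw [hβd, map_smul, map_add, p.fB_y le_rfl le_rfl, p.fB_y le_rfl (by omega), if_neg (by omega),
      if_pos rfl, if_pos rfl]
    simp
  have e2 : β (a k) = 1 := by
    have e3 : ev q a k (a k) = 0 := by
      apply ev_supp (p.x0_ne le_rfl).symm
      intro i hi he
      have := p.inj le_rfl (by omega) he
      omega
    rw [hβd, Pi.smul_apply, Pi.add_apply, ev_succ, Pi.add_apply, Pi.smul_apply, al_self, e3]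
    simp only [smul_eq_mul]
    linarith
  rw [e1, e2] at hDD
  have := (h.I_c0 hr pr hrs).1
  linarith

/-- the coefficients along a path ending in `r` -/
lemma I_one {q : B} {a : ℕ → B} {k : ℕ} (p : BPath M q a k) (hk : 1 ≤ k)
    (haL : ∀ i ≤ k, a i ∈ L) (pa : ∀ i ≤ k, 0 < ψ (cs.simple (a i)))
    (hrs : M (a k) s ≠ 2) : ∀ j ≤ k, rho cs c (al (a k)) (a (k - j)) = 1 := by
  have hr := haL k le_rfl
  have pr := pa k le_rfl
  obtain ⟨x1, x2, x3, x4, x5⟩ := h.I_x hr pr hrs
  intro j
  induction j using Nat.strong_induction_on with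
  | _ j ih =>
  intro hj
  rcases Nat.eq_zero_or_pos j with rfl | hj0
  · rw [Nat.sub_zero]; exact x1
  have e1 : a (k - j) ≠ a k := fun he => by
    have := p.inj (by omega) (by omega) he; omega
  have e2 : M (a (k - j)) (a (k - (j - 1))) = 3 := by
    rw [show k - (j - 1) = (k - j) + 1 by omega]; exact p.h3 _ (by omega)
  by_cases hj1 : j = 1
  · subst hj1
    rw [Nat.sub_self, Nat.sub_zero] at e2
    exact (h.I_nbr hr pr hrs (haL _ (by omega)) e1 (by rw [e2]; norm_num)).1
  · have i1 := ih (j - 1) (by omega) (by omega)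
    have i2 := ih (j - 2) (by omega) (by omega)
    have n0 : a (k - (j - 1)) ≠ a k := fun he => by
      have := p.inj (by omega) (by omega) he; omega
    have n1 : a (k - j) ≠ a (k - (j - 1)) := fun he => by
      have := p.inj (by omega) (by omega) he; omega
    have n2 : a (k - (j - 2)) ≠ a (k - (j - 1)) := fun he => by
      have := p.inj (by omega) (by omega) he; omega
    have n3 : a (k - j) ≠ a (k - (j - 2)) := fun he => by
      have := p.inj (by omega) (by omega) he; omega
    have e3 := h.I_fB hr pr hrs (haL (k - (j - 1)) (by omega)) n0 (pa _ (by omega))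
    have e4 : 1 ≤ rho cs c (al (a k)) (a (k - j)) :=
      h.I_next hr pr hrs (haL (k - j) (by omega)) e1 (pa _ (by omega)) (Ne.symm n1)
        (by rw [M.symmetric, e2]; norm_num) (by rw [i1]; norm_num)
    have e5 := fB_le_two (M := M) x2 (r := a (k - (j - 1))) (q := a (k - (j - 2)))
      (q' := a (k - j)) n2 n1 n3
    rw [i1, i2, p.cc_yy (by omega) (by omega), p.cc_yy (by omega) (by omega), if_neg (by omega),
      if_pos (Or.inl (by omega)), if_neg (by omega), if_pos (Or.inr (by omega))] at e5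
    linarith

lemma I_zero {q : B} {a : ℕ → B} {k : ℕ} (p : BPath M q a k) (hk : 1 ≤ k) (hq : q ∈ L)
    (nq : ¬ 0 < ψ (cs.simple q))
    (haL : ∀ i ≤ k, a i ∈ L) (pa : ∀ i ≤ k, 0 < ψ (cs.simple (a i)))
    (hrs : M (a k) s ≠ 2) : rho cs c (al (a k)) q = 0 := by
  have hr := haL k le_rfl
  have pr := pa k le_rfl
  obtain ⟨x1, x2, x3, x4, x5⟩ := h.I_x hr pr hrs
  by_contra hcon
  have h1 : 0 < rho cs c (al (a k)) q := lt_of_le_of_ne (x2 q) (Ne.symm hcon)
  have h2 := x3.sqrt_le h.wt x2 h1 nq
  have i0 := h.I_one p hk haL pa hrs k le_rfl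
  have i1 := h.I_one p hk haL pa hrs (k - 1) (by omega)
  rw [Nat.sub_self] at i0
  rw [show k - (k - 1) = 1 by omega] at i1
  have n1 : a 1 ≠ a 0 := fun he => by have := p.inj (by omega) (by omega) he; omega
  have n2 : a 0 ≠ a k := fun he => by have := p.inj (by omega) (by omega) he; omega
  have e3 := h.I_fB hr pr hrs (haL 0 (by omega)) n2 (pa _ (by omega))
  have e5 := fB_le_two (M := M) x2 (r := a 0) (q := a 1) (q' := q) n1 (p.x0_ne (by omega))
    (p.x0_ne (by omega))
  rw [i0, i1, p.cc_yy (by omega) (by omega), if_neg (by omega), if_pos (Or.inl rfl),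
    p.cc_xy (by omega), if_pos rfl] at e5
  have hs := sqrt2_sq
  have hs0 := sqrt2_pos
  nlinarith

/-- the position of `r` on the path -/
lemma I_end {q : B} {a : ℕ → B} {k : ℕ} (p : BPath M q a k) (hk : 1 ≤ k) (hq : q ∈ L)
    (nq : ¬ 0 < ψ (cs.simple q))
    (haL : ∀ i ≤ k, a i ∈ L) (pa : ∀ i ≤ k, 0 < ψ (cs.simple (a i))) {i : ℕ} (hi : i ≤ k)
    (hrs : M (a i) s ≠ 2) : i = k := by
  have hr := haL i hi
  have pr := pa i hi
  have hi0 : i ≠ 0 := by
    rintro rfl
    exact nq (h.I_pos hr pr hrs hq (p.x0_ne (by omega)) (by rw [p.h4]; norm_num))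
  by_contra hik
  have n1 : a (i - 1) ≠ a i := fun he => by have := p.inj (by omega) (by omega) he; omega
  have n2 : a (i + 1) ≠ a i := fun he => by have := p.inj (by omega) (by omega) he; omega
  have n3 : a (i + 1) ≠ a (i - 1) := fun he => by have := p.inj (by omega) (by omega) he; omega
  have m1 : M (a (i - 1)) (a i) = 3 := by
    have := p.h3 (i - 1) (by omega)
    rwa [show i - 1 + 1 = i by omega] at this
  have m2 : M (a (i + 1)) (a i) = 3 := by rw [M.symmetric]; exact p.h3 i (by omega)
  have := (h.I_nbr hr pr hrs (haL _ (by omega)) n1 (by rw [m1]; norm_num)).2.2.2 (a (i + 1))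
    (haL _ (by omega)) n2 n3
  omega

/-- Case I. -/
theorem caseI {r : B} (hr : r ∈ L) (pr : 0 < ψ (cs.simple r)) (hrs : M r s ≠ 2) : False := by
  classical
  by_cases hall : ∀ t ∈ L, 0 < ψ (cs.simple t)
  · exact h.I_allpos hr pr hrs hall
  push Not at hall
  obtain ⟨q0, hq0, nq0⟩ := hall
  have hns : ∀ {w : W} {K : Finset B} {t : B}, w ∈ WP cs K → K ⊆ L → t ∉ K → t ∈ L →
      w ∈ WP cs (L.erase t) := by
    intro w K t hw hK ht htL
    apply WP_mono cs _ hw
    intro x hx
    rw [Finset.mem_erase]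
    exact ⟨by rintro rfl; exact ht hx, hK hx⟩
  have hcm := (h.I_mx0 hr pr hrs).mem
  rcases classify h.wt h.fin h.conn hr pr hq0 (not_lt.2 nq0) with
    ⟨p, q, hL, hpq, pp, nq, hM⟩ | ⟨q, a, k, hk, p, hL, nq, pa⟩ | ⟨q, a, k, hk, p, hL, pq, na⟩ |
    ⟨a1, a0, b0, b1, hL, m1, m2, m3, m4, m5, m6, p1, p0, n0, n1⟩
  · -- two generators
    have hrp : r = p := by
      rw [hL, Finset.mem_insert, Finset.mem_singleton] at hr
      rcases hr with rfl | rfl
      · rfl
      · exact absurd pr nq
    subst hrp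
    have hq : q ∈ L := by rw [hL]; simp
    exact nq (h.I_pos hr pr hrs hq hpq.symm (by rw [M.symmetric]; omega))
  · -- `B_n`, positive path
    have hq : q ∈ L := by rw [hL, mem_vset]; exact Or.inl rfl
    have haL : ∀ i ≤ k, a i ∈ L := by
      intro i hi
      rw [hL, mem_vset]; exact Or.inr ⟨i, by omega, rfl⟩
    obtain ⟨i, hi, hri⟩ : ∃ i ≤ k, a i = r := by
      rw [hL, mem_vset] at hr
      rcases hr with rfl | ⟨i, hi, rfl⟩
      · exact absurd pr nq
      · exact ⟨i, by omega, rfl⟩
    subst hri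
    have hik := h.I_end p hk hq nq haL pa hi hrs
    subst hik
    have hone := h.I_one p hk haL pa hrs
    have hzero := h.I_zero p hk hq nq haL pa hrs
    obtain ⟨c', c1, hcc, hc1, hc'⟩ := exists_dec cs (tset a i) c
    have hTK : tset a i ⊆ L.erase (a i) := by
      intro t ht
      obtain ⟨j, hj, rfl⟩ := mem_tset.1 ht
      rw [Finset.mem_erase]
      refine ⟨fun he => ?_, haL j (by omega)⟩
      have := p.inj (by omega) (by omega) he
      omega
    have hc1K := WP_mono cs hTK hc1
    have hc'K : c' ∈ WP cs (L.erase (a i)) := by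
      have : c' = c * c1⁻¹ := by rw [hcc]; simp
      rw [this]; exact mul_mem hcm (inv_mem hc1K)
    have hmx1 : IsMax cs ψ (tset a i) c1 := (h.I_mx0 hr pr hrs).part h.wt hTK hcc hc1 hc'
    have hrT : a i ∉ tset a i := by
      intro ht
      exact absurd (hTK ht) (Finset.notMem_erase _ _)
    -- coordinate of the vertex next to `q`
    have hz : ∀ j ≤ i, 0 < rho cs c1 (al (a i)) (a (i - j)) := by
      intro j
      induction j with
      | zero =>
        intro _
        rw [Nat.sub_zero, rho_coord cs hc1 _ hrT, al_self]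
        norm_num
      | succ j ih =>
        intro hj
        have e1 := ih (by omega)
        have e2 := max_fB h.wt hmx1 hrT (t := a (i - (j + 1)))
          (mem_tset.2 ⟨i - (j + 1), by omega, rfl⟩) (pa _ (by omega))
        have e3 : 0 ≤ rho cs c1 (al (a i)) := (al_nonneg _).trans (al_le_chain hrT c1 hc1)
        have n1 : a (i - j) ≠ a (i - (j + 1)) := fun he => by
          have := p.inj (by omega) (by omega) he; omega
        have e4 := fB_le_term (M := M) e3 (r := a (i - (j + 1))) (q := a (i - j)) n1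
        rw [p.cc_yy (by omega) (by omega), if_neg (by omega), if_pos (Or.inl (by omega))] at e4
        linarith
    have hz0 := hz i le_rfl
    rw [Nat.sub_self] at hz0
    have hqi : q ≠ a i := p.x0_ne le_rfl
    have hlet := letter_coord' hc1K (Finset.notMem_erase _ _) hqi (p.x0_ne (by omega))
      (by rw [p.h4]; norm_num) hz0 c' hc'K (length_mul_of_pos cs hc' hc1)
      (by rw [← hcc]; exact hzero)
    have hcT : c ∈ WP cs (tset a i) := by
      rw [hcc]
      refine mul_mem (WP_mono cs ?_ hlet) hc1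
      intro t ht
      rw [Finset.mem_erase, Finset.mem_erase, hL, mem_vset] at ht
      rcases ht.2.2 with e1 | ⟨j, hj, rfl⟩
      · exact absurd e1 ht.1
      · refine mem_tset.2 ⟨j, ?_, rfl⟩
        by_contra hcon
        exact ht.2.1 (by rw [show j = i by omega])
    refine h.I_final p hk hq haL pa hrs hcT (gJ := g) (mJ := m) h.dec (by rw [← hL]; exact h.mm)
      (by rw [← hL]; exact h.gp) ?_
    intro hmT
    refine h.full q hq (hns hmT (by rw [hL]; exact tset_sub_vset _ _ _) ?_ hq)
    rw [mem_tset]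
    rintro ⟨j, hj, he⟩
    exact p.x0_ne (i := j) (by omega) he.symm
  · -- `B_n`, negative path
    have hrq : r = q := by
      rw [hL, mem_vset] at hr
      rcases hr with rfl | ⟨i, hi, rfl⟩
      · rfl
      · exact absurd pr (na i (by omega))
    subst hrq
    have ha0 : a 0 ∈ L := by rw [hL, mem_vset]; exact Or.inr ⟨0, by omega, rfl⟩
    exact na 0 (by omega) (h.I_pos hr pr hrs ha0 (p.x0_ne (by omega)).symm
      (by rw [M.symmetric, p.h4]; norm_num))
  · -- `F_4`
    have ha1 : a1 ∈ L := by rw [hL]; simp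
    have ha0 : a0 ∈ L := by rw [hL]; simp
    have hb0 : b0 ∈ L := by rw [hL]; simp
    have hb1 : b1 ∈ L := by rw [hL]; simp
    have da : a1 ≠ a0 := by rintro rfl; rw [M.diagonal] at m1; omega
    have db : b0 ≠ b1 := by rintro rfl; rw [M.diagonal] at m3; omega
    have hpn : ∀ {x z : B}, 0 < ψ (cs.simple x) → ¬ 0 < ψ (cs.simple z) → x ≠ z := by
      rintro x z hx hz rfl; exact hz hx
    have p : BPath M b0 (fun i => if i = 0 then a0 else a1) 1 := by
      refine ⟨?_, ?_, ?_, ?_⟩
      · simp only [if_true]; rw [M.symmetric]; exact m2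
      · intro i h1 h2
        rw [if_neg (by omega), M.symmetric]; exact m4
      · intro i hi
        rw [if_pos (by omega), if_neg (by omega), M.symmetric]; exact m1
      · intro i j h1 h2; omega
    set a : ℕ → B := fun i => if i = 0 then a0 else a1 with ha
    have haa0 : a 0 = a0 := by simp [ha]
    have haa1 : a 1 = a1 := by simp [ha]
    have haL : ∀ i ≤ 1, a i ∈ L := by
      intro i hi
      have : i = 0 ∨ i = 1 := by omega
      rcases this with rfl | rfl
      · rw [haa0]; exact ha0
      · rw [haa1]; exact ha1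
    have pa : ∀ i ≤ 1, 0 < ψ (cs.simple (a i)) := by
      intro i hi
      have : i = 0 ∨ i = 1 := by omega
      rcases this with rfl | rfl
      · rw [haa0]; exact p0
      · rw [haa1]; exact p1
    obtain ⟨i, hi, hri⟩ : ∃ i ≤ 1, a i = r := by
      rw [hL] at hr
      simp only [Finset.mem_insert, Finset.mem_singleton] at hr
      rcases hr with rfl | rfl | rfl | rfl
      · exact ⟨1, le_rfl, haa1⟩
      · exact ⟨0, by omega, haa0⟩
      · exact absurd pr n0
      · exact absurd pr n1
    have hi1 : i = 1 := h.I_end p le_rfl hb0 n0 haL pa hi (by rw [hri]; exact hrs)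
    subst hi1
    rw [haa1] at hri
    subst hri
    have hrs' : M (a 1) s ≠ 2 := by rw [haa1]; exact hrs
    have hzero := h.I_zero p le_rfl hb0 n0 haL pa hrs'
    rw [haa1] at hzero
    -- `c`
    obtain ⟨c', c1, hcc, hc1, hc'⟩ := exists_dec cs {a0} c
    have hTK : ({a0} : Finset B) ⊆ L.erase a1 := by
      intro t ht
      rw [Finset.mem_singleton] at ht
      rw [ht, Finset.mem_erase]
      exact ⟨da.symm, ha0⟩
    have hc1K := WP_mono cs hTK hc1
    have hc'K : c' ∈ WP cs (L.erase a1) := by
      have : c' = c * c1⁻¹ := by rw [hcc]; simp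
      rw [this]; exact mul_mem hcm (inv_mem hc1K)
    have hmx1 : IsMax cs ψ {a0} c1 := (h.I_mx0 hr pr hrs).part h.wt hTK hcc hc1 hc'
    have hrT : a1 ∉ ({a0} : Finset B) := by rw [Finset.mem_singleton]; exact da
    have hz0 : 0 < rho cs c1 (al a1) a0 := by
      have e2 := max_fB h.wt hmx1 hrT (t := a0) (by simp) p0
      have e3 : 0 ≤ rho cs c1 (al a1) := (al_nonneg _).trans (al_le_chain hrT c1 hc1)
      have e4 := fB_le_term (M := M) e3 (r := a0) (q := a1) da
      rw [cc_of_eq_three M m1, rho_coord cs hc1 _ hrT, al_self] at e4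
      linarith
    have hlet := letter_coord' hc1K (Finset.notMem_erase _ _) (hpn p1 n0).symm (hpn p0 n0).symm
      (by rw [M.symmetric, m2]; norm_num) hz0 c' hc'K (length_mul_of_pos cs hc' hc1)
      (by rw [← hcc]; exact hzero)
    have hsubT : (L.erase a1).erase b0 ⊆ {a0} ∪ {b1} := by
      intro t ht
      rw [Finset.mem_erase, Finset.mem_erase, hL] at ht
      simp only [Finset.mem_insert, Finset.mem_singleton] at ht
      simp only [Finset.mem_union, Finset.mem_singleton]
      tauto
    have hcT0 : c ∈ WP cs ({a0} ∪ {b1}) := by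
      rw [hcc]
      exact mul_mem (WP_mono cs hsubT hlet) (WP_mono cs Finset.subset_union_left hc1)
    have hUK : ({a0} ∪ {b1} : Finset B) ⊆ L.erase a1 := by
      intro t ht
      simp only [Finset.mem_union, Finset.mem_singleton] at ht
      rw [Finset.mem_erase]
      rcases ht with rfl | rfl
      · exact ⟨da.symm, ha0⟩
      · exact ⟨(hpn p1 n1).symm, hb1⟩
    have hcmx : IsMax cs ψ ({a0} ∪ {b1}) c := (h.I_mx0 hr pr hrs).part h.wt hUK
      (v := 1) (x := c) (by rw [one_mul]) hcT0 (fun t _ => by rw [rho_one]; exact al_nonneg t)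
    have hcT : c ∈ WP cs (tset a 1) := by
      have h1 : c ∈ WP cs {a0} := hcmx.comm_drop h.wt (by
        intro x hx z hz
        rw [Finset.mem_singleton] at hx hz
        rw [hx, hz]; exact m6) (by
        intro z hz
        rw [Finset.mem_singleton] at hz
        rw [hz]; exact n1)
      apply WP_mono cs _ h1
      intro t ht
      rw [Finset.mem_singleton] at ht
      rw [ht, mem_tset]
      exact ⟨0, by omega, haa0⟩
    obtain ⟨gJ, mJ, hJ, hmJ, hgJ⟩ := exists_dec cs (vset b0 a 2) y
    refine h.I_final p le_rfl hb0 haL pa hrs' hcT hJ hmJ hgJ ?_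
    intro hmT
    -- compare with the decomposition on `L ∖ b0`
    obtain ⟨g2, m2', hm2, hm2', hg2⟩ := exists_dec cs ({a1, a0} ∪ {b1}) m
    have hU2 : ({a1, a0} ∪ {b1} : Finset B) ⊆ L := by
      intro t ht
      simp only [Finset.mem_union, Finset.mem_insert, Finset.mem_singleton] at ht
      rcases ht with (rfl | rfl) | rfl <;> assumption
    have hmx2 : IsMax cs ψ ({a1, a0} ∪ {b1}) m2' := h.mxL.part h.wt hU2 hm2 hm2' hg2
    have hm2T : m2' ∈ WP cs {a1, a0} := hmx2.comm_drop h.wt (by
        intro x hx z hz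
        rw [Finset.mem_insert, Finset.mem_singleton] at hx
        rw [Finset.mem_singleton] at hz
        rw [hz]
        rcases hx with rfl | rfl
        · exact m5
        · exact m6) (by
        intro z hz
        rw [Finset.mem_singleton] at hz
        rw [hz]; exact n1)
    have hTeq : tset a 2 = {a1, a0} := by
      ext t
      rw [mem_tset, Finset.mem_insert, Finset.mem_singleton]
      constructor
      · rintro ⟨j, hj, rfl⟩
        have : j = 0 ∨ j = 1 := by omega
        rcases this with rfl | rfl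
        · right; exact haa0
        · left; exact haa1
      · rintro (rfl | rfl)
        · exact ⟨1, by omega, haa1⟩
        · exact ⟨0, by omega, haa0⟩
    rw [show (1 + 1 : ℕ) = 2 by norm_num, hTeq] at hmT
    have hg2' : ∀ t ∈ L, t ≠ b0 → 0 ≤ rho cs (g * g2) (al t) := by
      intro t ht htb
      have htU : t ∈ ({a1, a0} ∪ {b1} : Finset B) := by
        rw [hL] at ht
        simp only [Finset.mem_insert, Finset.mem_singleton] at ht
        simp only [Finset.mem_union, Finset.mem_insert, Finset.mem_singleton]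
        tauto
      have hg2L : g2 ∈ WP cs L := by
        have : g2 = m * m2'⁻¹ := by rw [hm2]; simp
        rw [this]; exact mul_mem h.mm (inv_mem (WP_mono cs hU2 hm2'))
      rw [rho_mul]
      exact h.g_nonneg (hg2 t htU) (supp_rho cs hg2L ht)
    have heq : gJ * mJ = (g * g2) * m2' := by rw [← hJ, h.dec, hm2, mul_assoc]
    have hJsub : ({a1, a0} : Finset B) ⊆ vset b0 a 2 := by
      rw [← hTeq]; exact tset_sub_vset _ _ _
    obtain ⟨e1, e2⟩ := dec_unique cs (K := {a1, a0}) heq hmT hm2T
      (fun t ht => hgJ t (hJsub ht))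
      (fun t ht => hg2' t (hU2 (Finset.mem_union_left _ ht)) (by
        rw [Finset.mem_insert, Finset.mem_singleton] at ht
        rcases ht with rfl | rfl
        · exact hpn p1 n0
        · exact hpn p0 n0))
    -- `g * g2` is reduced with respect to all of `L`
    have hgg : ∀ t ∈ L, 0 ≤ rho cs (g * g2) (al t) := by
      intro t ht
      by_cases htb : t = b0
      · rw [htb, ← e1]
        exact hgJ b0 (mem_vset.2 (Or.inl rfl))
      · exact hg2' t ht htb
    have heq2 : (g * g2) * m2' = g * m := by rw [hm2, mul_assoc]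
    have e3 := (dec_unique cs heq2 (WP_mono cs hU2 hm2') h.mm hgg h.gp).2
    refine h.full b0 hb0 (hns (K := {a1, a0} ∪ {b1}) (by rw [← e3]; exact hm2') hU2 ?_ hb0)
    simp only [Finset.mem_union, Finset.mem_insert, Finset.mem_singleton, not_or]
    exact ⟨⟨(hpn p1 n0).symm, (hpn p0 n0).symm⟩, db⟩

end Cr

end Pool.Agent.H44.Cox
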