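import Mathlib
import Pool.Agent.H44.Cox.CaseI2

set_option autoImplicit false
set_option linter.unusedSectionVars false
set_option linter.unusedSimpArgs false
set_option linter.unusedVariables false

/-! # Case II: all generators attached to `s` have nonpositive weight; first types -/

namespace Pool.Agent.H44.Cox

open CoxeterSystem Pool.Agent.H80.Cox

variable {B : Type*} [Fintype B] [DecidableEq B] {W : Type*} [Group W]
variable {M : CoxeterMatrix B} {cs : CoxeterSystem M W}
variable {ψ : W → ℝ} {L : Finset B} {s : B} {y g m u c : W}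

/-- counting inversions of positive weight -/
theorem count_le (hψ : IsWeight cs ψ) {K : Finset B} {α : ℝ} (hα : 0 ≤ α)
    (hpos : ∀ r ∈ K, ψ (cs.simple r) ≤ α) : ∀ w ∈ WP cs K, ∀ F : Set (B → ℝ), F.Finite →
      (∀ x, IsPR cs ψ x → 0 ≤ x → (∀ i ∉ K, x i = 0) → rho cs w x ≤ 0 → x ∈ F) →
      ψ w ≤ α * F.ncard := by
  apply WP_induction
  · intro F _ _
    rw [hψ.one]; positivity
  · intro w hw t ht hl ih F hF hFx
    rw [hψ.mul_simple cs hl]
    have hpt := tits_pos cs w t hl
    by_cases pt : 0 < ψ (cs.simple t)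
    · -- positive letter
      have hmem : al t ∈ F := by
        apply hFx _ (IsPR.al pt) (al_nonneg t)
        · intro i hi
          exact al_ne (by rintro rfl; exact hi ht)
        · rw [rho_mul_simple_al]; exact neg_nonpos.2 hpt
      have h1 := ih ((rho cs (cs.simple t)) '' (F \ {al t})) ((hF.sdiff).image _) ?_
      · have h2 : ((rho cs (cs.simple t)) '' (F \ {al t})).ncard ≤ (F \ {al t}).ncard :=
          Set.ncard_image_le hF.sdiff
        have h3 : (F \ {al t}).ncard + 1 = F.ncard := Set.ncard_sdiff_singleton_add_one hmem hF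
        have h4 : (((rho cs (cs.simple t)) '' (F \ {al t})).ncard : ℝ) + 1 ≤ F.ncard := by
          exact_mod_cast (by omega : ((rho cs (cs.simple t)) '' (F \ {al t})).ncard + 1 ≤ F.ncard)
        have h5 := hpos t ht
        nlinarith
      · intro x hx hx0 hxs hxw
        have h6 : 0 ≤ rho cs (cs.simple t) x := by
          rcases (hx.isRt.rho (cs.simple t)).pos_or_neg with h7 | h7
          · exact h7
          · exfalso
            have h8 := hx.isRt.eq_al hx0 h7
            rw [h8] at hxw
            exact not_pos_and_neg cs hpt hxw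
        refine ⟨rho cs (cs.simple t) x, ⟨hFx _ (hx.rho _) h6 ?_ ?_, ?_⟩, ?_⟩
        · intro i hi
          rw [rho_coord cs (simple_mem cs ht) _ hi, hxs i hi]
        · rw [← rho_mul, simple_mul_simple_cancel_right]; exact hxw
        · intro he
          rw [Set.mem_singleton_iff] at he
          have h9 : x = - al t := by
            have := congrArg (rho cs (cs.simple t)) he
            rw [← rho_mul, cs.simple_mul_simple_self, rho_one, rho_simple, sig_al_self] at this
            exact this
          rw [h9] at hx0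
          exact (IsRt.al (cs := cs) t).false (al_nonneg t) (neg_nonneg.1 hx0)
        · rw [← rho_mul, cs.simple_mul_simple_self, rho_one]
    · have h1 := ih ((rho cs (cs.simple t)) '' F) (hF.image _) ?_
      · have h2 : ((rho cs (cs.simple t)) '' F).ncard ≤ F.ncard := Set.ncard_image_le hF
        have h3 : (((rho cs (cs.simple t)) '' F).ncard : ℝ) ≤ F.ncard := by exact_mod_cast h2
        nlinarith
      · intro x hx hx0 hxs hxw
        have h6 : 0 ≤ rho cs (cs.simple t) x := by
          rcases (hx.isRt.rho (cs.simple t)).pos_or_neg with h7 | h7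
          · exact h7
          · exfalso
            have h8 := hx.isRt.eq_al hx0 h7
            rw [h8] at hxw
            exact not_pos_and_neg cs hpt hxw
        refine ⟨rho cs (cs.simple t) x, hFx _ (hx.rho _) h6 ?_ ?_, ?_⟩
        · intro i hi
          rw [rho_coord cs (simple_mem cs ht) _ hi, hxs i hi]
        · rw [← rho_mul, simple_mul_simple_cancel_right]; exact hxw
        · rw [← rho_mul, cs.simple_mul_simple_self, rho_one]

/-- two generators of opposite sign -/
lemma two_aux (hψ : IsWeight cs ψ) {p q : B} (hne : p ≠ q) (pp : 0 < ψ (cs.simple p))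
    (nq : ¬ 0 < ψ (cs.simple q)) {v : W} (hvmax : IsMax cs ψ {p, q} v)
    (hvp : v ≠ cs.simple p) : rho cs v (rho cs (cs.simple q) (al p)) ≤ 0 := by
  have hv := hvmax.mem
  have h1 : rho cs v (al p) ≤ 0 := hvmax.neg hψ (by simp) pp
  rw [neg_iff] at h1
  set v1 := v * cs.simple p with hv1
  have hv1v : v = v1 * cs.simple p := by rw [hv1]; simp
  have hv11 : v1 ≠ 1 := by
    intro h0
    apply hvp
    rw [hv1v, h0, one_mul]
  have hv1m : v1 ∈ WP cs {p, q} := simple_mul_mem cs hv (by simp)
  obtain ⟨r, hr⟩ := cs.exists_rightDescent_of_ne_one hv11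
  rw [isRightDescent_iff] at hr
  have hrpq := desc_mem cs hv1m (tits_neg cs v1 r hr)
  have hrq : r = q := by
    rcases Finset.mem_insert.1 hrpq with rfl | hrq
    · exfalso
      rw [← hv1v] at hr
      omega
    · exact Finset.mem_singleton.1 hrq
  subst hrq
  set v2 := v1 * cs.simple r with hv2
  have hv2v : v1 = v2 * cs.simple r := by rw [hv2]; simp
  have hv2m : v2 ∈ WP cs {p, r} := simple_mul_mem cs hv1m (by simp)
  have e1 : ψ v = ψ v1 + ψ (cs.simple p) := by
    have := hψ.mul_simple cs (w := v1) (s := p) (by rw [← hv1v]; omega)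
    rwa [← hv1v] at this
  have e2 : ψ v1 = ψ v2 + ψ (cs.simple r) := by
    have := hψ.mul_simple cs (w := v2) (s := r) (by rw [← hv2v]; omega)
    rwa [← hv2v] at this
  rw [← rho_mul]
  apply neg_of_not_pos
  intro hpos
  rw [pos_iff] at hpos
  have h3 : 0 ≤ rho cs v (al r) := hvmax.pos hψ nq
  rw [pos_iff] at h3
  have e3 := hψ.mul_simple cs h3
  have e4 := hψ.mul_simple cs hpos
  have h4 := hvmax.le (v * cs.simple r * cs.simple p)
    (simple_mul_mem cs (simple_mul_mem cs hv (by simp)) (by simp))
  have h5 := hvmax.len' hv2m (by linarith)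
  omega

/-- the longest element of type `A` reverses the `e_i` -/
lemma BPath.rev {x0 : B} {a : ℕ → B} {k : ℕ} (p : BPath M x0 a k) {w : W}
    (hw : w ∈ WP cs (tset a (k + 1))) (h : ∀ i ≤ k, rho cs w (al (a i)) ≤ 0) :
    ∀ i ≤ k + 1, rho cs w (ev x0 a i) = ev x0 a (k + 1 - i) := by
  have h1 : ∀ i ≤ k + 1, ∃ j ≤ k + 1, rho cs w (ev x0 a i) = ev x0 a j := fun i hi =>
    (p.perm_t (n := k + 1) le_rfl w hw i hi).1 hi
  -- strictly decreasing
  have h2 : ∀ i ≤ k, ∀ j j', j ≤ k + 1 → j' ≤ k + 1 → rho cs w (ev x0 a i) = ev x0 a j →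
      rho cs w (ev x0 a (i + 1)) = ev x0 a j' → j' < j := by
    intro i hi j j' hj hj' e1 e2
    have h3 := anti (x0 := x0) h (Nat.le_succ i) (by omega)
    rw [e1, e2] at h3
    have h4 := p.ev_le hj' hj h3
    rcases lt_or_eq_of_le h4 with h5 | h5
    · exact h5
    · exfalso
      have h6 : ev x0 a i = ev x0 a (i + 1) := rho_injective cs w (by rw [e1, e2, h5])
      have := p.ev_inj (by omega) (by omega) h6
      omega
  have up : ∀ i ≤ k + 1, ∀ j ≤ k + 1, rho cs w (ev x0 a i) = ev x0 a j → j + i ≤ k + 1 := by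
    intro i
    induction i with
    | zero => intro _ j hj _; omega
    | succ i ih =>
      intro hi j hj e
      obtain ⟨j0, hj0, e0⟩ := h1 i (by omega)
      have := h2 i (by omega) j0 j hj0 hj e0 e
      have := ih (by omega) j0 hj0 e0
      omega
  have down : ∀ d ≤ k + 1, ∀ j ≤ k + 1, rho cs w (ev x0 a (k + 1 - d)) = ev x0 a j → d ≤ j := by
    intro d
    induction d with
    | zero => intro _ j hj _; omega
    | succ d ih =>
      intro hd j hj e
      obtain ⟨j0, hj0, e0⟩ := h1 (k + 1 - d) (by omega)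
      have h3 := ih (by omega) j0 hj0 e0
      have h4 := h2 (k + 1 - (d + 1)) (by omega) j j0 hj hj0 e
        (by rw [show k + 1 - (d + 1) + 1 = k + 1 - d by omega]; exact e0)
      omega
  intro i hi
  obtain ⟨j, hj, e⟩ := h1 i hi
  have h3 := up i hi j hj e
  have h4 := down (k + 1 - i) (by omega) j hj (by rw [show k + 1 - (k + 1 - i) = i by omega]; exact e)
  rw [e, show j = k + 1 - i by omega]

lemma BPath.isPR_ev {x0 : B} {a : ℕ → B} {k : ℕ} (p : BPath M x0 a k)
    (hp : 0 < ψ (cs.simple x0)) : ∀ i ≤ k + 1, IsPR cs ψ (ev x0 a i) := by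
  intro i
  induction i with
  | zero => intro _; exact IsPR.al hp
  | succ i ih =>
    intro hi
    have h1 := (ih (by omega)).rho (cs.simple (a i))
    rw [rho_simple, p.sig_y (by omega) (by omega), if_pos rfl] at h1
    exact h1

namespace Cr

variable (h : Cr cs ψ L s y g m u c)
include h

lemma II_att : ∃ q ∈ L, M q s ≠ 2 := by
  by_contra hcon
  push Not at hcon
  obtain ⟨v, r, hp⟩ := h.exists_pi
  refine h.irr {s} L rfl ⟨s, by simp⟩ ⟨r, hp.2.1⟩ ?_
  intro a ha t ht
  rw [Finset.mem_singleton] at ha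
  rw [ha, M.symmetric]
  exact hcon t ht

/-- type `B`, positive end, negative path -/
theorem II_del (hII : ∀ r ∈ L, 0 < ψ (cs.simple r) → M r s = 2) {x0 : B} {a : ℕ → B} {k : ℕ}
    (p : BPath M x0 a k) (hL : L = vset x0 a (k + 1)) (px : 0 < ψ (cs.simple x0))
    (na : ∀ i ≤ k, ¬ 0 < ψ (cs.simple (a i))) : False := by
  have hs := sqrt2_sq
  have hs0 := sqrt2_pos
  have hx0 : x0 ∈ L := by rw [hL, mem_vset]; exact Or.inl rfl
  have haL : ∀ i ≤ k, a i ∈ L := by
    intro i hi
    rw [hL, mem_vset]; exact Or.inr ⟨i, by omega, rfl⟩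
  have hx0s := hII x0 hx0 px
  have hm : m ∈ WP cs (vset x0 a (k + 1)) := by rw [← hL]; exact h.mm
  have hmneg : ∀ i ≤ k + 1, rho cs m (ev x0 a i) ≤ 0 := by
    intro i hi
    refine p.lemGp hm (fun i hi => h.mxL.pos h.wt (na i hi))
      (fun i hi => (h.mxL.inv h.wt).pos h.wt (na i hi)) ?_ hi
    rw [← hL]
    exact h.full _ (haL k le_rfl)
  have hsupp : ∀ n ≤ k + 1, ∀ i ∉ L, ev x0 a n i = 0 := by
    intro n hn i hi
    exact ev_supp (by rintro rfl; exact hi hx0) (fun j hj => by
      rintro rfl; exact hi (haL j (by omega)))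
  have hyneg : ∀ i ≤ k + 1, rho cs y (ev x0 a i) ≤ 0 := by
    intro i hi
    rw [h.dec, rho_mul]
    apply h.g_nonpos (hmneg i hi)
    intro j hj
    rw [rho_coord cs h.mm _ hj, hsupp i hi j hj]
  have evpos : ∀ {j n : ℕ}, j < n → n ≤ k + 1 → 0 < ev x0 a n (a j) := by
    intro j n hj hn
    have h1 := ev_mono x0 a (show j + 1 ≤ n by omega) (a j)
    have h2 : ev x0 a (j + 1) (a j) = ev x0 a j (a j) + Real.sqrt 2 := by
      rw [ev_succ, Pi.add_apply, Pi.smul_apply, al_self, smul_eq_mul, mul_one]
    have h3 : 0 ≤ ev x0 a j (a j) := ev_nonneg _ _ _ _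
    linarith
  -- attached e_i are in A
  have hA : ∀ {j n : ℕ}, j < n → n ≤ k + 1 → M (a j) s ≠ 2 → rho cs u (ev x0 a n) ≤ 0 := by
    intro j n hj hn hadj
    have h1 : (rho cs c⁻¹ (ev x0 a n)) (a j) = ev x0 a n (a j) := by
      apply rho_coord cs (inv_mem h.cm)
      rw [Finset.mem_filter]
      exact fun hx => hadj hx.2
    have h2 := evpos hj hn
    have h3 : 0 ≤ rho cs c⁻¹ (ev x0 a n) :=
      ((p.ev_isRt (cs := cs) hn).rho _).pos_of_coord (i := a j) (by rw [h1]; exact h2)
    obtain ⟨l, hl, h4⟩ := p.pm_nonneg (inv_mem (by rw [← hL]; exact h.cL)) hn h3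
    rw [h.rho_u, h4]
    exact hyneg l hl
  -- the distinguished root
  obtain ⟨v, r, hp⟩ := h.exists_pi
  have hrx : r = x0 := by
    have := hp.2.1
    rw [hL, mem_vset] at this
    rcases this with h1 | ⟨i, hi, rfl⟩
    · exact h1
    · exact absurd hp.2.2.1 (na i (by omega))
  subst hrx
  have hvL : v ∈ WP cs (vset r a (k + 1)) := by rw [← hL]; exact WP_mono cs negS_sub hp.1
  obtain ⟨l, hl, hπ⟩ := p.pm_nonneg (i := 0) hvL (by omega) (by rw [ev_zero]; exact hp.nonneg)
  rw [ev_zero] at hπ
  have hdd : ∀ {j n : ℕ}, j < n → n ≤ k + 1 → M (a j) s ≠ 2 → l = n := by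
    intro j n hj hn hadj
    have h1 := hp.DD_pos (p.isPR_ev px n hn) (ev_nonneg _ _ _) (hsupp n hn) (hA hj hn hadj)
    rw [hπ, p.bil_ev hl hn] at h1
    by_contra hne
    rw [if_neg hne] at h1
    norm_num at h1
  -- the attached vertex is the end of the path
  have hend : ∀ j ≤ k, M (a j) s ≠ 2 → j = k := by
    intro j hj hadj
    have h1 := hdd (n := j + 1) (by omega) (by omega) hadj
    have h2 := hdd (n := k + 1) (by omega) le_rfl hadj
    omega
  obtain ⟨q, hq, hqs⟩ := h.II_att
  have hks : M (a k) s ≠ 2 := by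
    rw [hL, mem_vset] at hq
    rcases hq with rfl | ⟨i, hi, rfl⟩
    · exact absurd hx0s hqs
    · have := hend i (by omega) hqs
      rw [← this]; exact hqs
  have hothers : ∀ j < k, M (a j) s = 2 := by
    intro j hj
    by_contra hcon
    have := hend j (by omega) hcon
    omega
  have hlk := hdd (j := k) (n := k + 1) (by omega) le_rfl hks
  subst hlk
  -- the label
  have hc0 : - fB M s (rho cs v (al r)) = Real.sqrt 2 * cc M (a k) s := by
    rw [hπ, fB_ev, Finset.sum_range_succ, cc_of_eq_two M hx0s]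
    have : ∑ i ∈ Finset.range k, cc M (a i) s = 0 := by
      apply Finset.sum_eq_zero
      intro i hi
      exact cc_of_eq_two M (hothers i (Finset.mem_range.1 hi))
    rw [this]; ring
  have h3 : M (a k) s = 3 := by
    by_contra hcon
    have h4 := M.off_diagonal (a k) s (h.ls_ne (haL k le_rfl))
    have h5 := half_le_cc_sq M (s := a k) (t := s) (by omega)
    have h6 := hp.c_lt
    rw [hc0] at h6
    nlinarith
  -- `K` is finite
  apply h.nfin
  have p' : BPath M r (fun i => if i ≤ k then a i else s) (k + 1) := by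
    refine ⟨?_, ?_, ?_, ?_⟩
    · simpa using p.h4
    · intro i h1 h2
      by_cases h4 : i ≤ k
      · simp only [h4, if_true]; exact p.h2 i h1 h4
      · simp only [h4, if_false]; exact hx0s
    · intro i h1
      by_cases h4 : i + 1 ≤ k
      · simp only [h4, show i ≤ k by omega, if_true]; exact p.h3 i (by omega)
      · have : i = k := by omega
        subst this
        simp only [le_refl, h4, if_true, if_false]; exact h3
    · intro i j h1 h2
      by_cases h4 : j ≤ k
      · simp only [h4, show i ≤ k by omega, if_true]; exact p.h22 i j h1 h4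
      · simp only [h4, show i ≤ k by omega, if_true, if_false]; exact hothers i (by omega)
  have hfin := p'.finS (cs := cs)
  convert hfin using 1
  rw [hL]
  ext t
  simp only [Finset.mem_insert, mem_vset]
  constructor
  · rintro (rfl | rfl | ⟨i, hi, rfl⟩)
    · exact Or.inr ⟨k + 1, by omega, by simp⟩
    · exact Or.inl rfl
    · exact Or.inr ⟨i, by omega, by simp [show i ≤ k by omega]⟩
  · rintro (rfl | ⟨i, hi, rfl⟩)
    · exact Or.inr (Or.inl rfl)
    · by_cases h4 : i ≤ k
      · simp only [h4, if_true]; exact Or.inr (Or.inr ⟨i, by omega, rfl⟩)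
      · simp [h4]

/-- two generators, large label -/
theorem II_two (hII : ∀ r ∈ L, 0 < ψ (cs.simple r) → M r s = 2) {p q : B} (hL : L = {p, q})
    (hpq : p ≠ q) (pp : 0 < ψ (cs.simple p)) (nq : ¬ 0 < ψ (cs.simple q))
    (hκ : 3 / 4 ≤ cc M p q ^ 2) : False := by
  have hp : p ∈ L := by rw [hL]; simp
  have hq : q ∈ L := by rw [hL]; simp
  have hps := hII p hp pp
  have hqs : M q s ≠ 2 := by
    obtain ⟨t, ht, hts⟩ := h.II_att
    rw [hL, Finset.mem_insert, Finset.mem_singleton] at ht
    rcases ht with rfl | rfl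
    · exact absurd hps hts
    · exact hts
  have hκ0 := cc_nonneg M hpq
  set κ := cc M p q with hκd
  -- `c`
  have hcp : c = cs.simple p := by
    have h1 : c ∈ WP cs {p} := by
      apply WP_mono cs _ h.cm
      intro t ht
      rw [Finset.mem_filter, hL, Finset.mem_insert, Finset.mem_singleton] at ht
      rw [Finset.mem_singleton]
      rcases ht.1 with rfl | rfl
      · rfl
      · exact absurd ht.2 hqs
    rcases mem_WP_singleton h1 with h2 | h2
    · exfalso
      have h3 := h.mx0.neg h.wt (r := p) (by rw [Finset.mem_filter]; exact ⟨hp, hps⟩) pp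
      rw [h2, rho_one] at h3
      exact (IsRt.al (cs := cs) p).false (al_nonneg p) h3
    · exact h2
  -- the distinguished root
  obtain ⟨v, r, hπ⟩ := h.exists_pi
  have hrp : r = p := by
    have := hπ.2.1
    rw [hL, Finset.mem_insert, Finset.mem_singleton] at this
    rcases this with h1 | h1
    · exact h1
    · exact absurd (h1 ▸ hπ.2.2.1) nq
  subst hrp
  have hv : v = 1 ∨ v = cs.simple q := by
    apply mem_WP_singleton
    apply WP_mono cs _ hπ.1
    intro t ht
    rw [mem_negS, hL, Finset.mem_insert, Finset.mem_singleton] at ht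
    rw [Finset.mem_singleton]
    rcases ht.1 with h1 | h1
    · exact absurd (h1 ▸ pp) ht.2
    · exact h1
  have hvq : v = cs.simple q := by
    rcases hv with h1 | h1
    · exfalso
      have h2 := hπ.c_sq.1
      rw [h1, rho_one, fB_al, neg_neg, cc_of_eq_two M hps] at h2
      exact lt_irrefl _ h2
    · exact h1
  have hπe : rho cs v (al r) = al r + (2 * κ) • al q := by
    rw [hvq, rho_simple, sig_al]
  have hc0 : - fB M s (rho cs v (al r)) = 2 * κ * cc M q s := by
    rw [hπe, map_add, map_smul, fB_al, fB_al, cc_of_eq_two M hps, smul_eq_mul]; ring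
  have h3 : M q s = 3 := by
    by_contra hcon
    have h4 := M.off_diagonal q s (h.ls_ne hq)
    have h5 := half_le_cc_sq M (s := q) (t := s) (by omega)
    have h6 := hπ.c_lt
    rw [hc0] at h6
    nlinarith
  have hcq := cc_of_eq_three M h3
  -- the second root
  set β := rho cs (cs.simple r) (rho cs v (al r)) with hβ
  have hβe : β = (4 * κ ^ 2 - 1) • al r + (2 * κ) • al q := by
    rw [hβ, hπe, rho_simple, map_add, map_smul, sig_al_self, sig_al, cc_symm M q r, ← hκd]
    module
  have hβp : IsPR cs ψ β := hπ.isPR.rho _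
  have hβ0 : 0 ≤ β := by
    rw [hβe]
    exact add_nonneg (smul_nonneg (by nlinarith) (al_nonneg _))
      (smul_nonneg (by linarith) (al_nonneg _))
  have hβs : ∀ i ∉ L, β i = 0 := by
    intro i hi
    rw [hβe, Pi.add_apply, Pi.smul_apply, Pi.smul_apply, al_ne (by rintro rfl; exact hi hp),
      al_ne (by rintro rfl; exact hi hq)]
    simp
  have hmv : rho cs m (rho cs v (al r)) ≤ 0 := by
    rw [hvq]
    apply two_aux h.wt hpq pp nq (by rw [← hL]; exact h.mxL)
    intro hmp
    apply h.full q hq
    rw [hmp]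
    exact simple_mem cs (Finset.mem_erase.2 ⟨hpq, hp⟩)
  have hβu : rho cs u β ≤ 0 := by
    rw [h.rho_u, hβ, hcp, inv_simple, ← rho_mul cs (cs.simple r), cs.simple_mul_simple_self,
      rho_one, h.dec, rho_mul]
    apply h.g_nonpos hmv
    intro i hi
    rw [rho_coord cs h.mm _ hi, hπ.supp i hi]
  have hDD := hπ.DD hβp hβ0 hβs hβu
  have e1 : - fB M s β = κ := by
    rw [hβe, map_add, map_smul, map_smul, fB_al, fB_al, cc_of_eq_two M hps, hcq, smul_eq_mul,
      smul_eq_mul]
    ring
  have e2 : bil M (rho cs v (al r)) β = 8 * κ ^ 2 - 8 * κ ^ 4 - 1 := by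
    rw [hπe, hβe]
    rw [bil_add_left, bil_add_right, bil_add_right]
    simp only [bil_smul_left, bil_smul_right, bil_al_right, map_smul, smul_eq_mul, fB_al, cc_self,
      cc_symm M q r]
    rw [← hκd]
    ring
  rw [hc0, e1, e2, hcq] at hDD
  nlinarith [mul_nonneg (sq_nonneg κ) (sub_nonneg.2 hκ)]

end Cr

end Pool.Agent.H44.Cox
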