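import Mathlib
import Pool.Agent.H44.Cox.CaseII

set_option autoImplicit false
set_option linter.unusedSectionVars false
set_option linter.unusedSimpArgs false
set_option linter.unusedVariables false

/-! # Type `F₄` -/

namespace Pool.Agent.H44.Cox

open CoxeterSystem Pool.Agent.H80.Cox

variable {B : Type*} [Fintype B] [DecidableEq B] {W : Type*} [Group W]
variable {M : CoxeterMatrix B} {cs : CoxeterSystem M W}
variable {ψ : W → ℝ}

/-- `a₁ -3- a₀ -4- b₀ -3- b₁` -/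
structure FD (M : CoxeterMatrix B) (a1 a0 b0 b1 : B) : Prop where
  m1 : M a1 a0 = 3
  m2 : M a0 b0 = 4
  m3 : M b0 b1 = 3
  m4 : M a1 b0 = 2
  m5 : M a1 b1 = 2
  m6 : M a0 b1 = 2

/-- the path `a₀, a₁` -/
def pth (a0 a1 : B) : ℕ → B := fun i => if i = 0 then a0 else a1

lemma pth_zero (a0 a1 : B) : pth a0 a1 0 = a0 := by simp [pth]

lemma pth_one (a0 a1 : B) : pth a0 a1 1 = a1 := by simp [pth]

/-- integral combinations of the orthonormal basis -/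
noncomputable def V (a1 a0 b0 b1 : B) (n : ℤ × ℤ × ℤ × ℤ) : B → ℝ :=
  ((n.1 : ℝ) + n.2.2.2) • ev b0 (pth a0 a1) 0 + ((n.2.1 : ℝ) + n.2.2.2) • ev b0 (pth a0 a1) 1 +
    ((n.2.2.1 : ℝ) + n.2.2.2) • ev b0 (pth a0 a1) 2 + (2 * (n.2.2.2 : ℝ)) • al b1

namespace FD

variable {a1 a0 b0 b1 : B} (f : FD M a1 a0 b0 b1)
include f

lemma path : BPath M b0 (pth a0 a1) 1 := by
  refine ⟨?_, ?_, ?_, ?_⟩
  · rw [pth_zero, M.symmetric]; exact f.m2
  · intro i h1 h2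
    rw [show i = 1 by omega, pth_one, M.symmetric]; exact f.m4
  · intro i hi
    rw [show i = 0 by omega, pth_zero, pth_one, M.symmetric]; exact f.m1
  · intro i j h1 h2; omega

lemma ne1 : a1 ≠ a0 := by rintro rfl; have := f.m1; rw [M.diagonal] at this; omega
lemma ne2 : a0 ≠ b0 := by rintro rfl; have := f.m2; rw [M.diagonal] at this; omega
lemma ne3 : b0 ≠ b1 := by rintro rfl; have := f.m3; rw [M.diagonal] at this; omega
lemma ne4 : a1 ≠ b0 := by rintro rfl; have := f.m4; rw [M.diagonal] at this; omega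
lemma ne5 : a1 ≠ b1 := by rintro rfl; have := f.m5; rw [M.diagonal] at this; omega
lemma ne6 : a0 ≠ b1 := by rintro rfl; have := f.m6; rw [M.diagonal] at this; omega

lemma fB_b1_ev {i : ℕ} (hi : i ≤ 2) : fB M b1 (ev b0 (pth a0 a1) i) = - (1 / 2) := by
  rw [fB_ev, cc_of_eq_three M f.m3]
  have : ∑ j ∈ Finset.range i, cc M (pth a0 a1 j) b1 = 0 := by
    apply Finset.sum_eq_zero
    intro j hj
    rw [Finset.mem_range] at hj
    have : j = 0 ∨ j = 1 := by omega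
    rcases this with rfl | rfl
    · rw [pth_zero]; exact cc_of_eq_two M f.m6
    · rw [pth_one]; exact cc_of_eq_two M f.m5
  rw [this]; ring

/-- action of the generators -/
lemma sig_a0 (n : ℤ × ℤ × ℤ × ℤ) : sig M a0 (V a1 a0 b0 b1 n) =
    V a1 a0 b0 b1 (n.2.1, n.1, n.2.2.1, n.2.2.2) := by
  have p := f.path
  have h0 := p.sig_y (i := 0) (j := 0) (by omega) (by omega)
  have h1 := p.sig_y (i := 1) (j := 0) (by omega) (by omega)
  have h2 := p.sig_y (i := 2) (j := 0) (by omega) (by omega)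
  have h3 : sig M a0 (al b1) = al b1 := by
    rw [sig_al, cc_symm M, cc_of_eq_two M f.m6]; simp
  rw [pth_zero] at h0 h1 h2
  norm_num at h0 h1 h2
  unfold V
  rw [map_add, map_add, map_add, map_smul, map_smul, map_smul, map_smul, h0, h1, h2, h3]
  module

lemma sig_a1 (n : ℤ × ℤ × ℤ × ℤ) : sig M a1 (V a1 a0 b0 b1 n) =
    V a1 a0 b0 b1 (n.1, n.2.2.1, n.2.1, n.2.2.2) := by
  have p := f.path
  have h0 := p.sig_y (i := 0) (j := 1) (by omega) (by omega)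
  have h1 := p.sig_y (i := 1) (j := 1) (by omega) (by omega)
  have h2 := p.sig_y (i := 2) (j := 1) (by omega) (by omega)
  have h3 : sig M a1 (al b1) = al b1 := by
    rw [sig_al, cc_symm M, cc_of_eq_two M f.m5]; simp
  rw [pth_one] at h0 h1 h2
  norm_num at h0 h1 h2
  unfold V
  rw [map_add, map_add, map_add, map_smul, map_smul, map_smul, map_smul, h0, h1, h2, h3]
  module

lemma sig_b0 (n : ℤ × ℤ × ℤ × ℤ) : sig M b0 (V a1 a0 b0 b1 n) =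
    V a1 a0 b0 b1 (-n.1, n.2.1, n.2.2.1, n.2.2.2) := by
  have p := f.path
  have h0 := p.sig_x (i := 0) (by omega)
  have h1 := p.sig_x (i := 1) (by omega)
  have h2 := p.sig_x (i := 2) (by omega)
  have h3 : sig M b0 (al b1) = al b1 + al b0 := by
    rw [sig_al, cc_symm M, cc_of_eq_three M f.m3]; norm_num
  norm_num at h0 h1 h2
  unfold V
  rw [map_add, map_add, map_add, map_smul, map_smul, map_smul, map_smul, h0, h1, h2, h3, ev_zero]
  push_cast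
  module

lemma sig_b1 (n : ℤ × ℤ × ℤ × ℤ) (T : ℤ) (hT : n.2.2.2 - n.1 - n.2.1 - n.2.2.1 = 2 * T) :
    sig M b1 (V a1 a0 b0 b1 n) =
      V a1 a0 b0 b1 (n.1 + T, n.2.1 + T, n.2.2.1 + T, n.2.2.2 - T) := by
  have h0 := f.fB_b1_ev (i := 0) (by omega)
  have h1 := f.fB_b1_ev (i := 1) (by omega)
  have h2 := f.fB_b1_ev (i := 2) (by omega)
  have hT' : (n.2.2.2 : ℝ) - n.1 - n.2.1 - n.2.2.1 = 2 * T := by exact_mod_cast hT
  have h3 : fB M b1 (V a1 a0 b0 b1 n) = T := by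
    unfold V
    rw [map_add, map_add, map_add, map_smul, map_smul, map_smul, map_smul, h0, h1, h2, fB_al_self]
    simp only [smul_eq_mul]
    linarith
  rw [sig_apply, h3]
  unfold V
  push_cast
  module

lemma V_coord (n : ℤ × ℤ × ℤ × ℤ) :
    V a1 a0 b0 b1 n b1 = 2 * n.2.2.2 ∧
    V a1 a0 b0 b1 n b0 = n.1 + n.2.1 + n.2.2.1 + 3 * n.2.2.2 ∧
    V a1 a0 b0 b1 n a0 = Real.sqrt 2 * (n.2.1 + n.2.2.1 + 2 * n.2.2.2) ∧
    V a1 a0 b0 b1 n a1 = Real.sqrt 2 * (n.2.2.1 + n.2.2.2) ∧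
    ∀ t, t ≠ b1 → t ≠ b0 → t ≠ a0 → t ≠ a1 → V a1 a0 b0 b1 n t = 0 := by
  have e0 : ev b0 (pth a0 a1) 0 = al b0 := rfl
  have e1 : ev b0 (pth a0 a1) 1 = al b0 + Real.sqrt 2 • al a0 := by
    rw [ev_succ, ev_zero, pth_zero]
  have e2 : ev b0 (pth a0 a1) 2 = al b0 + Real.sqrt 2 • al a0 + Real.sqrt 2 • al a1 := by
    rw [ev_succ, e1, pth_one]
  have key : ∀ t, V a1 a0 b0 b1 n t = (n.1 + n.2.1 + n.2.2.1 + 3 * n.2.2.2) * al b0 t +
      Real.sqrt 2 * (n.2.1 + n.2.2.1 + 2 * n.2.2.2) * al a0 t +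
      Real.sqrt 2 * (n.2.2.1 + n.2.2.2) * al a1 t + 2 * n.2.2.2 * al b1 t := by
    intro t
    unfold V
    rw [e0, e1, e2]
    simp only [Pi.add_apply, Pi.smul_apply, smul_eq_mul]
    ring
  refine ⟨?_, ?_, ?_, ?_, ?_⟩
  · rw [key, al_ne f.ne3.symm, al_ne f.ne6.symm, al_ne f.ne5.symm, al_self]; ring
  · rw [key, al_self, al_ne f.ne2.symm, al_ne f.ne4.symm, al_ne f.ne3]; ring
  · rw [key, al_ne f.ne2, al_self, al_ne f.ne1.symm, al_ne f.ne6]; ring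
  · rw [key, al_ne f.ne4, al_ne f.ne1, al_self, al_ne f.ne5]; ring
  · intro t h1 h2 h3 h4
    rw [key, al_ne h1, al_ne h2, al_ne h3, al_ne h4]; ring

lemma V_nonneg {n : ℤ × ℤ × ℤ × ℤ} (h1 : 0 ≤ n.2.2.2) (h2 : 0 ≤ n.2.2.1 + n.2.2.2)
    (h3 : 0 ≤ n.2.1 + n.2.2.1 + 2 * n.2.2.2) (h4 : 0 ≤ n.1 + n.2.1 + n.2.2.1 + 3 * n.2.2.2) :
    0 ≤ V a1 a0 b0 b1 n := by
  obtain ⟨c1, c2, c3, c4, c5⟩ := f.V_coord n
  have h1' : (0 : ℝ) ≤ n.2.2.2 := by exact_mod_cast h1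
  have h2' : (0 : ℝ) ≤ n.2.2.1 + n.2.2.2 := by exact_mod_cast h2
  have h3' : (0 : ℝ) ≤ n.2.1 + n.2.2.1 + 2 * n.2.2.2 := by exact_mod_cast h3
  have h4' : (0 : ℝ) ≤ n.1 + n.2.1 + n.2.2.1 + 3 * n.2.2.2 := by exact_mod_cast h4
  have hs0 := sqrt2_pos
  intro t
  by_cases t1 : t = b1
  · subst t1; rw [c1]; simpa using h1
  by_cases t2 : t = b0
  · subst t2; rw [c2]; exact h4'
  by_cases t3 : t = a0
  · subst t3; rw [c3]; exact mul_nonneg hs0.le h3'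
  by_cases t4 : t = a1
  · subst t4; rw [c4]; exact mul_nonneg hs0.le h2'
  rw [c5 t t1 t2 t3 t4]
  exact le_rfl

lemma V_neg (n : ℤ × ℤ × ℤ × ℤ) : V a1 a0 b0 b1 (-n) = - V a1 a0 b0 b1 n := by
  unfold V
  simp only [Prod.fst_neg, Prod.snd_neg]
  push_cast
  module

lemma V_nonpos {n : ℤ × ℤ × ℤ × ℤ} (h1 : n.2.2.2 ≤ 0) (h2 : n.2.2.1 + n.2.2.2 ≤ 0)
    (h3 : n.2.1 + n.2.2.1 + 2 * n.2.2.2 ≤ 0) (h4 : n.1 + n.2.1 + n.2.2.1 + 3 * n.2.2.2 ≤ 0) :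
    V a1 a0 b0 b1 n ≤ 0 := by
  have := f.V_nonneg (n := -n) (by simp only [Prod.snd_neg]; omega)
    (by simp only [Prod.fst_neg, Prod.snd_neg]; omega)
    (by simp only [Prod.fst_neg, Prod.snd_neg]; omega)
    (by simp only [Prod.fst_neg, Prod.snd_neg]; omega)
  rw [f.V_neg] at this
  exact neg_nonneg.1 this

lemma V_supp {L : Finset B} (h1 : a1 ∈ L) (h0 : a0 ∈ L) (k0 : b0 ∈ L) (k1 : b1 ∈ L)
    (n : ℤ × ℤ × ℤ × ℤ) : ∀ i ∉ L, V a1 a0 b0 b1 n i = 0 := by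
  intro i hi
  obtain ⟨_, _, _, _, c5⟩ := f.V_coord n
  exact c5 i (by rintro rfl; exact hi k1) (by rintro rfl; exact hi k0)
    (by rintro rfl; exact hi h0) (by rintro rfl; exact hi h1)

lemma V_inj {n n' : ℤ × ℤ × ℤ × ℤ} (h : V a1 a0 b0 b1 n = V a1 a0 b0 b1 n') : n = n' := by
  obtain ⟨c1, c2, c3, c4, _⟩ := f.V_coord n
  obtain ⟨d1, d2, d3, d4, _⟩ := f.V_coord n'
  rw [h] at c1 c2 c3 c4
  have hs0 := sqrt2_pos
  have e1 : (n.2.2.2 : ℝ) = n'.2.2.2 := by linarith [c1.symm.trans d1]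
  have e2 := c2.symm.trans d2
  have e3 := mul_left_cancel₀ hs0.ne' (c3.symm.trans d3)
  have e4 := mul_left_cancel₀ hs0.ne' (c4.symm.trans d4)
  have f1 : n.2.2.2 = n'.2.2.2 := by exact_mod_cast e1
  have f4 : n.2.2.1 + n.2.2.2 = n'.2.2.1 + n'.2.2.2 := by exact_mod_cast e4
  have f3 : n.2.1 + n.2.2.1 + 2 * n.2.2.2 = n'.2.1 + n'.2.2.1 + 2 * n'.2.2.2 := by
    exact_mod_cast e3
  have f2 : n.1 + n.2.1 + n.2.2.1 + 3 * n.2.2.2 = n'.1 + n'.2.1 + n'.2.2.1 + 3 * n'.2.2.2 := by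
    exact_mod_cast e2
  obtain ⟨x0, x1, x2, x3⟩ := n
  obtain ⟨y0, y1, y2, y3⟩ := n'
  simp only at f1 f2 f3 f4
  have g1 : x3 = y3 := f1
  have g2 : x2 = y2 := by omega
  have g3 : x1 = y1 := by omega
  have g4 : x0 = y0 := by omega
  rw [g1, g2, g3, g4]

lemma V_e0 : V a1 a0 b0 b1 (1, 0, 0, 0) = ev b0 (pth a0 a1) 0 := by
  unfold V; norm_num
lemma V_e1 : V a1 a0 b0 b1 (0, 1, 0, 0) = ev b0 (pth a0 a1) 1 := by
  unfold V; norm_num
lemma V_e2 : V a1 a0 b0 b1 (0, 0, 1, 0) = ev b0 (pth a0 a1) 2 := by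
  unfold V; norm_num

omit f in
lemma V_smul (k : ℤ) (n : ℤ × ℤ × ℤ × ℤ) : V a1 a0 b0 b1 (k • n) = (k : ℝ) • V a1 a0 b0 b1 n := by
  unfold V
  simp only [Prod.smul_fst, Prod.smul_snd, smul_eq_mul]
  push_cast
  module

omit f in
lemma V_add (n n' : ℤ × ℤ × ℤ × ℤ) :
    V a1 a0 b0 b1 (n + n') = V a1 a0 b0 b1 n + V a1 a0 b0 b1 n' := by
  unfold V
  simp only [Prod.fst_add, Prod.snd_add]
  push_cast
  module

/-- the last basis vector -/
lemma V_e3 : V a1 a0 b0 b1 (0, 0, 0, 1) =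
    (2 : ℝ) • al b1 + ev b0 (pth a0 a1) 0 + ev b0 (pth a0 a1) 1 + ev b0 (pth a0 a1) 2 := by
  unfold V
  push_cast
  module

/-- orthonormality -/
lemma bil_V (n n' : ℤ × ℤ × ℤ × ℤ) : bil M (V a1 a0 b0 b1 n) (V a1 a0 b0 b1 n') =
    n.1 * n'.1 + n.2.1 * n'.2.1 + n.2.2.1 * n'.2.2.1 + n.2.2.2 * n'.2.2.2 := by
  have p := f.path
  have b : ∀ i j : ℕ, i ≤ 2 → j ≤ 2 → bil M (ev b0 (pth a0 a1) i) (ev b0 (pth a0 a1) j) =
      if i = j then 1 else 0 := fun i j hi hj => p.bil_ev hi hj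
  have b1' : ∀ i : ℕ, i ≤ 2 → bil M (ev b0 (pth a0 a1) i) (al b1) = - (1 / 2) := fun i hi => by
    rw [bil_al_right]; exact f.fB_b1_ev hi
  have b2' : ∀ i : ℕ, i ≤ 2 → bil M (al b1) (ev b0 (pth a0 a1) i) = - (1 / 2) := fun i hi => by
    rw [bil_symm]; exact b1' i hi
  have b3 : bil M (al b1) (al b1) = 1 := by rw [bil_al_right, fB_al_self]
  unfold V
  simp only [bil_add_left, bil_add_right, bil_smul_left, bil_smul_right]
  rw [b 0 0 (by omega) (by omega), b 0 1 (by omega) (by omega), b 0 2 (by omega) (by omega),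
    b 1 0 (by omega) (by omega), b 1 1 (by omega) (by omega), b 1 2 (by omega) (by omega),
    b 2 0 (by omega) (by omega), b 2 1 (by omega) (by omega), b 2 2 (by omega) (by omega),
    b1' 0 (by omega), b1' 1 (by omega), b1' 2 (by omega), b2' 0 (by omega), b2' 1 (by omega),
    b2' 2 (by omega), b3]
  norm_num
  ring

lemma isRt_e3 : IsRt cs (V a1 a0 b0 b1 (0, 0, 0, 1)) := by
  have p := f.path
  have r0 : IsRt cs (V a1 a0 b0 b1 (1, 0, 0, 0)) := by rw [f.V_e0]; exact p.ev_isRt (by omega)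
  have r1 : IsRt cs (V a1 a0 b0 b1 (0, 1, 0, 0)) := by rw [f.V_e1]; exact p.ev_isRt (by omega)
  have r2 : IsRt cs (V a1 a0 b0 b1 (0, 0, 1, 0)) := by rw [f.V_e2]; exact p.ev_isRt (by omega)
  have hb : al b1 = (1 / 2 : ℝ) • V a1 a0 b0 b1 (-1, -1, -1, 1) := by
    unfold V
    push_cast
    module
  have s0 : IsRt cs ((1 / 2 : ℝ) • V a1 a0 b0 b1 (-1, -1, -1, 1)) := by
    rw [← hb]; exact IsRt.al b1
  have s1 := r0.refl s0
  have s2 := r1.refl s1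
  have s3 := r2.refl s2
  have s4 := (s3.rho (cs.simple b1))
  have e1 : (1 / 2 : ℝ) • V a1 a0 b0 b1 (-1, -1, -1, 1) -
      (2 * bil M ((1 / 2 : ℝ) • V a1 a0 b0 b1 (-1, -1, -1, 1)) (V a1 a0 b0 b1 (1, 0, 0, 0))) •
        V a1 a0 b0 b1 (1, 0, 0, 0) = (1 / 2 : ℝ) • V a1 a0 b0 b1 (1, -1, -1, 1) := by
    rw [bil_smul_left, f.bil_V]
    unfold V
    push_cast
    norm_num
    module
  rw [e1] at s1 s2 s3 s4
  have e2 : (1 / 2 : ℝ) • V a1 a0 b0 b1 (1, -1, -1, 1) -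
      (2 * bil M ((1 / 2 : ℝ) • V a1 a0 b0 b1 (1, -1, -1, 1)) (V a1 a0 b0 b1 (0, 1, 0, 0))) •
        V a1 a0 b0 b1 (0, 1, 0, 0) = (1 / 2 : ℝ) • V a1 a0 b0 b1 (1, 1, -1, 1) := by
    rw [bil_smul_left, f.bil_V]
    unfold V
    push_cast
    norm_num
    module
  rw [e2] at s2 s3 s4
  have e3 : (1 / 2 : ℝ) • V a1 a0 b0 b1 (1, 1, -1, 1) -
      (2 * bil M ((1 / 2 : ℝ) • V a1 a0 b0 b1 (1, 1, -1, 1)) (V a1 a0 b0 b1 (0, 0, 1, 0))) •
        V a1 a0 b0 b1 (0, 0, 1, 0) = (1 / 2 : ℝ) • V a1 a0 b0 b1 (1, 1, 1, 1) := by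
    rw [bil_smul_left, f.bil_V]
    unfold V
    push_cast
    norm_num
    module
  rw [e3] at s3 s4
  rw [map_smul, rho_simple, f.sig_b1 _ (-1) (by norm_num)] at s4
  convert s4 using 1
  unfold V
  push_cast
  module

/-- Groups of type `F₄` are finite. -/
theorem finS : FinS cs {a1, a0, b0, b1} := by
  set L : Finset B := {a1, a0, b0, b1} with hL
  have p := f.path
  have k1 : a1 ∈ L := by rw [hL]; simp
  have k0 : a0 ∈ L := by rw [hL]; simp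
  have l0 : b0 ∈ L := by rw [hL]; simp
  have l1 : b1 ∈ L := by rw [hL]; simp
  have key : ∀ n : ℤ × ℤ × ℤ × ℤ, IsRt cs (V a1 a0 b0 b1 n) → ∃ t ∈ WP cs L, ∀ x,
      rho cs t x = x - (2 * bil M x (V a1 a0 b0 b1 n)) • V a1 a0 b0 b1 n := by
    intro n hn
    obtain ⟨z, hz, q, hq, he⟩ := hn.of_supp (f.V_supp k1 k0 l0 l1 n)
    refine ⟨z * cs.simple q * z⁻¹, mul_mem (simple_mul_mem cs hz hq) (inv_mem hz), ?_⟩
    intro x
    rw [rho_conj, ← he]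
  obtain ⟨t0, ht0, h0⟩ := key (1, 0, 0, 0) (by rw [f.V_e0]; exact p.ev_isRt (by omega))
  obtain ⟨t1, ht1, h1⟩ := key (0, 1, 0, 0) (by rw [f.V_e1]; exact p.ev_isRt (by omega))
  obtain ⟨t2, ht2, h2⟩ := key (0, 0, 1, 0) (by rw [f.V_e2]; exact p.ev_isRt (by omega))
  obtain ⟨t3, ht3, h3⟩ := key (0, 0, 0, 1) f.isRt_e3
  refine ⟨t0 * t1 * t2 * t3, mul_mem (mul_mem (mul_mem ht0 ht1) ht2) ht3, ?_⟩
  have hneg : ∀ n : ℤ × ℤ × ℤ × ℤ, rho cs (t0 * t1 * t2 * t3) (V a1 a0 b0 b1 n) =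
      - V a1 a0 b0 b1 n := by
    intro n
    rw [rho_mul, rho_mul, rho_mul]
    have e3 : rho cs t3 (V a1 a0 b0 b1 n) = V a1 a0 b0 b1 (n.1, n.2.1, n.2.2.1, -n.2.2.2) := by
      rw [h3, f.bil_V]
      unfold V
      push_cast
      module
    have e2 : ∀ n, rho cs t2 (V a1 a0 b0 b1 n) = V a1 a0 b0 b1 (n.1, n.2.1, -n.2.2.1, n.2.2.2) := by
      intro n
      rw [h2, f.bil_V]
      unfold V
      push_cast
      module
    have e1 : ∀ n, rho cs t1 (V a1 a0 b0 b1 n) = V a1 a0 b0 b1 (n.1, -n.2.1, n.2.2.1, n.2.2.2) := by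
      intro n
      rw [h1, f.bil_V]
      unfold V
      push_cast
      module
    have e0 : ∀ n, rho cs t0 (V a1 a0 b0 b1 n) = V a1 a0 b0 b1 (-n.1, n.2.1, n.2.2.1, n.2.2.2) := by
      intro n
      rw [h0, f.bil_V]
      unfold V
      push_cast
      module
    rw [e3, e2, e1, e0, ← f.V_neg]
    rfl
  have hs := sqrt2_sq
  have hlin : ∀ (k : ℝ) (n : ℤ × ℤ × ℤ × ℤ) (r : B), al r = k • V a1 a0 b0 b1 n →
      rho cs (t0 * t1 * t2 * t3) (al r) ≤ 0 := by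
    intro k n r hr
    rw [hr, map_smul, hneg, smul_neg, ← hr]
    exact neg_nonpos.2 (al_nonneg r)
  intro r hr
  rw [hL] at hr
  simp only [Finset.mem_insert, Finset.mem_singleton] at hr
  rcases hr with rfl | rfl | rfl | rfl
  · apply hlin (Real.sqrt 2 / 2) (0, -1, 1, 0)
    have := al_y b0 (pth a0 r) 1
    rw [pth_one] at this
    rw [this]
    unfold V
    push_cast
    module
  · apply hlin (Real.sqrt 2 / 2) (-1, 1, 0, 0)
    have := al_y b0 (pth r a1) 0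
    rw [pth_zero] at this
    rw [this]
    unfold V
    push_cast
    module
  · apply hlin 1 (1, 0, 0, 0)
    rw [f.V_e0, ev_zero, one_smul]
  · apply hlin (1 / 2) (-1, -1, -1, 1)
    unfold V
    push_cast
    module

end FD

end Pool.Agent.H44.Cox
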