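import Mathlib
import Pool.Agent.H44.Cox.FF

set_option autoImplicit false
set_option linter.unusedSectionVars false
set_option linter.unusedSimpArgs false
set_option linter.unusedVariables false

/-! # Case II: type `B`, negative end, positive path -/

namespace Pool.Agent.H44.Cox

open CoxeterSystem Pool.Agent.H80.Cox

variable {B : Type*} [Fintype B] [DecidableEq B] {W : Type*} [Group W]
variable {M : CoxeterMatrix B} {cs : CoxeterSystem M W}
variable {ψ : W → ℝ} {L : Finset B} {s : B} {y g m u c : W}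

namespace BPath

variable {x0 : B} {a : ℕ → B} {k : ℕ} (p : BPath M x0 a k)
include p

lemma supp_ev {L : Finset B} (hx0 : x0 ∈ L) (haL : ∀ i ≤ k, a i ∈ L) {n : ℕ} (hn : n ≤ k + 1) :
    ∀ i ∉ L, ev x0 a n i = 0 := by
  intro i hi
  exact ev_supp (by rintro rfl; exact hi hx0) (fun j hj => by
    rintro rfl; exact hi (haL j (by omega)))

/-- the roots of the path -/
lemma pr_class {w : W} (hw : w ∈ WP cs (vset x0 a (k + 1))) {i : ℕ} (hi : i ≤ k)
    (h0 : 0 ≤ rho cs w (al (a i))) : ∃ b d, b < d ∧ d ≤ k + 1 ∧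
      (rho cs w (al (a i)) = (Real.sqrt 2 / 2) • (ev x0 a d - ev x0 a b) ∨
        rho cs w (al (a i)) = (Real.sqrt 2 / 2) • (ev x0 a b + ev x0 a d)) := by
  have hs0 := sqrt2_pos
  have hrt : IsRt cs (rho cs w (al (a i))) := (IsRt.al _).rho w
  obtain ⟨d, hd, h1⟩ := p.pm hw (i := i + 1) (by omega)
  obtain ⟨b, hb, h2⟩ := p.pm hw (i := i) (by omega)
  have hbd : b ≠ d := by
    intro hbd
    have e1 := p.bil_ev (i := i) (j := i + 1) (by omega) (by omega)
    rw [if_neg (by omega), ← bil_rho cs w] at e1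
    have e2 := p.bil_ev (i := d) (j := d) hd hd
    rw [if_pos rfl] at e2
    rcases h1 with h1 | h1 <;> rcases h2 with h2 | h2 <;> rw [h1, h2, hbd] at e1 <;>
      simp only [bil_neg_left, bil_neg_right, e2] at e1 <;> norm_num at e1
  have he : rho cs w (al (a i)) = (Real.sqrt 2 / 2) •
      (rho cs w (ev x0 a (i + 1)) - rho cs w (ev x0 a i)) := by
    rw [al_y x0 a i, map_smul, map_sub]
  -- eliminate negative combinations
  have npos : ∀ {x : B → ℝ}, 0 ≤ x → rho cs w (al (a i)) = (Real.sqrt 2 / 2) • (- x) → False := by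
    intro x hx he'
    apply hrt.false h0
    rw [he']
    exact smul_nonpos_of_nonneg_of_nonpos (by positivity) (neg_nonpos.2 hx)
  have hmono := ev_mono x0 a
  have hnn := ev_nonneg x0 a
  rcases h1 with h1 | h1 <;> rcases h2 with h2 | h2 <;> rw [h1, h2] at he
  · -- e_d - e_b
    rcases lt_or_gt_of_ne hbd with h3 | h3
    · exact ⟨b, d, h3, hd, Or.inl he⟩
    · exfalso
      exact npos (x := ev x0 a b - ev x0 a d) (sub_nonneg.2 (hmono h3.le)) (by rw [he]; congr 1; abel)
  · rcases lt_or_gt_of_ne hbd with h3 | h3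
    · refine ⟨b, d, h3, hd, Or.inr ?_⟩
      rw [he]; congr 1; abel
    · refine ⟨d, b, h3, hb, Or.inr ?_⟩
      rw [he]; congr 1; abel
  · exfalso
    exact npos (x := ev x0 a d + ev x0 a b) (add_nonneg (hnn _) (hnn _)) (by rw [he]; congr 1; abel)
  · rcases lt_or_gt_of_ne hbd with h3 | h3
    · exfalso
      exact npos (x := ev x0 a d - ev x0 a b) (sub_nonneg.2 (hmono h3.le)) (by rw [he]; congr 1; abel)
    · refine ⟨d, b, h3, hb, Or.inl ?_⟩
      rw [he]; congr 1; abel

end BPath

namespace Cr

variable (h : Cr cs ψ L s y g m u c)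
include h

/-- if all the inverted roots of positive weight are one given root, and `x` ends with a generator
of weight `-b`, then `x` has weight at most `α - b` -/
lemma G_fin {F : Set (B → ℝ)} (hF : F.Finite) (hFc : F.ncard ≤ 1) {α b : ℝ} (hα : 0 ≤ α)
    (hb : 0 ≤ b) (hpos : ∀ r ∈ L, ψ (cs.simple r) ≤ α) (hαb : α ≤ b)
    (hA0 : ∀ x, IsPR cs ψ x → 0 ≤ x → (∀ i ∉ L, x i = 0) → rho cs (u * cs.simple s) x ≤ 0 → x ∈ F)
    (hns : ∀ r ∈ L, 0 < ψ (cs.simple r) → al r ∉ F)
    (hnegw : ∀ r ∈ L, ¬ 0 < ψ (cs.simple r) → ψ (cs.simple r) ≤ -b) : False := by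
  obtain ⟨h', x, hdec, hx, hh'⟩ := exists_dec cs L (u * cs.simple s)
  have hinv : ∀ x', IsPR cs ψ x' → 0 ≤ x' → (∀ i ∉ L, x' i = 0) → rho cs x x' ≤ 0 → x' ∈ F := by
    intro x' h1 h2 h3 h4
    apply hA0 x' h1 h2 h3
    rw [hdec, rho_mul]
    have := comb_nonneg cs hh' (x := - rho cs x x') (neg_nonneg.2 h4) (by
      intro i hi
      rw [Pi.neg_apply, rho_coord cs hx _ hi, h3 i hi, neg_zero])
    rw [map_neg] at this
    exact neg_nonneg.1 this
  apply h.final hdec hx hh'
  by_cases hx1 : x = 1
  · rw [hx1, h.wt.one]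
  obtain ⟨t, ht⟩ := cs.exists_rightDescent_of_ne_one hx1
  rw [isRightDescent_iff] at ht
  have htn := tits_neg cs x t ht
  have htL := desc_mem cs hx htn
  have nt : ¬ 0 < ψ (cs.simple t) := by
    intro pt
    apply hns t htL pt
    apply hinv _ (IsPR.al pt) (al_nonneg t) _ htn
    intro i hi
    exact al_ne (by rintro rfl; exact hi htL)
  set x' := x * cs.simple t with hx'
  have hxx : x = x' * cs.simple t := by rw [hx']; simp
  have hl : cs.length (x' * cs.simple t) = cs.length x' + 1 := by rw [← hxx]; omega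
  have e1 := h.wt.mul_simple cs hl
  rw [← hxx] at e1
  have hpt := tits_pos cs x' t hl
  have e2 := count_le h.wt hα hpos x' (simple_mul_mem cs hx htL)
    ((rho cs (cs.simple t)) '' F) (hF.image _) (by
      intro z hz hz0 hzs hzx
      have h6 : 0 ≤ rho cs (cs.simple t) z := by
        rcases (hz.isRt.rho (cs.simple t)).pos_or_neg with h7 | h7
        · exact h7
        · exfalso
          have h8 := hz.isRt.eq_al hz0 h7
          rw [h8] at hzx
          exact not_pos_and_neg cs hpt hzx
      refine ⟨rho cs (cs.simple t) z, hinv _ (hz.rho _) h6 ?_ ?_, ?_⟩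
      · intro i hi
        rw [rho_coord cs (simple_mem cs htL) _ hi, hzs i hi]
      · rw [hxx, ← rho_mul, simple_mul_simple_cancel_right]; exact hzx
      · rw [← rho_mul, cs.simple_mul_simple_self, rho_one])
  have e3 : ((rho cs (cs.simple t)) '' F).ncard ≤ 1 := (Set.ncard_image_le hF).trans hFc
  have e4 : (((rho cs (cs.simple t)) '' F).ncard : ℝ) ≤ 1 := by exact_mod_cast e3
  have e5 := hnegw t htL nt
  nlinarith

/-- type `B`, negative end, positive path -/
theorem II_gam (hII : ∀ r ∈ L, 0 < ψ (cs.simple r) → M r s = 2) {q : B} {a : ℕ → B} {k : ℕ}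
    (hk : 1 ≤ k) (p : BPath M q a k) (hL : L = vset q a (k + 1)) (nq : ¬ 0 < ψ (cs.simple q))
    (pa : ∀ i ≤ k, 0 < ψ (cs.simple (a i))) : False := by
  have hs := sqrt2_sq
  have hs0 := sqrt2_pos
  have hq : q ∈ L := by rw [hL, mem_vset]; exact Or.inl rfl
  have haL : ∀ i ≤ k, a i ∈ L := by
    intro i hi
    rw [hL, mem_vset]; exact Or.inr ⟨i, by omega, rfl⟩
  have has : ∀ i ≤ k, M (a i) s = 2 := fun i hi => hII _ (haL i hi) (pa i hi)
  have memL : ∀ t ∈ L, t = q ∨ ∃ i ≤ k, a i = t := by
    intro t ht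
    rw [hL, mem_vset] at ht
    rcases ht with h1 | ⟨i, hi, h1⟩
    · exact Or.inl h1
    · exact Or.inr ⟨i, by omega, h1⟩
  have hqs : M q s ≠ 2 := by
    obtain ⟨t, ht, hts⟩ := h.II_att
    rcases memL t ht with rfl | ⟨i, hi, rfl⟩
    · exact hts
    · exact absurd (has i hi) hts
  have hsupp : ∀ n ≤ k + 1, ∀ i ∉ L, ev q a n i = 0 := fun n hn => p.supp_ev hq haL hn
  -- weights
  set α := ψ (cs.simple (a 0)) with hα
  set b := - ψ (cs.simple q) with hb
  have hα0 : 0 < α := pa 0 (by omega)
  have hb0 : 0 ≤ b := by rw [hb]; push Not at nq; linarith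
  have wa : ∀ i ≤ k, ψ (cs.simple (a i)) = α := fun i hi => p.pos_all h.wt i hi
  have wle : ∀ r ∈ L, ψ (cs.simple r) ≤ α := by
    intro r hr
    rcases memL r hr with rfl | ⟨i, hi, rfl⟩
    · linarith
    · exact (wa i hi).le
  -- the filter
  have hfil : L.filter (fun r => M r s = 2) = tset a (k + 1) := by
    ext t
    rw [Finset.mem_filter, mem_tset]
    constructor
    · rintro ⟨h1, h2⟩
      rcases memL t h1 with rfl | ⟨i, hi, rfl⟩
      · exact absurd h2 hqs
      · exact ⟨i, by omega, rfl⟩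
    · rintro ⟨i, hi, rfl⟩
      exact ⟨haL i (by omega), has i (by omega)⟩
  have hcmx : IsMax cs ψ (tset a (k + 1)) c := by rw [← hfil]; exact h.mx0
  have hrev : ∀ i ≤ k + 1, rho cs c⁻¹ (ev q a i) = ev q a (k + 1 - i) :=
    p.rev (inv_mem hcmx.mem) (fun i hi => (hcmx.inv h.wt).neg h.wt
      (mem_tset.2 ⟨i, by omega, rfl⟩) (pa i hi))
  have hue : ∀ i ≤ k + 1, rho cs u (ev q a i) = rho cs y (ev q a (k + 1 - i)) := by
    intro i hi
    rw [h.rho_u, hrev i hi]
  have yanti : ∀ {i j : ℕ}, i ≤ j → j ≤ k + 1 → rho cs y (ev q a j) ≤ rho cs y (ev q a i) :=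
    fun hij hj => BPath.anti (x0 := q) (fun i hi => h.y_neg (haL i hi) (pa i hi)) hij hj
  -- the distinguished root
  obtain ⟨v, r, hp⟩ := h.exists_pi
  have hv : v = 1 ∨ v = cs.simple q := by
    apply mem_WP_singleton
    apply WP_mono cs _ hp.1
    intro t ht
    rw [mem_negS] at ht
    rw [Finset.mem_singleton]
    rcases memL t ht.1 with h1 | ⟨i, hi, rfl⟩
    · exact h1
    · exact absurd (pa i hi) ht.2
  obtain ⟨i0, hi0, hri⟩ : ∃ i ≤ k, a i = r := by
    rcases memL r hp.2.1 with h1 | h1
    · exact absurd (h1 ▸ hp.2.2.1) nq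
    · exact h1
  subst hri
  have hvq : v = cs.simple q := by
    rcases hv with h1 | h1
    · exfalso
      have h2 := hp.c_sq.1
      rw [h1, rho_one, fB_al, neg_neg, cc_of_eq_two M (has i0 hi0)] at h2
      exact lt_irrefl _ h2
    · exact h1
  have hi00 : i0 = 0 := by
    by_contra hne
    have h2 := hp.c_sq.1
    rw [hvq, rho_simple, sig_al, cc_symm M (a i0) q, p.cc_xy hi0, if_neg hne, mul_zero, zero_smul,
      add_zero, fB_al, neg_neg, cc_of_eq_two M (has i0 hi0)] at h2
    exact lt_irrefl _ h2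
  subst hi00
  have hπ : rho cs v (al (a 0)) = (Real.sqrt 2 / 2) • (ev q a 0 + ev q a 1) := by
    rw [hvq, rho_simple, sig_al, cc_symm M (a 0) q, p.cc_xy (by omega), if_pos rfl, ev_succ,
      ev_zero, smul_add, smul_add, smul_smul, show Real.sqrt 2 / 2 * Real.sqrt 2 = 1 by linarith]
    module
  have cev : ∀ i ≤ k + 1, - fB M s (ev q a i) = cc M q s := by
    intro i hi
    rw [fB_ev]
    have : ∑ j ∈ Finset.range i, cc M (a j) s = 0 := by
      apply Finset.sum_eq_zero
      intro j hj
      exact cc_of_eq_two M (has j (by rw [Finset.mem_range] at hj; omega))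
    rw [this]; ring
  have hqs3 : M q s = 3 := by
    by_contra hcon
    have h4 := M.off_diagonal q s (h.ls_ne hq)
    have h5 := half_le_cc_sq M (s := q) (t := s) (by omega)
    have h6 := hp.c_lt
    have h7 : - fB M s (rho cs v (al (a 0))) = Real.sqrt 2 * cc M q s := by
      rw [hπ, map_smul, map_add, smul_eq_mul]
      have e0 := cev 0 (by omega)
      have e1 := cev 1 (by omega)
      linear_combination (Real.sqrt 2 / 2) * e0 + (Real.sqrt 2 / 2) * e1
    rw [h7] at h6
    nlinarith
  have hψs : ψ (cs.simple s) = - b := by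
    rw [hb, neg_neg]
    exact (h.wt.odd cs (by rw [hqs3]; decide)).symm
  -- roots
  have hpr : ∀ {i j : ℕ}, i < j → j ≤ k + 1 → IsPR cs ψ ((Real.sqrt 2 / 2) • (ev q a i + ev q a j)) := by
    intro i j hij hj
    rw [add_comm]
    exact (p.isPR_add pa hij hj).1
  have hnn : ∀ i j : ℕ, 0 ≤ (Real.sqrt 2 / 2) • (ev q a i + ev q a j) := fun i j =>
    smul_nonneg (by positivity) (add_nonneg (ev_nonneg _ _ _) (ev_nonneg _ _ _))
  have hss : ∀ i j : ℕ, i ≤ k + 1 → j ≤ k + 1 → ∀ t ∉ L,
      ((Real.sqrt 2 / 2) • (ev q a i + ev q a j)) t = 0 := by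
    intro i j hi hj t ht
    rw [Pi.smul_apply, Pi.add_apply, hsupp i hi t ht, hsupp j hj t ht]; simp
  have hbil : ∀ i j i' j' : ℕ, i ≤ k + 1 → j ≤ k + 1 → i' ≤ k + 1 → j' ≤ k + 1 →
      i ≠ i' → i ≠ j' → j ≠ i' → j ≠ j' →
      bil M ((Real.sqrt 2 / 2) • (ev q a i + ev q a j)) ((Real.sqrt 2 / 2) •
        (ev q a i' + ev q a j')) = 0 := by
    intro i j i' j' h1 h2 h3 h4 n1 n2 n3 n4
    rw [bil_smul_left, bil_smul_right, bil_add_left, bil_add_right, bil_add_right,
      p.bil_ev h1 h3, p.bil_ev h1 h4, p.bil_ev h2 h3, p.bil_ev h2 h4, if_neg n1, if_neg n2,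
      if_neg n3, if_neg n4]
    ring
  -- attached roots
  have hattP : ∀ {β : B → ℝ}, IsPR cs ψ β → 0 ≤ β → (∀ t ∉ L, β t = 0) → rho cs u β ≤ 0 →
      ∃ i j, i < j ∧ j ≤ k + 1 ∧ β = (Real.sqrt 2 / 2) • (ev q a i + ev q a j) := by
    intro β hβ hβ0 hβs hβu
    obtain ⟨z, hz, t, ht, he⟩ := hβ.isRt.of_supp hβs
    obtain ⟨i, hi, hit⟩ : ∃ i ≤ k, a i = t := by
      rcases memL t ht with h1 | h1
      · exfalso
        rw [he, h1] at hβ
        exact nq (hβ.weight h.wt)
      · exact h1
    subst hit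
    rw [hL] at hz
    obtain ⟨b', d, hbd, hd, h1⟩ := p.pr_class hz hi (by rw [← he]; exact hβ0)
    rw [← he] at h1
    rcases h1 with h1 | h1
    · exfalso
      have h2 := h.attached hβ.isRt hβ0 hβs hβu
      rw [h1, map_smul, map_sub, smul_eq_mul] at h2
      have e0 := cev b' (by omega)
      have e1 := cev d hd
      have e2 : fB M s (ev q a d) - fB M s (ev q a b') = 0 := by linarith
      rw [e2] at h2
      simp at h2
    · exact ⟨b', d, hbd, hd, h1⟩
  by_cases hk1 : k = 1
  · -- `K` is of type `F₄`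
    subst hk1
    apply h.nfin
    have f : FD M (a 1) (a 0) q s := by
      refine ⟨?_, ?_, hqs3, ?_, has 1 le_rfl, has 0 (by omega)⟩
      · rw [M.symmetric]; exact p.h3 0 (by omega)
      · rw [M.symmetric]; exact p.h4
      · rw [M.symmetric]; exact p.h2 1 le_rfl le_rfl
    have hfin := f.finS (cs := cs)
    convert hfin using 1
    ext t
    rw [hL]
    simp only [Finset.mem_insert, Finset.mem_singleton, mem_vset]
    constructor
    · rintro (rfl | rfl | ⟨i, hi, rfl⟩)
      · simp
      · simp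
      · have : i = 0 ∨ i = 1 := by omega
        rcases this with rfl | rfl <;> simp
    · rintro (rfl | rfl | rfl | rfl)
      · exact Or.inr (Or.inr ⟨1, by omega, rfl⟩)
      · exact Or.inr (Or.inr ⟨0, by omega, rfl⟩)
      · exact Or.inr (Or.inl rfl)
      · exact Or.inl rfl
  have hk2 : 2 ≤ k := by omega
  -- (2,3) is not inverted
  have h23 : 0 ≤ rho cs u ((Real.sqrt 2 / 2) • (ev q a 2 + ev q a 3)) := by
    rcases ((hpr (i := 2) (j := 3) (by omega) (by omega)).isRt.rho u).pos_or_neg with h1 | h1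
    · exact h1
    · exfalso
      have h2 := hp.DD_pos (hpr (i := 2) (j := 3) (by omega) (by omega)) (hnn 2 3)
        (hss 2 3 (by omega) (by omega)) h1
      rw [hπ, hbil 0 1 2 3 (by omega) (by omega) (by omega) (by omega) (by omega) (by omega)
        (by omega) (by omega)] at h2
      exact lt_irrefl _ h2
  have hy01 : 0 ≤ rho cs y ((Real.sqrt 2 / 2) • (ev q a 1 + ev q a 0)) := by
    rw [map_smul, map_add, hue 2 (by omega), hue 3 (by omega)] at h23
    rw [map_smul, map_add]
    refine h23.trans ?_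
    apply smul_le_smul_of_nonneg_left _ (by positivity)
    exact add_le_add (yanti (by omega) (by omega)) (yanti (by omega) (by omega))
  -- α ≤ b
  have hyq := h.y_pos nq
  have hαb : α ≤ b := by
    have e1 := h.wt.mul_simple cs ((pos_iff cs y q).1 hyq)
    have e2 : 0 ≤ rho cs (y * cs.simple q) (al (a 0)) := by
      rw [rho_mul, ← hvq, hπ, add_comm]
      exact hy01
    have e3 := h.wt.mul_simple cs ((pos_iff cs _ _).1 e2)
    have e4 := h.mx.le (y * cs.simple q * cs.simple (a 0)) (simple_mul_mem cs (simple_mul_mem cs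
      h.mx.mem (Finset.mem_insert_of_mem hq)) (Finset.mem_insert_of_mem (haL 0 (by omega))))
    linarith
  have hsai : ∀ i ≤ k, rho cs (u * cs.simple s) (al (a i)) = rho cs u (al (a i)) := by
    intro i hi
    rw [rho_mul, rho_simple, sig_al, cc_of_eq_two M (has i hi)]
    simp
  have huai : ∀ i ≤ k, 0 ≤ rho cs u (al (a i)) := fun i hi => h.up _ (haL i hi) (has i hi)
  rcases ((hpr (i := 0) (j := k) (by omega) (by omega)).isRt.rho y).pos_or_neg with hcase | hcase
  swap
  · -- first case
    have h1k : rho cs u ((Real.sqrt 2 / 2) • (ev q a 1 + ev q a (k + 1))) ≤ 0 := by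
      rw [map_smul, map_add, hue 1 (by omega), hue (k + 1) le_rfl, Nat.sub_self, add_comm,
        ← map_add, ← map_smul]
      rw [show k + 1 - 1 = k by omega]
      exact hcase
    have uinc : ∀ {i j : ℕ}, i ≤ j → j ≤ k + 1 → rho cs u (ev q a i) ≤ rho cs u (ev q a j) :=
      fun hij hj => BPath.incr (x0 := q) huai hij hj
    have h12 : rho cs u ((Real.sqrt 2 / 2) • (ev q a 1 + ev q a 2)) ≤ 0 := by
      refine le_trans ?_ h1k
      rw [map_smul, map_smul, map_add, map_add]
      apply smul_le_smul_of_nonneg_left _ (by positivity)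
      exact add_le_add le_rfl (uinc (by omega) le_rfl)
    have hA0 : ∀ i j : ℕ, i < j → j ≤ k + 1 →
        rho cs (u * cs.simple s) ((Real.sqrt 2 / 2) • (ev q a i + ev q a j)) ≤ 0 →
        i = 0 ∧ j = 1 := by
      have one : ∀ i j : ℕ, i < j → j ≤ k + 1 →
          rho cs (u * cs.simple s) ((Real.sqrt 2 / 2) • (ev q a i + ev q a j)) ≤ 0 →
          i = 1 ∨ j = 1 := by
        intro i j hij hj hneg
        by_contra hcon
        push Not at hcon
        have key : ∀ i' j' : ℕ, i' < j' → j' ≤ k + 1 →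
            rho cs u ((Real.sqrt 2 / 2) • (ev q a i' + ev q a j')) ≤ 0 →
            i = i' ∨ i = j' ∨ j = i' ∨ j = j' := by
          intro i' j' hij' hj' hneg'
          by_contra hc
          push Not at hc
          have h2 := h.DD_pos (hpr hij hj) (hnn i j) (hss i j (by omega) hj) hneg (hpr hij' hj')
            (hnn i' j') (hss i' j' (by omega) hj') hneg'
          rw [hbil i j i' j' (by omega) hj (by omega) hj' hc.1 hc.2.1 hc.2.2.1 hc.2.2.2] at h2
          exact lt_irrefl _ h2
        have k1 := key 1 2 (by omega) (by omega) h12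
        have k2 := key 1 (k + 1) (by omega) le_rfl h1k
        have k3 := key 0 1 (by omega) (by omega) (by rw [← hπ]; exact hp.u_neg)
        omega
      intro i j hij hj hneg
      have h1 := one i j hij hj hneg
      rcases h1 with rfl | rfl
      · -- i = 1
        exfalso
        have h2 : rho cs (u * cs.simple s) ((Real.sqrt 2 / 2) • (ev q a 0 + ev q a j)) ≤ 0 := by
          refine le_trans ?_ hneg
          rw [map_smul, map_smul, map_add, map_add]
          apply smul_le_smul_of_nonneg_left _ (by positivity)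
          refine add_le_add ?_ le_rfl
          apply BPath.incr (x0 := q) (k := k) _ (by omega) (by omega)
          intro t ht
          rw [hsai t ht]; exact huai t ht
        have := one 0 j (by omega) hj h2
        omega
      · exact ⟨by omega, rfl⟩
    refine h.G_fin (F := {rho cs v (al (a 0))}) (Set.finite_singleton _)
      (by rw [Set.ncard_singleton]) hα0.le hb0 wle hαb ?_ ?_ ?_
    · intro x hx hx0 hxs hxn
      obtain ⟨i, j, hij, hj, he⟩ := hattP hx hx0 hxs (h.support_us hx0 hxs hxn hx.isRt)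
      obtain ⟨rfl, rfl⟩ := hA0 i j hij hj (by rw [← he]; exact hxn)
      rw [Set.mem_singleton_iff, he, hπ]
    · intro t ht pt hmem
      rw [Set.mem_singleton_iff] at hmem
      rcases memL t ht with rfl | ⟨i, hi, rfl⟩
      · exact nq pt
      · have h2 := hp.c_sq.1
        rw [← hmem, fB_al, neg_neg, cc_of_eq_two M (has i hi)] at h2
        exact lt_irrefl _ h2
    · intro t ht nt
      rcases memL t ht with rfl | ⟨i, hi, rfl⟩
      · rw [hb]; linarith
      · exact absurd (pa i hi) nt
  · -- second case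
    obtain ⟨k', rfl⟩ : ∃ k', k = k' + 1 := ⟨k - 1, by omega⟩
    have p' : BPath M q a k' := p.mono (by omega)
    obtain ⟨gJ, mJ, hJ, hmJ, hgJ⟩ := exists_dec cs (vset q a (k' + 1)) y
    have hsub : vset q a (k' + 1) ⊆ L := by rw [hL]; exact vset_mono (by omega)
    have hmx : IsMax cs ψ (vset q a (k' + 1)) mJ :=
      h.mx.part h.wt (hsub.trans (Finset.subset_insert _ _)) hJ hmJ hgJ
    have hneg : ∀ i ≤ k', rho cs mJ (al (a i)) ≤ 0 := fun i hi =>
      hmx.neg h.wt (mem_vset.2 (Or.inr ⟨i, by omega, rfl⟩)) (pa i (by omega))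
    have hneg' : ∀ i ≤ k', rho cs mJ⁻¹ (al (a i)) ≤ 0 := fun i hi =>
      (hmx.inv h.wt).neg h.wt (mem_vset.2 (Or.inr ⟨i, by omega, rfl⟩)) (pa i (by omega))
    have hJs : ∀ {n : ℕ}, n ≤ k' + 1 → ∀ t ∉ vset q a (k' + 1), ev q a n t = 0 := by
      intro n hn t ht
      rw [mem_vset, not_or] at ht
      push Not at ht
      exact ev_supp ht.1 (fun j hj => (ht.2 j (by omega)).symm)
    have hpose : ∀ i ≤ k' + 1, 0 ≤ rho cs mJ (ev q a i) := by
      intro i hi
      rcases ((p'.ev_isRt (cs := cs) hi).rho mJ).pos_or_neg with h1 | h1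
      · exact h1
      · exfalso
        have htop := p'.lemG hmJ hneg hneg' hi h1
        have h2 := (p'.top_neg hmJ htop (i := 0) (by omega)).1
        have h3 : rho cs y ((Real.sqrt 2 / 2) • (ev q a 0 + ev q a (k' + 1))) ≤ 0 := by
          rw [map_smul, add_comm, hJ, rho_mul]
          apply smul_nonpos_of_nonneg_of_nonpos (by positivity)
          have := comb_nonneg cs hgJ (x := - rho cs mJ (ev q a (k' + 1) + ev q a 0))
            (neg_nonneg.2 h2) (by
              intro t ht
              rw [Pi.neg_apply, rho_coord cs hmJ _ ht, Pi.add_apply, hJs le_rfl t ht,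
                hJs (by omega) t ht]
              simp)
          rw [map_neg] at this
          exact neg_nonneg.1 this
        exact ((hpr (i := 0) (j := k' + 1) (by omega) (by omega)).isRt.rho y).false hcase h3
    have hye : ∀ i ≤ k' + 1, 0 ≤ rho cs y (ev q a i) := by
      intro i hi
      rw [hJ, rho_mul]
      apply comb_nonneg cs hgJ (hpose i hi)
      intro t ht
      rw [rho_coord cs hmJ _ ht, hJs hi t ht]
    -- k α ≤ b
    have hz : ∀ j ≤ k' + 1, ∃ z ∈ WP cs (vset q a j), ψ (y * z) = ψ y - b + j * α ∧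
        rho cs z (ev q a j) = - ev q a 0 := by
      intro j
      induction j with
      | zero =>
        intro _
        refine ⟨cs.simple q, simple_mem cs (mem_vset.2 (Or.inl rfl)), ?_, ?_⟩
        · rw [h.wt.mul_simple cs ((pos_iff cs y q).1 hyq)]
          push_cast
          rw [hb]; ring
        · rw [rho_simple, ev_zero, sig_al_self]
      | succ j ih =>
        intro hj
        obtain ⟨z, hz, hzw, hze⟩ := ih (by omega)
        have hz' : z ∈ WP cs (vset q a (j + 1)) := WP_mono cs (vset_mono (by omega)) hz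
        refine ⟨z * cs.simple (a j), simple_mul_mem cs hz' (mem_vset.2 (Or.inr ⟨j, by omega, rfl⟩)),
          ?_, ?_⟩
        · have e1 : 0 ≤ rho cs (y * z) (al (a j)) := by
            rw [rho_mul, al_y q a j, map_smul, map_sub, hze,
              (p.perm_v (n := j) (by omega) z hz (j + 1) (by omega)).2 (by omega), map_smul, sub_neg_eq_add,
              map_add]
            apply smul_nonneg (by positivity)
            exact add_nonneg (hye _ hj) (hye 0 (by omega))
          rw [← mul_assoc, h.wt.mul_simple cs ((pos_iff cs _ _).1 e1), hzw, wa j (by omega)]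
          push_cast
          ring
        · rw [rho_mul, rho_simple, p.sig_y (by omega) (by omega), if_neg (by omega), if_pos rfl]
          exact hze
    have hkb : ((k' : ℝ) + 1) * α ≤ b := by
      obtain ⟨z, hz, hzw, _⟩ := hz (k' + 1) le_rfl
      have e1 := h.mx.le (y * z) (mul_mem h.mx.mem (WP_mono cs (by
        rw [hL] at *
        exact (vset_mono (by omega)).trans (Finset.subset_insert _ _)) hz))
      push_cast at hzw
      linarith
    -- the weight of `n`
    have hcost := h.cost
    have hnl := h.n_length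
    have hψm : ψ m = ψ (m * c⁻¹) + ψ c := by
      have := h.wt (m * c⁻¹) c (by rw [inv_mul_cancel_right]; exact hnl)
      rwa [inv_mul_cancel_right] at this
    have hψn : b < ψ (m * c⁻¹) := by rw [hψm, hψs] at hcost; linarith
    have hn1 : m * c⁻¹ ≠ 1 := by
      intro h1
      rw [h1, h.wt.one] at hψn
      linarith
    obtain ⟨t, ht⟩ := cs.exists_rightDescent_of_ne_one hn1
    rw [isRightDescent_iff] at ht
    have htn := tits_neg cs _ t ht
    have htL := desc_mem cs h.n_mem htn
    have htq : t = q := by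
      rcases memL t htL with h1 | ⟨i, hi, rfl⟩
      · exact h1
      · exfalso
        have h2 := h.g_nonpos htn (supp_rho cs h.n_mem htL)
        rw [← h.rho_u_n] at h2
        exact not_pos_and_neg cs (huai i hi) h2
    subst htq
    set n' := m * c⁻¹ * cs.simple t with hn'
    have hnn' : m * c⁻¹ = n' * cs.simple t := by rw [hn']; simp
    have hl : cs.length (n' * cs.simple t) = cs.length n' + 1 := by rw [← hnn']; omega
    have e1 := h.wt.mul_simple cs hl
    rw [← hnn'] at e1
    have hpt := tits_pos cs n' t hl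
    set F : Set (B → ℝ) := (fun j => (Real.sqrt 2 / 2) • (ev t a 0 + ev t a (j + 1))) ''
      (Set.Iio (k' + 2)) with hF
    have hFf : F.Finite := (Set.finite_Iio _).image _
    have hFc : F.ncard ≤ k' + 2 := by
      refine (Set.ncard_image_le (Set.finite_Iio _)).trans ?_
      rw [← Finset.coe_Iio, Set.ncard_coe_finset]
      simp
    have hA : ∀ β, IsPR cs ψ β → 0 ≤ β → (∀ i ∉ L, β i = 0) → rho cs (m * c⁻¹) β ≤ 0 → β ∈ F := by
      intro β hβ hβ0 hβs hβn
      have hβu : rho cs u β ≤ 0 := by
        rw [h.rho_u_n]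
        apply h.g_nonpos hβn
        intro i hi
        rw [rho_coord cs h.n_mem _ hi, hβs i hi]
      obtain ⟨i, j, hij, hj, he⟩ := hattP hβ hβ0 hβs hβu
      rcases Nat.eq_zero_or_pos i with rfl | hi
      · refine ⟨j - 1, ?_, ?_⟩
        · rw [Set.mem_Iio]; omega
        · simp only [show j - 1 + 1 = j by omega]
          exact he.symm
      · exfalso
        have h2 : 0 ≤ rho cs u β := by
          rw [he, map_smul, map_add, hue i (by omega), hue j hj]
          exact smul_nonneg (by positivity) (add_nonneg (hye _ (by omega)) (hye _ (by omega)))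
        exact (hβ.isRt.rho u).false h2 hβu
    have e2 := count_le h.wt hα0.le wle n' (simple_mul_mem cs h.n_mem htL)
      ((rho cs (cs.simple t)) '' F) (hFf.image _) (by
        intro z hz hz0 hzs hzx
        have h6 : 0 ≤ rho cs (cs.simple t) z := by
          rcases (hz.isRt.rho (cs.simple t)).pos_or_neg with h7 | h7
          · exact h7
          · exfalso
            have h8 := hz.isRt.eq_al hz0 h7
            rw [h8] at hzx
            exact not_pos_and_neg cs hpt hzx
        refine ⟨rho cs (cs.simple t) z, hA _ (hz.rho _) h6 ?_ ?_, ?_⟩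
        · intro i hi
          rw [rho_coord cs (simple_mem cs htL) _ hi, hzs i hi]
        · rw [hnn', ← rho_mul, simple_mul_simple_cancel_right]; exact hzx
        · rw [← rho_mul, cs.simple_mul_simple_self, rho_one])
    have e3 : ((rho cs (cs.simple t)) '' F).ncard ≤ k' + 2 := (Set.ncard_image_le hFf).trans hFc
    have e4 : (((rho cs (cs.simple t)) '' F).ncard : ℝ) ≤ k' + 2 := by exact_mod_cast e3
    have e5 : α * (((rho cs (cs.simple t)) '' F).ncard : ℝ) ≤ α * (k' + 2) :=
      mul_le_mul_of_nonneg_left e4 hα0.le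
    rw [hb] at *
    nlinarith

end Cr

end Pool.Agent.H44.Cox
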