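import Mathlib
import Pool.Agent.H44.Cox.CaseG

set_option autoImplicit false
set_option linter.unusedSectionVars false
set_option linter.unusedSimpArgs false
set_option linter.unusedVariables false

/-! # Type `F₄`: minimal representatives of the cosets of the subgroup of type `B₃` -/

namespace Pool.Agent.H44.Cox

open CoxeterSystem Pool.Agent.H80.Cox

variable {B : Type*} [Fintype B] [DecidableEq B] {W : Type*} [Group W]
variable {M : CoxeterMatrix B} {cs : CoxeterSystem M W}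
variable {ψ : W → ℝ}

abbrev Q4 := ℤ × ℤ × ℤ × ℤ

/-- reflections on integral vectors -/
def rfi (l : Fin 4) (n : Q4) : Q4 :=
  if l = 0 then (n.2.1, n.1, n.2.2.1, n.2.2.2)
  else if l = 1 then (n.1, n.2.2.1, n.2.1, n.2.2.2)
  else if l = 2 then (-n.1, n.2.1, n.2.2.1, n.2.2.2)
  else (n.1 + (n.2.2.2 - n.1 - n.2.1 - n.2.2.1) / 2, n.2.1 + (n.2.2.2 - n.1 - n.2.1 - n.2.2.1) / 2,
    n.2.2.1 + (n.2.2.2 - n.1 - n.2.1 - n.2.2.1) / 2, n.2.2.2 - (n.2.2.2 - n.1 - n.2.1 - n.2.2.1) / 2)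

/-- pairing with the simple roots -/
def prl (l : Fin 4) (n : Q4) : ℤ :=
  if l = 0 then n.2.1 - n.1
  else if l = 1 then n.2.2.1 - n.2.1
  else if l = 2 then n.1
  else n.2.2.2 - n.1 - n.2.1 - n.2.2.1

/-- parity condition -/
def par (n : Q4) : Bool := (n.2.2.2 - n.1 - n.2.1 - n.2.2.1) % 2 == 0

/-- nonpositivity -/
def npo (n : Q4) : Bool :=
  decide (n.2.2.2 ≤ 0) && decide (n.2.2.1 + n.2.2.2 ≤ 0) &&
    decide (n.2.1 + n.2.2.1 + 2 * n.2.2.2 ≤ 0) && decide (n.1 + n.2.1 + n.2.2.1 + 3 * n.2.2.2 ≤ 0)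

/-- states: images of the four basis vectors, numbers of letters of both kinds -/
abbrev St := Q4 × Q4 × Q4 × Q4 × ℕ × ℕ

def tab : List St := [
  ((0, 0, 0, 2), (2, 0, 0, 0), (0, 2, 0, 0), (0, 0, 2, 0), 0, 0),
  ((1, 1, 1, 1), (1, -1, -1, 1), (-1, 1, -1, 1), (-1, -1, 1, 1), 0, 1),
  ((-1, 1, 1, 1), (-1, -1, -1, 1), (1, 1, -1, 1), (1, -1, 1, 1), 0, 2),
  ((1, -1, 1, 1), (-1, -1, -1, 1), (1, 1, -1, 1), (-1, 1, 1, 1), 1, 2),
  ((1, 1, -1, 1), (-1, -1, -1, 1), (1, -1, 1, 1), (-1, 1, 1, 1), 2, 2),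
  ((-1, -1, 1, 1), (1, -1, -1, 1), (-1, 1, -1, 1), (1, 1, 1, 1), 1, 3),
  ((-1, 1, -1, 1), (1, -1, -1, 1), (-1, -1, 1, 1), (1, 1, 1, 1), 2, 3),
  ((0, 0, 2, 0), (2, 0, 0, 0), (0, 2, 0, 0), (0, 0, 0, 2), 1, 4),
  ((1, -1, -1, 1), (-1, 1, -1, 1), (-1, -1, 1, 1), (1, 1, 1, 1), 3, 3),
  ((0, 2, 0, 0), (2, 0, 0, 0), (0, 0, 2, 0), (0, 0, 0, 2), 2, 4),
  ((-1, -1, -1, 1), (1, 1, -1, 1), (1, -1, 1, 1), (-1, 1, 1, 1), 3, 4),
  ((2, 0, 0, 0), (0, 2, 0, 0), (0, 0, 2, 0), (0, 0, 0, 2), 3, 4),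
  ((1, 1, 1, -1), (1, 1, -1, 1), (1, -1, 1, 1), (-1, 1, 1, 1), 3, 5),
  ((-2, 0, 0, 0), (0, 2, 0, 0), (0, 0, 2, 0), (0, 0, 0, 2), 3, 5),
  ((-1, 1, 1, -1), (-1, 1, -1, 1), (-1, -1, 1, 1), (1, 1, 1, 1), 3, 6),
  ((0, -2, 0, 0), (2, 0, 0, 0), (0, 0, 2, 0), (0, 0, 0, 2), 4, 5),
  ((1, -1, 1, -1), (1, -1, -1, 1), (-1, -1, 1, 1), (1, 1, 1, 1), 4, 6),
  ((0, 0, -2, 0), (2, 0, 0, 0), (0, 2, 0, 0), (0, 0, 0, 2), 5, 5),
  ((1, 1, -1, -1), (1, -1, -1, 1), (-1, 1, -1, 1), (1, 1, 1, 1), 5, 6),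
  ((-1, -1, 1, -1), (-1, -1, -1, 1), (1, -1, 1, 1), (-1, 1, 1, 1), 4, 7),
  ((-1, 1, -1, -1), (-1, -1, -1, 1), (1, 1, -1, 1), (-1, 1, 1, 1), 5, 7),
  ((1, -1, -1, -1), (-1, -1, -1, 1), (1, 1, -1, 1), (1, -1, 1, 1), 6, 7),
  ((-1, -1, -1, -1), (1, -1, -1, 1), (-1, 1, -1, 1), (-1, -1, 1, 1), 6, 8),
  ((0, 0, 0, -2), (2, 0, 0, 0), (0, 2, 0, 0), (0, 0, 2, 0), 6, 9)]

def stp (l : Fin 4) (t : St) : St :=
  (rfi l t.1, rfi l t.2.1, rfi l t.2.2.1, rfi l t.2.2.2.1,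
    if l = 0 ∨ l = 1 then t.2.2.2.2.1 + 1 else t.2.2.2.2.1,
    if l = 0 ∨ l = 1 then t.2.2.2.2.2 else t.2.2.2.2.2 + 1)

lemma tab_step : ∀ t ∈ tab, ∀ l : Fin 4, 0 < prl l t.1 → stp l t ∈ tab := by decide +kernel

lemma tab_par : ∀ t ∈ tab, par t.1 = true ∧ par t.2.1 = true ∧ par t.2.2.1 = true ∧
    par t.2.2.2.1 = true := by decide +kernel

lemma tab_le : ∀ t ∈ tab, t.2.2.2.2.1 ≤ t.2.2.2.2.2 ∧ t.2.2.2.2.1 ≤ 6 := by decide +kernel

lemma tab_five : ∀ t ∈ tab, 5 ≤ t.2.2.2.2.1 → npo (t.1 - t.2.1) = true ∧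
    npo (t.1 - t.2.2.1) = true ∧ npo (t.1 - t.2.2.2.1) = true ∧ npo (t.1 + t.2.1) = true ∧
    npo (t.1 + t.2.2.1) = true := by decide +kernel

lemma tab_six : ∀ t ∈ tab, t.2.2.2.2.1 = 6 → npo (t.1 + t.2.2.2.1) = true := by decide +kernel

lemma tab_v1 : ∀ t ∈ tab, t.1 = (0, 0, -2, 0) → t.2.2.2.2.1 = 5 ∧ t.2.2.2.2.2 = 5 := by
  decide +kernel

lemma tab_v2 : ∀ t ∈ tab, t.1 = (1, -1, -1, -1) → t.2.2.2.2.1 = 6 ∧ t.2.2.2.2.2 = 7 := by
  decide +kernel

/-- the generators -/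
def lt (a1 a0 b0 b1 : B) (l : Fin 4) : B :=
  if l = 0 then a0 else if l = 1 then a1 else if l = 2 then b0 else b1

lemma exists_lt {a1 a0 b0 b1 t : B} (ht : t ∈ ({a1, a0, b0, b1} : Finset B)) :
    ∃ l, lt a1 a0 b0 b1 l = t := by
  simp only [Finset.mem_insert, Finset.mem_singleton] at ht
  rcases ht with rfl | rfl | rfl | rfl
  · exact ⟨1, by simp [lt]⟩
  · exact ⟨0, by simp [lt]⟩
  · exact ⟨2, by simp [lt]⟩
  · exact ⟨3, by simp [lt]⟩

namespace FD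

variable {a1 a0 b0 b1 : B} (f : FD M a1 a0 b0 b1)
include f

lemma sig_lt (l : Fin 4) (n : Q4) (hn : par n = true) :
    sig M (lt a1 a0 b0 b1 l) (V a1 a0 b0 b1 n) = V a1 a0 b0 b1 (rfi l n) := by
  fin_cases l
  · simp only [lt, rfi, Fin.zero_eta, Fin.isValue, if_true]
    exact f.sig_a0 n
  · simp only [lt, rfi, Fin.mk_one, Fin.isValue, one_ne_zero, if_true, if_false]
    exact f.sig_a1 n
  · simp only [lt, rfi, Fin.reduceFinMk, Fin.isValue, Fin.reduceEq, if_true, if_false]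
    exact f.sig_b0 n
  · simp only [lt, rfi, Fin.reduceFinMk, Fin.isValue, Fin.reduceEq, if_true, if_false]
    apply f.sig_b1 n
    simp only [par, beq_iff_eq] at hn
    omega

/-- coordinates of the simple roots -/
lemma al_V : al a0 = (Real.sqrt 2 / 2) • V a1 a0 b0 b1 (-1, 1, 0, 0) ∧
    al a1 = (Real.sqrt 2 / 2) • V a1 a0 b0 b1 (0, -1, 1, 0) ∧
    al b0 = V a1 a0 b0 b1 (1, 0, 0, 0) ∧ al b1 = (1 / 2 : ℝ) • V a1 a0 b0 b1 (-1, -1, -1, 1) := by
  refine ⟨?_, ?_, ?_, ?_⟩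
  · have := al_y b0 (pth a0 a1) 0
    rw [pth_zero] at this
    rw [this]
    unfold V
    push_cast
    module
  · have := al_y b0 (pth a0 a1) 1
    rw [pth_one] at this
    rw [this]
    unfold V
    push_cast
    module
  · rw [f.V_e0, ev_zero]
  · unfold V
    push_cast
    module

lemma bil_lt (l : Fin 4) (n : Q4) : ∃ k : ℝ, 0 < k ∧
    bil M (V a1 a0 b0 b1 n) (al (lt a1 a0 b0 b1 l)) = k * prl l n := by
  have hs0 := sqrt2_pos
  obtain ⟨e1, e2, e3, e4⟩ := f.al_V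
  fin_cases l
  · refine ⟨Real.sqrt 2 / 2, by positivity, ?_⟩
    simp only [lt, prl, Fin.zero_eta, Fin.isValue, if_true]
    rw [e1, bil_smul_right, f.bil_V]
    push_cast
    ring
  · refine ⟨Real.sqrt 2 / 2, by positivity, ?_⟩
    simp only [lt, prl, Fin.mk_one, Fin.isValue, one_ne_zero, if_true, if_false]
    rw [e2, bil_smul_right, f.bil_V]
    push_cast
    ring
  · refine ⟨1, by positivity, ?_⟩
    simp only [lt, prl, Fin.reduceFinMk, Fin.isValue, Fin.reduceEq, if_true, if_false]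
    rw [e3, f.bil_V]
    push_cast
    ring
  · refine ⟨1 / 2, by positivity, ?_⟩
    simp only [lt, prl, Fin.reduceFinMk, Fin.isValue, Fin.reduceEq, if_true, if_false]
    rw [e4, bil_smul_right, f.bil_V]
    push_cast
    ring

lemma V_npo {n : Q4} (h : npo n = true) : V a1 a0 b0 b1 n ≤ 0 := by
  unfold npo at h
  simp only [Bool.and_eq_true, decide_eq_true_eq] at h
  exact f.V_nonpos h.1.1.1 h.1.1.2 h.1.2 h.2

/-- reduced with respect to the subgroup of type `B₃`: the state -/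
theorem state (hψ : IsWeight cs ψ) {α b : ℝ} (wa1 : ψ (cs.simple a1) = α)
    (wa0 : ψ (cs.simple a0) = α) (wb0 : ψ (cs.simple b0) = -b) (wb1 : ψ (cs.simple b1) = -b) :
    ∀ w ∈ WP cs {a1, a0, b0, b1}, (∀ r ∈ ({a1, a0, b0} : Finset B), 0 ≤ rho cs w (al r)) →
      ∃ t ∈ tab, rho cs w (V a1 a0 b0 b1 (0, 0, 0, 2)) = V a1 a0 b0 b1 t.1 ∧
        rho cs w (V a1 a0 b0 b1 (2, 0, 0, 0)) = V a1 a0 b0 b1 t.2.1 ∧
        rho cs w (V a1 a0 b0 b1 (0, 2, 0, 0)) = V a1 a0 b0 b1 t.2.2.1 ∧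
        rho cs w (V a1 a0 b0 b1 (0, 0, 2, 0)) = V a1 a0 b0 b1 t.2.2.2.1 ∧
        ψ w = α * t.2.2.2.2.1 - b * t.2.2.2.2.2 := by
  apply WP_induction_left
  · intro _
    refine ⟨((0, 0, 0, 2), (2, 0, 0, 0), (0, 2, 0, 0), (0, 0, 2, 0), 0, 0), by decide +kernel,
      ?_, ?_, ?_, ?_, ?_⟩
    · rw [rho_one]
    · rw [rho_one]
    · rw [rho_one]
    · rw [rho_one]
    · rw [hψ.one]; simp
  · intro w hw t ht hl ih hred
    have hinv := inv_al_nonneg hl
    have hwr : ∀ r ∈ ({a1, a0, b0} : Finset B), 0 ≤ rho cs w (al r) := by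
      intro r hr
      apply pos_of_not_neg
      intro hneg
      have h1 := hred r hr
      rw [rho_mul] at h1
      have h2 : IsRt cs (- rho cs w (al r)) := ((IsRt.al r).rho w).neg
      have h3 := h2.eq_al (s := t) (neg_nonneg.2 hneg) (by
        rw [map_neg]; exact neg_nonpos.2 h1)
      have h4 : rho cs w⁻¹ (al t) = - al r := by
        rw [← h3, map_neg, rho_inv_cancel]
      rw [h4] at hinv
      exact (IsRt.al (cs := cs) r).false (al_nonneg r) (neg_nonneg.1 hinv)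
    obtain ⟨st, hst, e1, e2, e3, e4, e5⟩ := ih hwr
    obtain ⟨l, hlt⟩ := exists_lt ht
    -- the pairing is positive
    have hpos : 0 < prl l st.1 := by
      have h1 : 0 < bil M (V a1 a0 b0 b1 st.1) (al t) := by
        rw [← e1, bil_rho_left]
        set δ := rho cs w⁻¹ (al t) with hδ
        have hδs : ∀ i ∉ ({a1, a0, b0, b1} : Finset B), δ i = 0 := supp_rho cs (inv_mem hw) ht
        have hδb : 0 < δ b1 := by
          by_contra hcon
          push Not at hcon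
          have h2 : δ b1 = 0 := le_antisymm hcon (hinv b1)
          have h3 := comb_nonneg cs hred hinv (by
            intro i hi
            by_cases hib : i = b1
            · rw [hib]; exact h2
            · apply hδs
              simp only [Finset.mem_insert, Finset.mem_singleton, not_or] at hi ⊢
              exact ⟨hi.1, hi.2.1, hi.2.2, hib⟩)
          rw [rho_mul, hδ, rho_cancel_inv, rho_simple, sig_al_self] at h3
          exact (IsRt.al (cs := cs) t).false (al_nonneg t) (neg_nonneg.1 h3)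
        rw [bil_symm]
        have h4 : bil M δ (V a1 a0 b0 b1 (0, 0, 0, 2)) =
            ∑ i ∈ ({a1, a0, b0, b1} : Finset B), δ i * fB M i (V a1 a0 b0 b1 (0, 0, 0, 2)) := by
          rw [bil_symm]
          unfold bil
          symm
          apply Finset.sum_subset (Finset.subset_univ _)
          intro i _ hi
          rw [hδs i hi, zero_mul]
        obtain ⟨al1, al2, al3, al4⟩ := f.al_V
        have g1 : fB M a0 (V a1 a0 b0 b1 (0, 0, 0, 2)) = 0 := by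
          rw [← bil_al_right]
          conv_lhs => rw [al1]
          rw [bil_smul_right, f.bil_V]; norm_num
        have g2 : fB M a1 (V a1 a0 b0 b1 (0, 0, 0, 2)) = 0 := by
          rw [← bil_al_right]
          conv_lhs => rw [al2]
          rw [bil_smul_right, f.bil_V]; norm_num
        have g3 : fB M b0 (V a1 a0 b0 b1 (0, 0, 0, 2)) = 0 := by
          rw [← bil_al_right]
          conv_lhs => rw [al3]
          rw [f.bil_V]; norm_num
        have g4 : fB M b1 (V a1 a0 b0 b1 (0, 0, 0, 2)) = 1 := by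
          rw [← bil_al_right]
          conv_lhs => rw [al4]
          rw [bil_smul_right, f.bil_V]; norm_num
        rw [h4, Finset.sum_insert (by simp [f.ne1, f.ne4, f.ne5]), Finset.sum_insert
          (by simp [f.ne2, f.ne6]), Finset.sum_insert (by simp [f.ne3]), Finset.sum_singleton,
          g1, g2, g3, g4]
        linarith
      rw [← hlt] at h1
      obtain ⟨k, hk, h2⟩ := f.bil_lt l st.1
      rw [h2] at h1
      have h3 : (0 : ℝ) < prl l st.1 := by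
        by_contra hcon
        push Not at hcon
        nlinarith
      exact_mod_cast h3
    have hstep := tab_step st hst l hpos
    obtain ⟨q1, q2, q3, q4⟩ := tab_par st hst
    refine ⟨stp l st, hstep, ?_, ?_, ?_, ?_, ?_⟩
    · rw [rho_mul, e1, rho_simple, ← hlt, f.sig_lt l _ q1]; rfl
    · rw [rho_mul, e2, rho_simple, ← hlt, f.sig_lt l _ q2]; rfl
    · rw [rho_mul, e3, rho_simple, ← hlt, f.sig_lt l _ q3]; rfl
    · rw [rho_mul, e4, rho_simple, ← hlt, f.sig_lt l _ q4]; rfl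
    · rw [hψ.simple_mul cs hl, e5, ← hlt]
      fin_cases l
      · simp [lt, stp, wa0]; ring
      · simp [lt, stp, wa1]; ring
      · simp [lt, stp, wb0]; ring
      · simp [lt, stp, wb1]; ring

end FD

end Pool.Agent.H44.Cox
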