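import Mathlib
import Pool.Agent.H44.Cox.FT

set_option autoImplicit false
set_option linter.unusedSectionVars false
set_option linter.unusedSimpArgs false
set_option linter.unusedVariables false

/-! # Case II: type `F₄` -/

namespace Pool.Agent.H44.Cox

open CoxeterSystem Pool.Agent.H80.Cox

variable {B : Type*} [Fintype B] [DecidableEq B] {W : Type*} [Group W]
variable {M : CoxeterMatrix B} {cs : CoxeterSystem M W}
variable {ψ : W → ℝ} {L : Finset B} {s : B} {y g m u c : W}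

/-- long vectors -/
def lst : List Q4 := [(1, 1, 0, 0), (1, -1, 0, 0), (-1, 1, 0, 0), (-1, -1, 0, 0),
  (1, 0, 1, 0), (1, 0, -1, 0), (-1, 0, 1, 0), (-1, 0, -1, 0),
  (1, 0, 0, 1), (1, 0, 0, -1), (-1, 0, 0, 1), (-1, 0, 0, -1),
  (0, 1, 1, 0), (0, 1, -1, 0), (0, -1, 1, 0), (0, -1, -1, 0),
  (0, 1, 0, 1), (0, 1, 0, -1), (0, -1, 0, 1), (0, -1, 0, -1),
  (0, 0, 1, 1), (0, 0, 1, -1), (0, 0, -1, 1), (0, 0, -1, -1)]

lemma lst_step : ∀ n ∈ lst, ∀ l : Fin 4, rfi l n ∈ lst ∧ par n = true := by decide +kernel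

lemma lst_pos : ∀ n ∈ lst, 0 < n.2.2.2 → n = (0, 0, -1, 1) ∨ n = (0, 0, 1, 1) ∨
    n = (1, 0, 0, 1) ∨ n = (-1, 0, 0, 1) ∨ n = (0, 1, 0, 1) ∨ n = (0, -1, 0, 1) := by
  decide +kernel

namespace FD

variable {a1 a0 b0 b1 : B} (f : FD M a1 a0 b0 b1)
include f

/-- long roots -/
lemma long_class {r : B} (hr : r = a0 ∨ r = a1) : ∀ w ∈ WP cs {a1, a0, b0, b1},
    ∃ n ∈ lst, rho cs w (al r) = (Real.sqrt 2 / 2) • V a1 a0 b0 b1 n := by
  apply WP_induction_left
  · obtain ⟨e1, e2, _, _⟩ := f.al_V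
    rcases hr with rfl | rfl
    · exact ⟨(-1, 1, 0, 0), by decide +kernel, by rw [rho_one]; exact e1⟩
    · exact ⟨(0, -1, 1, 0), by decide +kernel, by rw [rho_one]; exact e2⟩
  · intro w hw t ht hl ih
    obtain ⟨n, hn, he⟩ := ih
    obtain ⟨l, hlt⟩ := exists_lt ht
    obtain ⟨h1, h2⟩ := lst_step n hn l
    exact ⟨rfi l n, h1, by rw [rho_mul, he, map_smul, rho_simple, ← hlt, f.sig_lt l n h2]⟩

/-- the orbit under the short generators -/
lemma pi_class : ∀ w ∈ WP cs {b0, b1}, rho cs w (al a1) = al a1 ∧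
    (rho cs w (al a0) = al a0 ∨
      rho cs w (al a0) = (Real.sqrt 2 / 2) • V a1 a0 b0 b1 (1, 1, 0, 0) ∨
      rho cs w (al a0) = (Real.sqrt 2 / 2) • V a1 a0 b0 b1 (0, 0, -1, 1)) := by
  obtain ⟨e1, e2, _, _⟩ := f.al_V
  apply WP_induction_left
  · rw [rho_one, rho_one]
    exact ⟨rfl, Or.inl rfl⟩
  · intro w hw t ht hl ih
    rw [rho_mul, rho_mul, ih.1, rho_simple]
    have s1 := f.sig_b0
    have s2 := f.sig_b1
    rw [Finset.mem_insert, Finset.mem_singleton] at ht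
    rcases ht with rfl | rfl
    · constructor
      · rw [sig_al, cc_of_eq_two M f.m4]; simp
      · rcases ih.2 with h1 | h1 | h1
        · right; left
          rw [h1]
          conv_lhs => rw [e1]
          rw [map_smul, s1]
          norm_num
        · left
          rw [h1, map_smul, s1]
          conv_rhs => rw [e1]
        · right; right
          rw [h1, map_smul, s1]
          norm_num
    · constructor
      · rw [sig_al, cc_of_eq_two M f.m5]; simp
      · rcases ih.2 with h1 | h1 | h1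
        · left
          rw [h1]
          rw [sig_al, cc_of_eq_two M f.m6]; simp
        · right; right
          rw [h1, map_smul, s2 _ (-1) (by norm_num)]
          norm_num
        · right; left
          rw [h1, map_smul, s2 _ 1 (by norm_num)]
          norm_num

/-- long roots have positive weight -/
lemma isPR_V (p0 : 0 < ψ (cs.simple a0)) {n : Q4} (hn : n ∈ lst) :
    IsPR cs ψ ((Real.sqrt 2 / 2) • V a1 a0 b0 b1 n) := by
  have hs := sqrt2_sq
  obtain ⟨e1, e2, _, _⟩ := f.al_V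
  have p := f.path
  have hpa : ∀ i ≤ 1, 0 < ψ (cs.simple (pth a0 a1 i)) → True := fun _ _ _ => trivial
  -- unit vectors
  have r0 : IsRt cs (V a1 a0 b0 b1 (1, 0, 0, 0)) := by rw [f.V_e0]; exact p.ev_isRt (by omega)
  have r1 : IsRt cs (V a1 a0 b0 b1 (0, 1, 0, 0)) := by rw [f.V_e1]; exact p.ev_isRt (by omega)
  have r2 : IsRt cs (V a1 a0 b0 b1 (0, 0, 1, 0)) := by rw [f.V_e2]; exact p.ev_isRt (by omega)
  have r3 : IsRt cs (V a1 a0 b0 b1 (0, 0, 0, 1)) := f.isRt_e3
  have g0 : ∀ n, IsPR cs ψ ((Real.sqrt 2 / 2) • V a1 a0 b0 b1 n) →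
      IsPR cs ψ ((Real.sqrt 2 / 2) • V a1 a0 b0 b1 (-n.1, n.2.1, n.2.2.1, n.2.2.2)) := by
    intro n hn
    have := IsPR.refl r0 hn
    rw [bil_smul_left, f.bil_V] at this
    convert this using 1
    unfold V
    push_cast
    module
  have g1 : ∀ n, IsPR cs ψ ((Real.sqrt 2 / 2) • V a1 a0 b0 b1 n) →
      IsPR cs ψ ((Real.sqrt 2 / 2) • V a1 a0 b0 b1 (n.1, -n.2.1, n.2.2.1, n.2.2.2)) := by
    intro n hn
    have := IsPR.refl r1 hn
    rw [bil_smul_left, f.bil_V] at this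
    convert this using 1
    unfold V
    push_cast
    module
  have g2 : ∀ n, IsPR cs ψ ((Real.sqrt 2 / 2) • V a1 a0 b0 b1 n) →
      IsPR cs ψ ((Real.sqrt 2 / 2) • V a1 a0 b0 b1 (n.1, n.2.1, -n.2.2.1, n.2.2.2)) := by
    intro n hn
    have := IsPR.refl r2 hn
    rw [bil_smul_left, f.bil_V] at this
    convert this using 1
    unfold V
    push_cast
    module
  have g3 : ∀ n, IsPR cs ψ ((Real.sqrt 2 / 2) • V a1 a0 b0 b1 n) →
      IsPR cs ψ ((Real.sqrt 2 / 2) • V a1 a0 b0 b1 (n.1, n.2.1, n.2.2.1, -n.2.2.2)) := by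
    intro n hn
    have := IsPR.refl r3 hn
    rw [bil_smul_left, f.bil_V] at this
    convert this using 1
    unfold V
    push_cast
    module
  have s0 : ∀ n, IsPR cs ψ ((Real.sqrt 2 / 2) • V a1 a0 b0 b1 n) →
      IsPR cs ψ ((Real.sqrt 2 / 2) • V a1 a0 b0 b1 (n.2.1, n.1, n.2.2.1, n.2.2.2)) := by
    intro n hn
    have := hn.rho (cs.simple a0)
    rwa [map_smul, rho_simple, f.sig_a0] at this
  have s1 : ∀ n, IsPR cs ψ ((Real.sqrt 2 / 2) • V a1 a0 b0 b1 n) →
      IsPR cs ψ ((Real.sqrt 2 / 2) • V a1 a0 b0 b1 (n.1, n.2.2.1, n.2.1, n.2.2.2)) := by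
    intro n hn
    have := hn.rho (cs.simple a1)
    rwa [map_smul, rho_simple, f.sig_a1] at this
  have k1 : IsPR cs ψ ((Real.sqrt 2 / 2) • V a1 a0 b0 b1 (-1, 1, 0, 0)) := by
    rw [← e1]; exact IsPR.al p0
  have k2 := g0 _ k1
  have k3 := g1 _ k1
  have k4 := g1 _ k2
  norm_num at k2 k3 k4
  have k5 := s1 _ k1
  have k6 := s1 _ k2
  have k7 := s1 _ k3
  have k8 := s1 _ k4
  norm_num at k5 k6 k7 k8
  have k9 := s0 _ k5
  have k10 := s0 _ k6
  have k11 := s0 _ k7
  have k12 := s0 _ k8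
  norm_num at k9 k10 k11 k12
  -- vectors involving the last coordinate
  have l1 : IsPR cs ψ ((Real.sqrt 2 / 2) • V a1 a0 b0 b1 (0, 0, -1, 1)) := by
    have := k2.rho (cs.simple b1)
    rw [map_smul, rho_simple, f.sig_b1 _ (-1) (by norm_num)] at this
    norm_num at this
    exact this
  have l2 := g2 _ l1
  have l3 := g3 _ l1
  have l4 := g3 _ l2
  norm_num at l2 l3 l4
  have l5 := s1 _ l1
  have l6 := s1 _ l2
  have l7 := s1 _ l3
  have l8 := s1 _ l4
  norm_num at l5 l6 l7 l8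
  have l9 := s0 _ l5
  have l10 := s0 _ l6
  have l11 := s0 _ l7
  have l12 := s0 _ l8
  norm_num at l9 l10 l11 l12
  unfold lst at hn
  simp only [List.mem_cons, List.not_mem_nil, or_false] at hn
  rcases hn with rfl | rfl | rfl | rfl | rfl | rfl | rfl | rfl | rfl | rfl | rfl | rfl | rfl |
    rfl | rfl | rfl | rfl | rfl | rfl | rfl | rfl | rfl | rfl | rfl <;> assumption

/-- elements of the subgroup of type `B₃` fix the last vector -/
lemma fix_e3 : ∀ w ∈ WP cs {a1, a0, b0}, ∀ k : ℤ,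
    rho cs w (V a1 a0 b0 b1 (0, 0, 0, k)) = V a1 a0 b0 b1 (0, 0, 0, k) := by
  apply WP_induction
  · intro k; rw [rho_one]
  · intro w hw t ht hl ih k
    rw [rho_mul, rho_simple]
    simp only [Finset.mem_insert, Finset.mem_singleton] at ht
    rcases ht with rfl | rfl | rfl
    · rw [f.sig_a1]; exact ih k
    · rw [f.sig_a0]; exact ih k
    · rw [f.sig_b0]; norm_num; exact ih k

/-- one more letter -/
lemma reach {n : Q4} (l : Fin 4) (h : ∃ z ∈ WP cs {a1, a0, b0, b1},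
    rho cs z (V a1 a0 b0 b1 (0, 0, 0, 2)) = V a1 a0 b0 b1 n) (hp : par n = true) :
    ∃ z ∈ WP cs {a1, a0, b0, b1},
      rho cs z (V a1 a0 b0 b1 (0, 0, 0, 2)) = V a1 a0 b0 b1 (rfi l n) := by
  obtain ⟨z, hz, he⟩ := h
  refine ⟨cs.simple (lt a1 a0 b0 b1 l) * z, mul_mem (simple_mem cs ?_) hz, ?_⟩
  · fin_cases l <;> simp [lt]
  · rw [rho_mul, he, rho_simple, f.sig_lt l n hp]

lemma reach_list (ls : List (Fin 4)) {n : Q4} (h : ∃ z ∈ WP cs {a1, a0, b0, b1},
    rho cs z (V a1 a0 b0 b1 (0, 0, 0, 2)) = V a1 a0 b0 b1 n) (n' : Q4)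
    (hp : ((ls.foldl (fun p l => (p.1 && par p.2, rfi l p.2)) (true, n))) = (true, n')) :
    ∃ z ∈ WP cs {a1, a0, b0, b1},
      rho cs z (V a1 a0 b0 b1 (0, 0, 0, 2)) = V a1 a0 b0 b1 n' := by
  have aux : ∀ (ls : List (Fin 4)) (n : Q4),
      (ls.foldl (fun p l => (p.1 && par p.2, rfi l p.2)) (false, n)).1 = false := by
    intro ls
    induction ls with
    | nil => intro n; rfl
    | cons l ls ih => intro n; rw [List.foldl_cons]; simp only [Bool.false_and]; exact ih _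
  induction ls generalizing n with
  | nil =>
    simp only [List.foldl_nil, Prod.mk.injEq, true_and] at hp
    rw [← hp]; exact h
  | cons l ls ih =>
    rw [List.foldl_cons] at hp
    by_cases hpar : par n = true
    · simp only [hpar, Bool.and_true] at hp
      exact ih (f.reach l h hpar) hp
    · exfalso
      simp only [Bool.not_eq_true] at hpar
      simp only [hpar, Bool.and_false] at hp
      have := aux ls (rfi l n)
      rw [hp] at this
      simp at this

/-- existence of reduced representatives -/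
lemma exists_rep (ls : List (Fin 4)) (n' : Q4)
    (hp : ((ls.foldl (fun p l => (p.1 && par p.2, rfi l p.2)) (true, (0, 0, 0, 2)))) = (true, n')) :
    ∃ z ∈ WP cs {a1, a0, b0, b1}, (∀ r ∈ ({a1, a0, b0} : Finset B), 0 ≤ rho cs z (al r)) ∧
      rho cs z (V a1 a0 b0 b1 (0, 0, 0, 2)) = V a1 a0 b0 b1 n' := by
  obtain ⟨z', hz', he⟩ := f.reach_list (cs := cs) ls ⟨1, one_mem _, by rw [rho_one]⟩ n' hp
  obtain ⟨z, x, hzx, hx, hz⟩ := exists_dec cs {a1, a0, b0} z'
  have hsub : ({a1, a0, b0} : Finset B) ⊆ {a1, a0, b0, b1} := by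
    intro t ht
    simp only [Finset.mem_insert, Finset.mem_singleton] at ht ⊢
    tauto
  refine ⟨z, ?_, hz, ?_⟩
  · have : z = z' * x⁻¹ := by rw [hzx]; simp
    rw [this]
    exact mul_mem hz' (inv_mem (WP_mono cs hsub hx))
  · rw [hzx, rho_mul, f.fix_e3 x hx] at he
    exact he

end FD

end Pool.Agent.H44.Cox
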