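import Mathlib
import Pool.Agent.H44.Cox.CaseE

set_option autoImplicit false
set_option linter.unusedSectionVars false
set_option linter.unusedSimpArgs false
set_option linter.unusedVariables false

/-! # Case II: type `F₄`, conclusion -/

namespace Pool.Agent.H44.Cox

open CoxeterSystem Pool.Agent.H80.Cox

variable {B : Type*} [Fintype B] [DecidableEq B] {W : Type*} [Group W]
variable {M : CoxeterMatrix B} {cs : CoxeterSystem M W}
variable {ψ : W → ℝ} {L : Finset B} {s : B} {y g m u c : W}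

namespace Cr

variable (h : Cr cs ψ L s y g m u c)
include h

/-- final comparison in type `F₄` -/
lemma F_fin {N : Finset B} (hNL : N ⊆ L) (hN : ∀ r ∈ N, ¬ 0 < ψ (cs.simple r))
    (hNL' : ∀ r ∈ L, r ∉ N → 0 < ψ (cs.simple r)) {P : B → ℝ} {α b : ℝ} (hα : 0 ≤ α) (hb : 0 ≤ b)
    (hpos : ∀ r ∈ L, ψ (cs.simple r) ≤ α) (hneg : ∀ r ∈ N, ψ (cs.simple r) = -b)
    (hαb : α ≤ 2 * b)
    (hA0 : ∀ x, IsPR cs ψ x → 0 ≤ x → (∀ i ∉ L, x i = 0) → rho cs (u * cs.simple s) x ≤ 0 → x = P)
    (hP : ∀ q ∈ N, ∃ q' ∈ N, q' ≠ q ∧ 0 < P q')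
    (hP1 : ∃ q' ∈ N, 0 < P q') : False := by
  obtain ⟨h', x, hdec, hx, hh'⟩ := exists_dec cs L (u * cs.simple s)
  have hinv : ∀ x', IsPR cs ψ x' → 0 ≤ x' → (∀ i ∉ L, x' i = 0) → rho cs x x' ≤ 0 → x' = P := by
    intro x' h1 h2 h3 h4
    apply hA0 x' h1 h2 h3
    rw [hdec, rho_mul]
    have := comb_nonneg cs hh' (x := - rho cs x x') (neg_nonneg.2 h4) (by
      intro i hi
      rw [Pi.neg_apply, rho_coord cs hx _ hi, h3 i hi, neg_zero])
    rw [map_neg] at this
    exact neg_nonneg.1 this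
  apply h.final hdec hx hh'
  obtain ⟨x', v, hxv, hv, hx'⟩ := exists_dec cs N x
  have hvL := WP_mono cs hNL hv
  have hx'L : x' ∈ WP cs L := by
    have : x' = x * v⁻¹ := by rw [hxv]; simp
    rw [this]; exact mul_mem hx (inv_mem hvL)
  have hl := length_mul_of_pos cs hx' hv
  have e1 : ψ x = ψ x' + ψ v := by
    rw [hxv]; exact h.wt _ _ hl
  have e2 : ψ v ≤ 0 := weight_nonpos_Q h.wt hN hv
  have hinv' : ∀ z, IsPR cs ψ z → 0 ≤ z → (∀ i ∉ L, z i = 0) → rho cs x' z ≤ 0 →
      z = rho cs v P := by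
    intro z hz hz0 hzs hzx
    have h1 : ∃ i, i ∉ N ∧ 0 < z i := by
      by_contra hcon
      push Not at hcon
      apply hz.not_supp h.wt hN
      intro i hi
      exact le_antisymm (hcon i hi) (hz0 i)
    obtain ⟨i, hi, hzi⟩ := h1
    have h2 : rho cs v⁻¹ z i = z i := rho_coord cs (inv_mem hv) _ hi
    have h3 := hinv (rho cs v⁻¹ z) (hz.rho _) ((hz.rho v⁻¹).isRt.pos_of_coord (i := i)
      (by rw [h2]; exact hzi)) (by
        intro j hj
        rw [rho_coord cs (inv_mem hvL) _ hj, hzs j hj]) (by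
        rw [hxv, rho_mul, rho_cancel_inv]; exact hzx)
    rw [← h3, rho_cancel_inv]
  by_cases hx1 : x' = 1
  · rw [e1, hx1, h.wt.one]; linarith
  obtain ⟨t, ht⟩ := cs.exists_rightDescent_of_ne_one hx1
  rw [isRightDescent_iff] at ht
  have htn := tits_neg cs x' t ht
  have htL := desc_mem cs hx'L htn
  have htN : t ∉ N := by
    intro h1
    exact not_pos_and_neg cs (hx' t h1) htn
  have pt := hNL' t htL htN
  have e3 : al t = rho cs v P := hinv' _ (IsPR.al pt) (al_nonneg t) (fun i hi =>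
    al_ne (by rintro rfl; exact hi htL)) htn
  have e4 : P = rho cs v⁻¹ (al t) := by rw [e3, rho_inv_cancel]
  have e5 : ψ x' ≤ α := by
    have := count_le h.wt hα hpos x' hx'L {rho cs v P} (Set.finite_singleton _)
      (fun z hz hz0 hzs hzx => by rw [Set.mem_singleton_iff]; exact hinv' z hz hz0 hzs hzx)
    rw [Set.ncard_singleton] at this
    simpa using this
  have htq : ∀ q ∈ N, q ≠ t := by rintro q hq rfl; exact htN hq
  have hv1 : v ≠ 1 := by
    intro hv1
    rw [hv1, inv_one, rho_one] at e4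
    obtain ⟨q', hq', hpq⟩ := hP1
    rw [e4, al_ne (htq q' hq')] at hpq
    exact lt_irrefl _ hpq
  obtain ⟨t1, ht1⟩ := cs.exists_rightDescent_of_ne_one hv1
  rw [isRightDescent_iff] at ht1
  have ht1N := desc_mem cs hv (tits_neg cs v t1 ht1)
  set v1 := v * cs.simple t1 with hv1d
  have hvv : v = v1 * cs.simple t1 := by rw [hv1d]; simp
  have hv1m : v1 ∈ WP cs N := simple_mul_mem cs hv ht1N
  have f1 := h.wt.mul_simple cs (w := v1) (s := t1) (by rw [← hvv]; omega)
  rw [← hvv, hneg t1 ht1N] at f1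
  have hv11 : v1 ≠ 1 := by
    intro h1
    rw [h1, one_mul] at hvv
    rw [hvv, inv_simple, rho_simple, sig_al] at e4
    obtain ⟨q', hq', hqt, hpq⟩ := hP t1 ht1N
    rw [e4, Pi.add_apply, Pi.smul_apply, al_ne (htq q' hq'), al_ne hqt] at hpq
    simp at hpq
  obtain ⟨t2, ht2⟩ := cs.exists_rightDescent_of_ne_one hv11
  rw [isRightDescent_iff] at ht2
  have ht2N := desc_mem cs hv1m (tits_neg cs v1 t2 ht2)
  set v2 := v1 * cs.simple t2 with hv2d
  have hvv2 : v1 = v2 * cs.simple t2 := by rw [hv2d]; simp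
  have f2 := h.wt.mul_simple cs (w := v2) (s := t2) (by rw [← hvv2]; omega)
  rw [← hvv2, hneg t2 ht2N] at f2
  have f3 : ψ v2 ≤ 0 := weight_nonpos_Q h.wt hN (simple_mul_mem cs hv1m ht2N)
  linarith

/-- type `F₄` -/
theorem II_eps (hII : ∀ r ∈ L, 0 < ψ (cs.simple r) → M r s = 2) {a1 a0 b0 b1 : B}
    (f : FD M a1 a0 b0 b1) (hL : L = {a1, a0, b0, b1}) (p1 : 0 < ψ (cs.simple a1))
    (p0 : 0 < ψ (cs.simple a0)) (n0 : ¬ 0 < ψ (cs.simple b0)) (n1 : ¬ 0 < ψ (cs.simple b1)) :
    False := by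
  classical
  have hs := sqrt2_sq
  have hs0 := sqrt2_pos
  have ha1 : a1 ∈ L := by rw [hL]; simp
  have ha0 : a0 ∈ L := by rw [hL]; simp
  have hb0 : b0 ∈ L := by rw [hL]; simp
  have hb1 : b1 ∈ L := by rw [hL]; simp
  have p := f.path
  have haL : ∀ i ≤ 1, pth a0 a1 i ∈ L := by
    intro i hi
    have : i = 0 ∨ i = 1 := by omega
    rcases this with rfl | rfl
    · rw [pth_zero]; exact ha0
    · rw [pth_one]; exact ha1
  have pa : ∀ i ≤ 1, 0 < ψ (cs.simple (pth a0 a1 i)) := by
    intro i hi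
    have : i = 0 ∨ i = 1 := by omega
    rcases this with rfl | rfl
    · rw [pth_zero]; exact p0
    · rw [pth_one]; exact p1
  -- weights
  set α := ψ (cs.simple a0) with hα
  set b := - ψ (cs.simple b0) with hb
  have hb0' : 0 ≤ b := by rw [hb]; push Not at n0; linarith
  have wa1 : ψ (cs.simple a1) = α := h.wt.odd cs (by rw [f.m1]; decide)
  have wb0 : ψ (cs.simple b0) = -b := by rw [hb]; ring
  have wb1 : ψ (cs.simple b1) = -b := by
    rw [← wb0]; exact (h.wt.odd cs (by rw [f.m3]; decide)).symm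
  have memL : ∀ t ∈ L, t = a1 ∨ t = a0 ∨ t = b0 ∨ t = b1 := by
    intro t ht
    rw [hL] at ht
    simpa using ht
  have wle : ∀ r ∈ L, ψ (cs.simple r) ≤ α := by
    intro r hr
    rcases memL r hr with rfl | rfl | rfl | rfl
    · exact wa1.le
    · exact le_rfl
    · rw [wb0]; linarith
    · rw [wb1]; linarith
  have hJL : ({a1, a0, b0} : Finset B) ⊆ L := by
    intro t ht
    simp only [Finset.mem_insert, Finset.mem_singleton] at ht
    rcases ht with rfl | rfl | rfl <;> assumption
  have hJv : vset b0 (pth a0 a1) 2 = {a1, a0, b0} := by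
    ext t
    rw [mem_vset]
    simp only [Finset.mem_insert, Finset.mem_singleton]
    constructor
    · rintro (rfl | ⟨i, hi, rfl⟩)
      · right; right; rfl
      · have : i = 0 ∨ i = 1 := by omega
        rcases this with rfl | rfl
        · right; left; exact pth_zero _ _
        · left; exact pth_one _ _
    · rintro (rfl | rfl | rfl)
      · exact Or.inr ⟨1, by omega, pth_one _ _⟩
      · exact Or.inr ⟨0, by omega, pth_zero _ _⟩
      · exact Or.inl rfl
  have hTv : tset (pth a0 a1) 2 = {a1, a0} := by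
    ext t
    rw [mem_tset]
    simp only [Finset.mem_insert, Finset.mem_singleton]
    constructor
    · rintro ⟨i, hi, rfl⟩
      have : i = 0 ∨ i = 1 := by omega
      rcases this with rfl | rfl
      · right; exact pth_zero _ _
      · left; exact pth_one _ _
    · rintro (rfl | rfl)
      · exact ⟨1, by omega, pth_one _ _⟩
      · exact ⟨0, by omega, pth_zero _ _⟩
  -- decomposition of `m`
  obtain ⟨m1, mJ, hm, hmJ, hm1⟩ := exists_dec cs {a1, a0, b0} m
  have hmJL := WP_mono cs hJL hmJ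
  have hm1L : m1 ∈ WP cs L := by
    have : m1 = m * mJ⁻¹ := by rw [hm]; simp
    rw [this]; exact mul_mem h.mm (inv_mem hmJL)
  have hlm : cs.length m = cs.length m1 + cs.length mJ := by
    rw [hm]; exact length_mul_of_pos cs hm1 hmJ
  have hψm : ψ m = ψ m1 + ψ mJ := by
    rw [hm] at hlm ⊢; exact h.wt _ _ hlm
  have hm11 : m1 ≠ 1 := by
    intro h1
    apply h.full b1 hb1
    rw [hm, h1, one_mul]
    apply WP_mono cs _ hmJ
    intro t ht
    simp only [Finset.mem_insert, Finset.mem_singleton] at ht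
    rw [Finset.mem_erase]
    rcases ht with rfl | rfl | rfl
    · exact ⟨f.ne5, ha1⟩
    · exact ⟨f.ne6, ha0⟩
    · exact ⟨f.ne3, hb0⟩
  have hψm1 : 0 < ψ m1 := by
    by_contra hcon
    push Not at hcon
    exact hm11 (h.m_le hm hmJL hlm hcon)
  have state := f.state h.wt wa1 rfl wb0 wb1
  rw [← hL] at state
  obtain ⟨st, hst, s1, s2, s3, s4, s5⟩ := state m1 hm1L hm1
  obtain ⟨hij, hi6⟩ := tab_le st hst
  set i := st.2.2.2.2.1 with hidef
  set j := st.2.2.2.2.2 with hjdef
  have hijR : (i : ℝ) ≤ j := by exact_mod_cast hij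
  have hi6R : (i : ℝ) ≤ 6 := by exact_mod_cast hi6
  have hi0R : (0 : ℝ) ≤ i := Nat.cast_nonneg _
  have hαb : b < α := by
    by_contra hcon
    push Not at hcon
    rw [s5] at hψm1
    nlinarith [mul_le_mul_of_nonneg_left hijR hb0', mul_le_mul_of_nonneg_right hcon hi0R]
  -- comparison with other representatives
  have hcmp : ∀ (ls : List (Fin 4)) (n' : Q4),
      ((ls.foldl (fun p l => (p.1 && par p.2, rfi l p.2)) (true, (0, 0, 0, 2)))) = (true, n') →
      ∃ st' ∈ tab, st'.1 = n' ∧ α * st'.2.2.2.2.1 - b * st'.2.2.2.2.2 ≤ ψ m1 := by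
    intro ls n' hp
    obtain ⟨z, hz, hzr, hze⟩ := f.exists_rep (cs := cs) ls n' hp
    rw [← hL] at hz
    obtain ⟨st', hst', e1, _, _, _, e5⟩ := state z hz hzr
    refine ⟨st', hst', ?_, ?_⟩
    · rw [hze] at e1
      exact (f.V_inj e1).symm
    · rw [← e5]
      have h1 : ψ (z * mJ) = ψ z + ψ mJ := h.wt _ _ (length_mul_of_pos cs hzr hmJ)
      have h2 := h.mxL.le (z * mJ) (mul_mem hz hmJL)
      linarith
  have hfive : 5 ≤ i := by
    obtain ⟨st', hst', e1, e2⟩ := hcmp [3, 2, 0, 1, 2, 0, 3, 2, 0, 1] (0, 0, -2, 0)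
      (by decide +kernel)
    obtain ⟨e3, e4⟩ := tab_v1 st' hst' e1
    rw [e3, e4, s5] at e2
    push_cast at e2
    by_contra hcon
    have h1 : (i : ℝ) ≤ 4 := by exact_mod_cast (by omega : i ≤ 4)
    nlinarith [mul_le_mul_of_nonneg_left hijR hb0',
      mul_le_mul_of_nonneg_right h1 (by linarith : 0 ≤ α - b)]
  obtain ⟨t1, t2, t3, t4, t5⟩ := tab_five st hst hfive
  -- images under `m1`
  have im : ∀ (n : Q4), rho cs m1 (V a1 a0 b0 b1 ((2 : ℤ) • n)) =
      ((n.1 : ℝ)) • V a1 a0 b0 b1 st.2.1 + (n.2.1 : ℝ) • V a1 a0 b0 b1 st.2.2.1 +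
      (n.2.2.1 : ℝ) • V a1 a0 b0 b1 st.2.2.2.1 + (n.2.2.2 : ℝ) • V a1 a0 b0 b1 st.1 := by
    intro n
    rw [← s1, ← s2, ← s3, ← s4, ← map_smul, ← map_smul, ← map_smul, ← map_smul, ← map_add,
      ← map_add, ← map_add]
    congr 1
    unfold V
    simp only [Prod.smul_fst, Prod.smul_snd, smul_eq_mul]
    push_cast
    module
  have im' : ∀ (n : Q4) (x : Q4), V a1 a0 b0 b1 x =
      ((n.1 : ℝ)) • V a1 a0 b0 b1 st.2.1 + (n.2.1 : ℝ) • V a1 a0 b0 b1 st.2.2.1 +
      (n.2.2.1 : ℝ) • V a1 a0 b0 b1 st.2.2.2.1 + (n.2.2.2 : ℝ) • V a1 a0 b0 b1 st.1 →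
      npo x = true → rho cs m1 ((Real.sqrt 2 / 2) • V a1 a0 b0 b1 n) ≤ 0 := by
    intro n x hx hnx
    have h1 : V a1 a0 b0 b1 n = (1 / 2 : ℝ) • V a1 a0 b0 b1 ((2 : ℤ) • n) := by
      unfold V
      simp only [Prod.smul_fst, Prod.smul_snd, smul_eq_mul]
      push_cast
      module
    rw [h1, map_smul, map_smul, im n, ← hx]
    exact smul_nonpos_of_nonneg_of_nonpos (by positivity)
      (smul_nonpos_of_nonneg_of_nonpos (by norm_num) (f.V_npo hnx))
  have addV : ∀ x z : Q4, V a1 a0 b0 b1 (x + z) = V a1 a0 b0 b1 x + V a1 a0 b0 b1 z :=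
    fun x z => FD.V_add x z
  have subV : ∀ x z : Q4, V a1 a0 b0 b1 (x - z) = V a1 a0 b0 b1 x - V a1 a0 b0 b1 z := by
    intro x z
    rw [sub_eq_add_neg, addV, f.V_neg, ← sub_eq_add_neg]
  have i1 : rho cs m1 ((Real.sqrt 2 / 2) • V a1 a0 b0 b1 (-1, 0, 0, 1)) ≤ 0 :=
    im' _ _ (by rw [subV]; push_cast; module) t1
  have i2 : rho cs m1 ((Real.sqrt 2 / 2) • V a1 a0 b0 b1 (0, -1, 0, 1)) ≤ 0 :=
    im' _ _ (by rw [subV]; push_cast; module) t2
  have i3 : rho cs m1 ((Real.sqrt 2 / 2) • V a1 a0 b0 b1 (0, 0, -1, 1)) ≤ 0 :=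
    im' _ _ (by rw [subV]; push_cast; module) t3
  have i4 : rho cs m1 ((Real.sqrt 2 / 2) • V a1 a0 b0 b1 (1, 0, 0, 1)) ≤ 0 :=
    im' _ _ (by rw [addV]; push_cast; module) t4
  have i5 : rho cs m1 ((Real.sqrt 2 / 2) • V a1 a0 b0 b1 (0, 1, 0, 1)) ≤ 0 :=
    im' _ _ (by rw [addV]; push_cast; module) t5
  have gneg : ∀ {x : B → ℝ}, rho cs m1 x ≤ 0 → (∀ i ∉ L, x i = 0) → rho cs g (rho cs m1 x) ≤ 0 := by
    intro x hx hxs
    apply h.g_nonpos hx
    intro i hi
    rw [rho_coord cs hm1L _ hi, hxs i hi]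
  have hVs : ∀ n : Q4, ∀ i ∉ L, ((Real.sqrt 2 / 2) • V a1 a0 b0 b1 n) i = 0 := by
    intro n i hi
    rw [Pi.smul_apply, f.V_supp ha1 ha0 hb0 hb1 n i hi, smul_zero]
  -- roots
  set P1 := (Real.sqrt 2 / 2) • V a1 a0 b0 b1 (1, 1, 0, 0) with hP1
  set P2 := (Real.sqrt 2 / 2) • V a1 a0 b0 b1 (0, 0, -1, 1) with hP2
  have hPR : ∀ n ∈ lst, IsPR cs ψ ((Real.sqrt 2 / 2) • V a1 a0 b0 b1 n) := fun n hn =>
    f.isPR_V p0 hn
  have hnn : ∀ n : Q4, 0 ≤ n.2.2.2 → 0 ≤ n.2.2.1 + n.2.2.2 → 0 ≤ n.2.1 + n.2.2.1 + 2 * n.2.2.2 →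
      0 ≤ n.1 + n.2.1 + n.2.2.1 + 3 * n.2.2.2 → 0 ≤ (Real.sqrt 2 / 2) • V a1 a0 b0 b1 n :=
    fun n e1 e2 e3 e4 => smul_nonneg (by positivity) (f.V_nonneg e1 e2 e3 e4)
  -- the distinguished root
  obtain ⟨v, r, hp⟩ := h.exists_pi
  have hvN : v ∈ WP cs {b0, b1} := by
    apply WP_mono cs _ hp.1
    intro t ht
    rw [mem_negS] at ht
    rw [Finset.mem_insert, Finset.mem_singleton]
    rcases memL t ht.1 with rfl | rfl | rfl | rfl
    · exact absurd p1 ht.2
    · exact absurd p0 ht.2
    · left; rfl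
    · right; rfl
  obtain ⟨c1, c0⟩ := f.pi_class v hvN
  have hatt := hp.c_sq.1
  have ha0s := hII a0 ha0 p0
  have ha1s := hII a1 ha1 p1
  have hπ : rho cs v (al r) = P1 ∨ rho cs v (al r) = P2 := by
    rcases memL r hp.2.1 with hr | hr | hr | hr
    · exfalso
      rw [hr, c1, fB_al, neg_neg, cc_of_eq_two M ha1s] at hatt
      exact lt_irrefl _ hatt
    · rw [hr]
      rcases c0 with h1 | h1 | h1
      · exfalso
        rw [hr, h1, fB_al, neg_neg, cc_of_eq_two M ha0s] at hatt
        exact lt_irrefl _ hatt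
      · left; exact h1
      · right; exact h1
    · exact absurd (hr ▸ hp.2.2.1) n0
    · exact absurd (hr ▸ hp.2.2.1) n1
  have hP12 : bil M P1 P2 = 0 := by
    rw [hP1, hP2, bil_smul_left, bil_smul_right, f.bil_V]; norm_num
  by_cases hbs : M b0 s = 2
  swap
  · -- `b0` is attached
    -- `c` is the longest element of type `A₂`
    have hcT : c ∈ WP cs {a1, a0} := by
      by_cases hb1s : M b1 s = 2
      · have hfil : L.filter (fun r => M r s = 2) = {a1, a0} ∪ {b1} := by
          ext t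
          rw [Finset.mem_filter]
          simp only [Finset.mem_union, Finset.mem_insert, Finset.mem_singleton]
          constructor
          · rintro ⟨e1, e2⟩
            rcases memL t e1 with rfl | rfl | rfl | rfl
            · exact Or.inl (Or.inl rfl)
            · exact Or.inl (Or.inr rfl)
            · exact absurd e2 hbs
            · exact Or.inr rfl
          · rintro ((rfl | rfl) | rfl)
            · exact ⟨ha1, ha1s⟩
            · exact ⟨ha0, ha0s⟩
            · exact ⟨hb1, hb1s⟩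
        have h1 := h.mx0
        rw [hfil] at h1
        refine h1.comm_drop h.wt ?_ ?_
        · intro x hx z hz
          rw [Finset.mem_insert, Finset.mem_singleton] at hx
          rw [Finset.mem_singleton] at hz
          rw [hz]
          rcases hx with rfl | rfl
          · exact f.m5
          · exact f.m6
        · intro z hz
          rw [Finset.mem_singleton] at hz
          rw [hz]; exact n1
      · apply WP_mono cs _ h.cm
        intro t ht
        rw [Finset.mem_filter] at ht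
        rw [Finset.mem_insert, Finset.mem_singleton]
        rcases memL t ht.1 with rfl | rfl | rfl | rfl
        · left; rfl
        · right; rfl
        · exact absurd ht.2 hbs
        · exact absurd ht.2 hb1s
    have hci : ∀ i ≤ 1, rho cs c⁻¹ (al (pth a0 a1 i)) ≤ 0 := by
      intro i hi
      refine (h.mx0.inv h.wt).neg h.wt ?_ (pa i hi)
      rw [Finset.mem_filter]
      exact ⟨haL i hi, hII _ (haL i hi) (pa i hi)⟩
    have hrev := p.rev (w := c⁻¹) (inv_mem (by rw [hTv]; exact hcT)) hci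
    have hr0 := hrev 0 (by omega)
    have hr1 := hrev 1 (by omega)
    have hr2 := hrev 2 (by omega)
    norm_num at hr0 hr1 hr2
    have hcJ : c⁻¹ ∈ WP cs {a1, a0, b0} := by
      apply inv_mem
      apply WP_mono cs _ hcT
      intro t ht
      simp only [Finset.mem_insert, Finset.mem_singleton] at ht ⊢
      tauto
    have hr3 := f.fix_e3 (cs := cs) c⁻¹ hcJ 1
    rw [← f.V_e0, ← f.V_e2] at hr0
    rw [← f.V_e1] at hr1
    rw [← f.V_e2, ← f.V_e0] at hr2
    have hcV : ∀ n : Q4, rho cs c⁻¹ (V a1 a0 b0 b1 n) =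
        V a1 a0 b0 b1 (n.2.2.1, n.2.1, n.1, n.2.2.2) := by
      intro n
      have e1 : V a1 a0 b0 b1 n = (n.1 : ℝ) • V a1 a0 b0 b1 (1, 0, 0, 0) +
          (n.2.1 : ℝ) • V a1 a0 b0 b1 (0, 1, 0, 0) + (n.2.2.1 : ℝ) • V a1 a0 b0 b1 (0, 0, 1, 0) +
          (n.2.2.2 : ℝ) • V a1 a0 b0 b1 (0, 0, 0, 1) := by
        unfold V
        push_cast
        module
      rw [e1, map_add, map_add, map_add, map_smul, map_smul, map_smul, map_smul, hr0, hr1, hr2,
        hr3]
      unfold V
      push_cast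
      module
    -- the part of type `B₃`
    have hmJmx : IsMax cs ψ {a1, a0, b0} mJ := h.mxL.part h.wt hJL hm hmJ hm1
    have hmJT : mJ ∉ WP cs {a1, a0} := by
      intro hmT
      obtain ⟨g2, m2, hm2, hm2', hg2⟩ := exists_dec cs ({a1, a0} ∪ {b1}) m
      have hU2 : ({a1, a0} ∪ {b1} : Finset B) ⊆ L := by
        intro t ht
        simp only [Finset.mem_union, Finset.mem_insert, Finset.mem_singleton] at ht
        rcases ht with (rfl | rfl) | rfl <;> assumption
      have hmx2 : IsMax cs ψ ({a1, a0} ∪ {b1}) m2 := h.mxL.part h.wt hU2 hm2 hm2' hg2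
      have hm2T : m2 ∈ WP cs {a1, a0} := hmx2.comm_drop h.wt (by
          intro x hx z hz
          rw [Finset.mem_insert, Finset.mem_singleton] at hx
          rw [Finset.mem_singleton] at hz
          rw [hz]
          rcases hx with rfl | rfl
          · exact f.m5
          · exact f.m6) (by
          intro z hz
          rw [Finset.mem_singleton] at hz
          rw [hz]; exact n1)
      have heq : m1 * mJ = g2 * m2 := by rw [← hm, hm2]
      have hTJ : ({a1, a0} : Finset B) ⊆ {a1, a0, b0} := by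
        intro t ht
        simp only [Finset.mem_insert, Finset.mem_singleton] at ht ⊢
        tauto
      have e1 := (dec_unique cs (K := {a1, a0}) heq hmT hm2T (fun t ht => hm1 t (hTJ ht))
        (fun t ht => hg2 t (Finset.mem_union_left _ ht))).1
      apply hm11
      apply eq_one_of_pos hm1L
      intro t ht
      rcases memL t ht with rfl | rfl | rfl | rfl
      · exact hm1 _ (by simp)
      · exact hm1 _ (by simp)
      · exact hm1 _ (by simp)
      · rw [e1]; exact hg2 _ (by simp)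
    have hmJ2 : mJ ∈ WP cs (vset b0 (pth a0 a1) (1 + 1)) := by
      rw [show 1 + 1 = 2 by norm_num, hJv]; exact hmJ
    have hneg : ∀ i ≤ 1, rho cs mJ (al (pth a0 a1 i)) ≤ 0 := fun i hi =>
      hmJmx.neg h.wt (by rw [← hJv]; exact mem_vset.2 (Or.inr ⟨i, by omega, rfl⟩)) (pa i hi)
    have hneg' : ∀ i ≤ 1, rho cs mJ⁻¹ (al (pth a0 a1 i)) ≤ 0 := fun i hi =>
      (hmJmx.inv h.wt).neg h.wt (by rw [← hJv]; exact mem_vset.2 (Or.inr ⟨i, by omega, rfl⟩))
        (pa i hi)
    have hex : ∃ i ≤ 1 + 1, rho cs mJ (ev b0 (pth a0 a1) i) ≤ 0 := by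
      by_contra hcon
      push Not at hcon
      apply hmJT
      rw [← hTv]
      apply BPath.mem_tset_of_pos p mJ hmJ2
      intro i hi
      exact ((p.ev_isRt (cs := cs) hi).rho mJ).pos_or_neg.resolve_right (hcon i hi)
    obtain ⟨i0, hi0, hi0'⟩ := hex
    have htop := p.lemG hmJ2 hneg hneg' hi0 hi0'
    have htn := (p.top_neg hmJ2 htop (i := 1) (by omega)).1
    have hVJ : ∀ n : Q4, n.2.2.2 = 0 → ∀ t ∉ ({a1, a0, b0} : Finset B), V a1 a0 b0 b1 n t = 0 := by
      intro n hn t ht
      simp only [Finset.mem_insert, Finset.mem_singleton, not_or] at ht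
      by_cases htb : t = b1
      · rw [htb, (f.V_coord n).1, hn]; simp
      · exact (f.V_coord n).2.2.2.2 t htb ht.2.2 ht.2.1 ht.1
    -- first root
    have u1 : rho cs u P1 ≤ 0 := by
      rw [h.rho_u, hP1, map_smul, hcV, h.dec, rho_mul, hm, rho_mul cs m1]
      have e1 : V a1 a0 b0 b1 (0, 1, 1, 0) = ev b0 (pth a0 a1) 2 + ev b0 (pth a0 a1) 1 := by
        rw [← f.V_e2, ← f.V_e1, ← addV]; rfl
      have e2 : rho cs mJ (V a1 a0 b0 b1 (0, 1, 1, 0)) ≤ 0 := by rw [e1]; exact htn
      have e3 : rho cs m1 (rho cs mJ (V a1 a0 b0 b1 (0, 1, 1, 0))) ≤ 0 := by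
        have := comb_nonneg cs hm1 (x := - rho cs mJ (V a1 a0 b0 b1 (0, 1, 1, 0)))
          (neg_nonneg.2 e2) (by
            intro t ht
            rw [Pi.neg_apply, rho_coord cs hmJ _ ht, hVJ _ rfl t ht, neg_zero])
        rw [map_neg] at this
        exact neg_nonneg.1 this
      rw [map_smul, map_smul, map_smul]
      apply smul_nonpos_of_nonneg_of_nonpos (by positivity)
      apply h.g_nonpos e3
      intro t ht
      rw [rho_coord cs hm1L _ ht, rho_coord cs hmJL _ ht, f.V_supp ha1 ha0 hb0 hb1 _ t ht]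
    -- second root
    have u2 : rho cs u P2 ≤ 0 := by
      rw [h.rho_u, hP2, map_smul, hcV, h.dec, rho_mul, hm, rho_mul cs m1]
      have e0 : 0 ≤ rho cs mJ (ev b0 (pth a0 a1) 0) := by
        rw [ev_zero]; exact hmJmx.pos h.wt n0
      obtain ⟨l, hl, e1⟩ := p.pm_nonneg hmJ2 (by omega) e0
      have hl2 : l ≠ 2 := by
        rintro rfl
        have e2 := bil_rho cs mJ (ev b0 (pth a0 a1) 0) (ev b0 (pth a0 a1) 2)
        rw [e1, htop, bil_neg_right, p.bil_ev (by omega) (by omega),
          p.bil_ev (by omega) (by omega)] at e2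
        norm_num at e2
      have e2 : rho cs mJ (V a1 a0 b0 b1 (-1, 0, 0, 1)) = V a1 a0 b0 b1 (-1, 0, 0, 1) ∨
          rho cs mJ (V a1 a0 b0 b1 (-1, 0, 0, 1)) = V a1 a0 b0 b1 (0, -1, 0, 1) := by
        have e3 := f.fix_e3 (cs := cs) mJ hmJ 1
        have e4 : V a1 a0 b0 b1 (-1, 0, 0, 1) =
            V a1 a0 b0 b1 (0, 0, 0, 1) - ev b0 (pth a0 a1) 0 := by
          rw [← f.V_e0, ← subV]; norm_num
        have hl01 : l = 0 ∨ l = 1 := by omega
        rcases hl01 with rfl | rfl
        · left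
          rw [e4, map_sub, e3, e1]
        · right
          rw [e4, map_sub, e3, e1, ← f.V_e1, ← subV]
          norm_num
      rw [map_smul]
      change rho cs g (rho cs m1 ((Real.sqrt 2 / 2) •
        rho cs mJ (V a1 a0 b0 b1 (-1, 0, 0, 1)))) ≤ 0
      have hlast : ∀ n : Q4, rho cs m1 ((Real.sqrt 2 / 2) • V a1 a0 b0 b1 n) ≤ 0 →
          rho cs g (rho cs m1 ((Real.sqrt 2 / 2) • V a1 a0 b0 b1 n)) ≤ 0 :=
        fun n hn => gneg hn (hVs n)
      rcases e2 with e2 | e2
      · rw [e2]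
        exact hlast _ i1
      · rw [e2]
        exact hlast _ i2
    have hP1nn : 0 ≤ P1 := hnn _ (by norm_num) (by norm_num) (by norm_num) (by norm_num)
    have hP2nn : 0 ≤ P2 := hnn _ (by norm_num) (by norm_num) (by norm_num) (by norm_num)
    rcases hπ with h1 | h1
    · have := hp.DD_pos (hPR (0, 0, -1, 1) (by decide +kernel)) hP2nn (hVs _) u2
      rw [h1, ← hP2, hP12] at this
      exact lt_irrefl _ this
    · have := hp.DD_pos (hPR (1, 1, 0, 0) (by decide +kernel)) hP1nn (hVs _) u1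
      rw [h1, ← hP1, bil_symm, hP12] at this
      exact lt_irrefl _ this
  · -- only `b1` is attached
    have hb1s : M b1 s ≠ 2 := by
      obtain ⟨t, ht, hts⟩ := h.II_att
      rcases memL t ht with rfl | rfl | rfl | rfl
      · exact absurd ha1s hts
      · exact absurd ha0s hts
      · exact absurd hbs hts
      · exact hts
    have hfil : L.filter (fun r => M r s = 2) = {a1, a0, b0} := by
      ext t
      rw [Finset.mem_filter]
      simp only [Finset.mem_insert, Finset.mem_singleton]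
      constructor
      · rintro ⟨e1, e2⟩
        rcases memL t e1 with rfl | rfl | rfl | rfl
        · exact Or.inl rfl
        · exact Or.inr (Or.inl rfl)
        · exact Or.inr (Or.inr rfl)
        · exact absurd e2 hb1s
      · rintro (rfl | rfl | rfl)
        · exact ⟨ha1, ha1s⟩
        · exact ⟨ha0, ha0s⟩
        · exact ⟨hb0, hbs⟩
    -- `u = g m₁`
    have hum : u = g * m1 := by
      have heq : u * c = (g * m1) * mJ := by rw [← h.dec2, h.dec, hm, mul_assoc]
      have hcm : c ∈ WP cs {a1, a0, b0} := by rw [← hfil]; exact h.cm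
      refine (dec_unique cs (K := {a1, a0, b0}) heq hcm hmJ ?_ ?_).1
      · intro t ht
        apply h.hu0
        rw [hfil]; exact ht
      · intro t ht
        rw [rho_mul]
        exact h.g_nonneg (hm1 t ht) (supp_rho cs hm1L (hJL ht))
    have hcoef : ∀ x : B → ℝ, (∀ i ∉ L, x i = 0) → - fB M s x = cc M b1 s * x b1 := by
      intro x hx
      rw [fB_apply, Finset.sum_eq_single b1]
      · ring
      · intro t _ htb
        by_cases ht : t ∈ L
        · rcases memL t ht with rfl | rfl | rfl | rfl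
          · rw [cc_of_eq_two M ha1s]; ring
          · rw [cc_of_eq_two M ha0s]; ring
          · rw [cc_of_eq_two M hbs]; ring
          · exact absurd rfl htb
        · rw [hx t ht]; ring
      · simp
    have hcb := half_le_cc M (h.ls_ne hb1) hb1s
    have hπ2 : rho cs v (al r) = P2 := by
      rcases hπ with h1 | h1
      · exfalso
        rw [hcoef _ hp.supp, h1, hP1, Pi.smul_apply, (f.V_coord _).1] at hatt
        norm_num at hatt
      · exact h1
    -- elements of `A`
    have hA : ∀ n ∈ lst, 0 ≤ (Real.sqrt 2 / 2) • V a1 a0 b0 b1 n →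
        rho cs m1 ((Real.sqrt 2 / 2) • V a1 a0 b0 b1 n) ≤ 0 →
        rho cs u ((Real.sqrt 2 / 2) • V a1 a0 b0 b1 n) ≤ 0 := by
      intro n hn hn0 hn1
      rw [hum, rho_mul]
      exact gneg hn1 (hVs n)
    have hbil : ∀ n n' : Q4, bil M ((Real.sqrt 2 / 2) • V a1 a0 b0 b1 n)
        ((Real.sqrt 2 / 2) • V a1 a0 b0 b1 n') = (1 / 2) * (n.1 * n'.1 + n.2.1 * n'.2.1 +
          n.2.2.1 * n'.2.2.1 + n.2.2.2 * n'.2.2.2) := by
      intro n n'
      rw [bil_smul_left, bil_smul_right, f.bil_V]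
      linear_combination ((n.1 : ℝ) * n'.1 + n.2.1 * n'.2.1 +
          n.2.2.1 * n'.2.2.1 + n.2.2.2 * n'.2.2.2) / 4 * hs
    have hi5 : i = 5 := by
      by_contra hne
      have hi6' : i = 6 := by omega
      have t6 := tab_six st hst hi6'
      have i6 : rho cs m1 ((Real.sqrt 2 / 2) • V a1 a0 b0 b1 (0, 0, 1, 1)) ≤ 0 :=
        im' _ _ (by rw [addV]; push_cast; module) t6
      have hn0 := hnn (0, 0, 1, 1) (by norm_num) (by norm_num) (by norm_num) (by norm_num)
      have := hp.DD_pos (hPR (0, 0, 1, 1) (by decide +kernel)) hn0 (hVs _)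
        (hA _ (by decide +kernel) hn0 i6)
      rw [hπ2, hP2, hbil] at this
      norm_num at this
    have hα2b : α ≤ 2 * b := by
      obtain ⟨st', hst', e1, e2⟩ := hcmp [3, 2, 0, 1, 2, 0, 3, 2, 0, 1, 3, 2, 0]
        (1, -1, -1, -1) (by decide +kernel)
      obtain ⟨e3, e4⟩ := tab_v2 st' hst' e1
      rw [e3, e4, s5, hi5] at e2
      push_cast at e2
      have hj5 : (5 : ℝ) ≤ j := by
        have : 5 ≤ j := by omega
        exact_mod_cast this
      nlinarith
    refine h.F_fin (N := {b0, b1}) (P := P2) (α := α) (b := b) ?_ ?_ ?_ p0.le hb0' wle ?_ hα2b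
      ?_ ?_ ?_
    · intro t ht
      rw [Finset.mem_insert, Finset.mem_singleton] at ht
      rcases ht with rfl | rfl <;> assumption
    · intro t ht
      rw [Finset.mem_insert, Finset.mem_singleton] at ht
      rcases ht with rfl | rfl <;> assumption
    · intro t ht htN
      rw [Finset.mem_insert, Finset.mem_singleton, not_or] at htN
      rcases memL t ht with rfl | rfl | rfl | rfl
      · exact p1
      · exact p0
      · exact absurd rfl htN.1
      · exact absurd rfl htN.2
    · intro t ht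
      rw [Finset.mem_insert, Finset.mem_singleton] at ht
      rcases ht with rfl | rfl
      · exact wb0
      · exact wb1
    · -- the only root of positive weight made negative by `u s`
      intro x hx hx0 hxs hxn
      have hxu := h.support_us hx0 hxs hxn hx.isRt
      have hxa := h.attached hx.isRt hx0 hxs hxu
      rw [hcoef x hxs] at hxa
      obtain ⟨z, hz, t, ht, he⟩ := hx.isRt.of_supp hxs
      have hta : t = a0 ∨ t = a1 := by
        rcases memL t ht with h1 | h1 | h1 | h1
        · right; exact h1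
        · left; exact h1
        · exfalso
          rw [he, h1] at hx
          exact n0 (hx.weight h.wt)
        · exfalso
          rw [he, h1] at hx
          exact n1 (hx.weight h.wt)
      obtain ⟨n, hn, hn'⟩ := f.long_class hta z (by rw [← hL]; exact hz)
      rw [← he] at hn'
      have hn3 : 0 < n.2.2.2 := by
        rw [hn', Pi.smul_apply, (f.V_coord n).1, smul_eq_mul] at hxa
        have e1 : (0 : ℝ) < n.2.2.2 := by
          by_contra hcon
          push Not at hcon
          have : cc M b1 s * (Real.sqrt 2 / 2 * (2 * (n.2.2.2 : ℝ))) ≤ 0 := by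
            have e2 : 0 ≤ cc M b1 s * (Real.sqrt 2) := by positivity
            nlinarith
          linarith
        exact_mod_cast e1
      have hxV := hx
      have hDD : ∀ n' ∈ lst, 0 ≤ (Real.sqrt 2 / 2) • V a1 a0 b0 b1 n' →
          rho cs m1 ((Real.sqrt 2 / 2) • V a1 a0 b0 b1 n') ≤ 0 →
          0 < bil M x ((Real.sqrt 2 / 2) • V a1 a0 b0 b1 n') := by
        intro n' h1 h2 h3
        exact h.DD_pos hx hx0 hxs hxn (hPR n' h1) h2 (hVs _) (hA n' h1 h2 h3)
      rcases lst_pos n hn hn3 with h1 | h1 | h1 | h1 | h1 | h1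
      · rw [hn', h1]
      · exfalso
        have := hp.DD_pos hx hx0 hxs hxu
        rw [hn', h1, hπ2, hP2, hbil] at this
        norm_num at this
      · exfalso
        have := hDD (-1, 0, 0, 1) (by decide +kernel)
          (hnn _ (by norm_num) (by norm_num) (by norm_num) (by norm_num)) i1
        rw [hn', h1, hbil] at this
        norm_num at this
      · exfalso
        have := hDD (1, 0, 0, 1) (by decide +kernel)
          (hnn _ (by norm_num) (by norm_num) (by norm_num) (by norm_num)) i4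
        rw [hn', h1, hbil] at this
        norm_num at this
      · exfalso
        have := hDD (0, -1, 0, 1) (by decide +kernel)
          (hnn _ (by norm_num) (by norm_num) (by norm_num) (by norm_num)) i2
        rw [hn', h1, hbil] at this
        norm_num at this
      · exfalso
        have := hDD (0, 1, 0, 1) (by decide +kernel)
          (hnn _ (by norm_num) (by norm_num) (by norm_num) (by norm_num)) i5
        rw [hn', h1, hbil] at this
        norm_num at this
    · intro q hq
      rw [Finset.mem_insert, Finset.mem_singleton] at hq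
      rcases hq with rfl | rfl
      · refine ⟨b1, by simp, f.ne3.symm, ?_⟩
        rw [hP2, Pi.smul_apply, (f.V_coord _).1, smul_eq_mul]
        norm_num
      · refine ⟨b0, by simp, f.ne3, ?_⟩
        rw [hP2, Pi.smul_apply, (f.V_coord _).2.1, smul_eq_mul]
        norm_num
    · refine ⟨b1, by simp, ?_⟩
      rw [hP2, Pi.smul_apply, (f.V_coord _).1, smul_eq_mul]
      norm_num

end Cr

end Pool.Agent.H44.Cox
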