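import Mathlib
import Pool.Agent.H44.Cox.CaseF

set_option autoImplicit false
set_option linter.unusedSectionVars false
set_option linter.unusedSimpArgs false
set_option linter.unusedVariables false

/-! # Bounded weight functions attain their maximum on a spherical parabolic subgroup -/

namespace Pool.Agent.H44.Cox

open CoxeterSystem Pool.Agent.H80.Cox

variable {B : Type*} [Fintype B] [DecidableEq B] {W : Type*} [Group W]
variable {M : CoxeterMatrix B} {cs : CoxeterSystem M W}
variable {ψ : W → ℝ}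

/-- The core configuration does not exist. -/
theorem Cr.false {L : Finset B} {s : B} {y g m u c : W} (h : Cr cs ψ L s y g m u c) : False := by
  classical
  by_cases hII : ∀ r ∈ L, 0 < ψ (cs.simple r) → M r s = 2
  swap
  · push Not at hII
    obtain ⟨r, hr, pr, hrs⟩ := hII
    exact h.caseI hr pr hrs
  obtain ⟨v, p0, hp⟩ := h.exists_pi
  obtain ⟨q0, hq0, hq0s⟩ := h.II_att
  have nq0 : ¬ 0 < ψ (cs.simple q0) := fun h0 => hq0s (hII q0 hq0 h0)
  rcases classify h.wt h.fin h.conn hp.2.1 hp.2.2.1 hq0 nq0 with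
    ⟨p, q, hL, hpq, pp, nq, hM⟩ | ⟨q, a, k, hk, p, hL, nq, pa⟩ | ⟨q, a, k, hk, p, hL, pq, na⟩ |
    ⟨a1, a0, b0, b1, hL, m1, m2, m3, m4, m5, m6, p1, p0', n0, n1⟩
  · rcases hM with h4 | h6
    · have pth : BPath M p (fun _ => q) 0 :=
        ⟨h4, fun i h1 h2 => by omega, fun i hi => by omega, fun i j h1 h2 => by omega⟩
      refine h.II_del hII pth ?_ pp (fun _ _ => nq)
      rw [hL]
      ext t
      rw [mem_vset]
      simp only [Finset.mem_insert, Finset.mem_singleton]
      constructor
      · rintro (rfl | rfl)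
        · exact Or.inl rfl
        · exact Or.inr ⟨0, by omega, rfl⟩
      · rintro (rfl | ⟨i, hi, rfl⟩)
        · exact Or.inl rfl
        · exact Or.inr rfl
    · exact h.II_two hII hL hpq pp nq (threequarters_le_cc_sq M h6)
  · exact h.II_gam hII hk p hL nq pa
  · exact h.II_del hII p hL pq na
  · exact h.II_eps hII ⟨m1, m2, m3, m4, m5, m6⟩ hL p1 p0' n0 n1

/-- A configuration with `K = L ∪ {s}`, or no counterexample. -/
theorem isMax_spherical (hwt : IsWeight cs ψ) (K : Finset B) :
    ∀ y, IsMax cs ψ K y → ∃ L, L ⊆ K ∧ FinS cs L ∧ y ∈ WP cs L := by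
  classical
  induction K using Finset.strongInduction with
  | _ K ih =>
  intro y hy
  by_contra hcon
  have hno : ∀ L, L ⊆ K → FinS cs L → y ∉ WP cs L := by
    intro L h1 h2 h3; exact hcon ⟨L, h1, h2, h3⟩
  have nfin : ¬ FinS cs K := fun hf => hno K (Finset.Subset.refl _) hf hy.mem
  -- irreducibility
  have irr : ∀ A C : Finset B, A ∪ C = K → A.Nonempty → C.Nonempty →
      ¬ ∀ a ∈ A, ∀ c ∈ C, M a c = 2 := by
    intro A C hAC hA hC hcomm
    have hdisj : ∀ x, x ∈ A → x ∈ C → False := by
      intro x h1 h2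
      have := hcomm x h1 x h2
      rw [M.diagonal] at this
      omega
    have hAK : A ⊂ K := by
      refine (Finset.ssubset_iff_subset_ne).2 ⟨by rw [← hAC]; exact Finset.subset_union_left, ?_⟩
      rintro rfl
      obtain ⟨c, hc⟩ := hC
      exact hdisj c (by rw [← hAC]; exact Finset.mem_union_right _ hc) hc
    have hCK : C ⊂ K := by
      refine (Finset.ssubset_iff_subset_ne).2 ⟨by rw [← hAC]; exact Finset.subset_union_right, ?_⟩
      rintro rfl
      obtain ⟨c, hc⟩ := hA
      exact hdisj c hc (by rw [← hAC]; exact Finset.mem_union_left _ hc)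
    obtain ⟨a, ha, c, hc, hyac⟩ := exists_comm_dec cs hcomm y (by rw [hAC]; exact hy.mem)
    have hyca : y = c * a := by rw [hyac]; exact mul_comm_of cs hcomm ha hc
    have mc : IsMax cs ψ C c := by
      apply hy.part hwt hCK.subset hyac hc
      intro r hr
      rw [rho_fix cs (fun x hx => hcomm x hx r hr) ha]
      exact al_nonneg r
    have ma : IsMax cs ψ A a := by
      apply hy.part hwt hAK.subset hyca ha
      intro r hr
      rw [rho_fix cs (fun x hx => by rw [M.symmetric]; exact hcomm r hr x hx) hc]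
      exact al_nonneg r
    obtain ⟨L1, hL1, hf1, hy1⟩ := ih A hAK a ma
    obtain ⟨L2, hL2, hf2, hy2⟩ := ih C hCK c mc
    refine hno (L1 ∪ L2) (Finset.union_subset (hL1.trans hAK.subset) (hL2.trans hCK.subset))
      (hf1.union cs hf2 (fun a ha c hc => hcomm a (hL1 ha) c (hL2 hc))) ?_
    rw [hyac]
    exact mul_mem (WP_mono cs Finset.subset_union_left hy1)
      (WP_mono cs Finset.subset_union_right hy2)
  -- candidates
  set Cand : Finset (Finset B) := K.powerset.filter (fun L => FinS cs L ∧
    (∀ r ∈ K, 0 < ψ (cs.simple r) → r ∈ L) ∧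
    ∀ v x, y = v * x → x ∈ WP cs L → (∀ r ∈ L, 0 ≤ rho cs v (al r)) →
      ∀ r ∈ L, x ∉ WP cs (L.erase r)) with hCand
  have memCand : ∀ L, L ∈ Cand ↔ L ⊆ K ∧ FinS cs L ∧
    (∀ r ∈ K, 0 < ψ (cs.simple r) → r ∈ L) ∧
    ∀ v x, y = v * x → x ∈ WP cs L → (∀ r ∈ L, 0 ≤ rho cs v (al r)) →
      ∀ r ∈ L, x ∉ WP cs (L.erase r) := by
    intro L
    rw [hCand, Finset.mem_filter, Finset.mem_powerset]
  have hne : Cand.Nonempty := by
    refine ⟨K.filter (fun r => 0 < ψ (cs.simple r)), ?_⟩
    rw [memCand]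
    have hsub : K.filter (fun r => 0 < ψ (cs.simple r)) ⊆ K := Finset.filter_subset _ _
    have key : ∀ v x, y = v * x → x ∈ WP cs (K.filter (fun r => 0 < ψ (cs.simple r))) →
        (∀ r ∈ K.filter (fun r => 0 < ψ (cs.simple r)), 0 ≤ rho cs v (al r)) →
        ∀ r ∈ K.filter (fun r => 0 < ψ (cs.simple r)), rho cs x (al r) ≤ 0 := by
      intro v x hvx hx hv r hr
      exact (hy.part hwt hsub hvx hx hv).neg hwt hr (Finset.mem_filter.1 hr).2
    refine ⟨hsub, ?_, ?_, ?_⟩
    · obtain ⟨v, x, hvx, hx, hv⟩ := exists_dec cs (K.filter (fun r => 0 < ψ (cs.simple r))) y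
      exact ⟨x, hx, key v x hvx hx hv⟩
    · intro r hr hp
      rw [Finset.mem_filter]; exact ⟨hr, hp⟩
    · intro v x hvx hx hv r hr hcon
      have := desc_mem cs hcon (key v x hvx hx hv r hr)
      exact absurd this (Finset.notMem_erase _ _)
  obtain ⟨L, hL, hLmax⟩ := Finset.exists_max_image Cand Finset.card hne
  rw [memCand] at hL
  obtain ⟨hLK, hLfin, hLJ, hLfull⟩ := hL
  obtain ⟨g, m, hgm, hm, hg⟩ := exists_dec cs L y
  have hmfull := hLfull g m hgm hm hg
  -- the key property of `g`
  have key : ∀ s ∈ K, s ∉ L → ∀ r ∈ K.erase s, 0 ≤ rho cs g (al r) := by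
    intro s hsK hsL
    have hsub : K.erase s ⊆ K := Finset.erase_subset _ _
    have hss : K.erase s ⊂ K := Finset.erase_ssubset hsK
    obtain ⟨v, x, hvx, hx, hv⟩ := exists_dec cs (K.erase s) y
    have hxmax := hy.part hwt hsub hvx hx hv
    obtain ⟨L1, hL1, hf1, hx1⟩ := ih _ hss x hxmax
    -- minimal support
    obtain ⟨L2, hL2, hL2min⟩ := Finset.exists_min_image
      ((K.erase s).powerset.filter (fun L' => x ∈ WP cs L')) Finset.card
      ⟨K.erase s, by rw [Finset.mem_filter, Finset.mem_powerset]; exact ⟨Finset.Subset.refl _, hx⟩⟩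
    rw [Finset.mem_filter, Finset.mem_powerset] at hL2
    obtain ⟨hL2K, hx2⟩ := hL2
    have hL21 : L2 ⊆ L1 := by
      have h1 := inter_mem cs hx2 hx1
      have h2 := hL2min (L2 ∩ L1) (by
        rw [Finset.mem_filter, Finset.mem_powerset]
        exact ⟨Finset.inter_subset_left.trans hL2K, h1⟩)
      have h3 : L2 ∩ L1 = L2 := Finset.eq_of_subset_of_card_le Finset.inter_subset_left h2
      rw [← h3]; exact Finset.inter_subset_right
    have hf2 : FinS cs L2 := hf1.mono cs hL21
    have hfull2 : ∀ r ∈ L2, x ∉ WP cs (L2.erase r) := by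
      intro r hr h1
      have h2 := hL2min (L2.erase r) (by
        rw [Finset.mem_filter, Finset.mem_powerset]
        exact ⟨(Finset.erase_subset _ _).trans hL2K, h1⟩)
      have h3 := Finset.card_erase_lt_of_mem hr
      omega
    have hJ2 : ∀ r ∈ K, 0 < ψ (cs.simple r) → r ∈ L2 := by
      intro r hr hp
      have hrs : r ≠ s := by rintro rfl; exact hsL (hLJ r hr hp)
      exact desc_mem cs hx2 (hxmax.neg hwt (Finset.mem_erase.2 ⟨hrs, hr⟩) hp)
    have hLKs : L ⊆ K.erase s := by
      intro r hr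
      rw [Finset.mem_erase]
      exact ⟨by rintro rfl; exact hsL hr, hLK hr⟩
    have hvL2 : ∀ r ∈ L2, 0 ≤ rho cs v (al r) := fun r hr => hv r (hL2K hr)
    have hLL2 : L ⊆ L2 := by
      obtain ⟨v', m', hxvm, hm', hv'⟩ := exists_dec cs L x
      have hv'm : v' ∈ WP cs (K.erase s) := by
        have : v' = x * m'⁻¹ := by rw [hxvm]; simp
        rw [this]; exact mul_mem hx (inv_mem (WP_mono cs hLKs hm'))
      have h1 : ∀ r ∈ L, 0 ≤ rho cs (v * v') (al r) := by
        intro r hr
        rw [rho_mul]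
        exact comb_nonneg cs hv (hv' r hr) (supp_rho cs hv'm (hLKs hr))
      have h2 : (v * v') * m' = g * m := by rw [← hgm, hvx, hxvm, mul_assoc]
      have h3 := (dec_unique cs h2 hm' hm h1 hg).2
      subst h3
      have h4 : m' ∈ WP cs L2 := by
        apply suffix_mem cs (v := v') (x := m')
        · rw [← hxvm]; exact hx2
        · exact length_mul_of_pos cs hv' hm'
      intro r hr
      by_contra hr2
      refine hmfull r hr (WP_mono cs ?_ (inter_mem cs hm h4))
      intro t ht
      rw [Finset.mem_inter] at ht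
      rw [Finset.mem_erase]
      exact ⟨by rintro rfl; exact hr2 ht.2, ht.1⟩
    have hcand : L2 ∈ Cand := by
      rw [memCand]
      refine ⟨hL2K.trans hsub, hf2, hJ2, ?_⟩
      intro v1 x1 h1 hx1 hv1
      have h2 : v1 * x1 = v * x := by rw [← h1, hvx]
      have h3 := (dec_unique cs h2 hx1 hx2 hv1 hvL2).2
      rw [h3]; exact hfull2
    have hcard := hLmax L2 hcand
    have hLeq : L = L2 := Finset.eq_of_subset_of_card_le hLL2 hcard
    subst hLeq
    have h2 : g * m = v * x := by rw [← hgm, hvx]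
    have h3 := (dec_unique cs h2 hm hx2 hg hvL2).1
    rw [h3]; exact hv
  -- choose s
  have hLne : ∃ s ∈ K, s ∉ L := by
    by_contra h1
    push Not at h1
    exact nfin (by rwa [Finset.Subset.antisymm h1 hLK])
  obtain ⟨s, hsK, hsL⟩ := hLne
  have hgK : g ∈ WP cs K := by
    have : g = y * m⁻¹ := by rw [hgm]; simp
    rw [this]; exact mul_mem hy.mem (inv_mem (WP_mono cs hLK hm))
  have hg1 : g ≠ 1 := by
    rintro rfl
    rw [one_mul] at hgm
    exact hno L hLK hLfin (by rw [hgm]; exact hm)
  have hK : K = insert s L := by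
    apply Finset.Subset.antisymm
    · intro r hr
      by_contra hr2
      rw [Finset.mem_insert, not_or] at hr2
      apply hg1
      apply eq_one_of_pos hgK
      intro t ht
      by_cases hts : t = s
      · exact key r hr hr2.2 t (Finset.mem_erase.2 ⟨by rintro rfl; exact hr2.1 hts, ht⟩)
      · exact key s hsK hsL t (Finset.mem_erase.2 ⟨hts, ht⟩)
    · intro r hr
      rcases Finset.mem_insert.1 hr with rfl | hr
      · exact hsK
      · exact hLK hr
  subst hK
  obtain ⟨u, c, huc, hc, hu⟩ := exists_dec cs (L.filter fun r => M r s = 2) y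
  refine Cr.false (cs := cs) (ψ := ψ) (L := L) (s := s) (y := y) (g := g) (m := m) (u := u)
    (c := c) ⟨hwt, hsL, hy, hLfin, ?_, hgm, hm, hg, hg1, hmfull, irr, nfin, huc, hc, ?_⟩
  · intro hp
    exact hsL (hLJ s hsK hp)
  · intro r hr hrs
    exact hu r (Finset.mem_filter.2 ⟨hr, hrs⟩)

/-- Main theorem (finite generating set as `Fintype`). -/
theorem main_theorem (φ : W → ℝ) (hφ : IsWeight cs φ) (C : ℝ) (hC : ∀ w, φ w ≤ C) :
    ∃ L : Finset B, (WP cs L : Set W).Finite ∧ ∃ x ∈ WP cs L, ∀ w, φ w ≤ φ x := by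
  classical
  -- the union of the spherical standard parabolics is finite
  set Sph : Set W := ⋃ L ∈ {L : Finset B | FinS cs L}, (WP cs L : Set W) with hSph
  have hSfin : Sph.Finite := by
    apply Set.Finite.biUnion (Set.toFinite _)
    intro L hL
    exact FinS.finite cs hL
  have hS1 : (1 : W) ∈ Sph := by
    rw [hSph, Set.mem_iUnion₂]
    exact ⟨∅, ⟨1, one_mem _, by simp⟩, one_mem _⟩
  obtain ⟨x, hx, hxmax⟩ := Set.exists_max_image Sph φ hSfin ⟨1, hS1⟩
  obtain ⟨L, hL, hxL⟩ := Set.mem_iUnion₂.1 hx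
  refine ⟨L, FinS.finite cs hL, x, hxL, ?_⟩
  -- a lower bound for the positive weights
  obtain ⟨δ, hδ, hδs⟩ : ∃ δ : ℝ, 0 < δ ∧ ∀ s : B, 0 < φ (cs.simple s) → δ < φ (cs.simple s) := by
    set T := (Finset.univ.filter (fun s : B => 0 < φ (cs.simple s))).image
      (fun s => φ (cs.simple s)) with hT
    by_cases hTn : T.Nonempty
    · refine ⟨T.min' hTn / 2, ?_, ?_⟩
      · obtain ⟨s, hs, hs2⟩ := Finset.mem_image.1 (T.min'_mem hTn)
        rw [Finset.mem_filter] at hs
        have : 0 < T.min' hTn := by rw [← hs2]; exact hs.2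
        linarith
      · intro s hs
        have h1 : φ (cs.simple s) ∈ T := by
          rw [hT, Finset.mem_image]
          exact ⟨s, Finset.mem_filter.2 ⟨Finset.mem_univ _, hs⟩, rfl⟩
        have h2 := T.min'_le _ h1
        linarith
    · refine ⟨1, one_pos, ?_⟩
      intro s hs
      exfalso
      apply hTn
      exact ⟨_, Finset.mem_image.2 ⟨s, Finset.mem_filter.2 ⟨Finset.mem_univ _, hs⟩, rfl⟩⟩
  -- perturbation
  have hpert : ∀ ε : ℝ, 0 < ε → ε < δ → ∀ w, φ w - ε * cs.length w ≤ φ x := by
    intro ε hε hεδ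
    set ψ : W → ℝ := fun w => φ w - ε * cs.length w with hψ
    have hwt : IsWeight cs ψ := by
      intro a b hab
      have := hφ a b hab
      simp only [hψ]
      rw [this, hab]
      push_cast
      ring
    have hsign : ∀ s : B, 0 < ψ (cs.simple s) ↔ 0 < φ (cs.simple s) := by
      intro s
      simp only [hψ, length_simple]
      constructor
      · intro h1
        push_cast at h1
        linarith
      · intro h1
        have := hδs s h1
        push_cast
        linarith
    have hfin : {w : W | 0 ≤ ψ w}.Finite := by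
      apply (finite_length_le cs (⌈C / ε⌉₊)).subset
      intro w hw
      have h1 : 0 ≤ φ w - ε * cs.length w := hw
      have h2 := hC w
      have h3 : (cs.length w : ℝ) ≤ C / ε := by
        rw [le_div_iff₀ hε]; linarith
      have h4 : (cs.length w : ℝ) ≤ (⌈C / ε⌉₊ : ℝ) := h3.trans (Nat.le_ceil _)
      exact_mod_cast h4
    obtain ⟨y, hy⟩ := exists_isMax hwt hfin (Finset.univ : Finset B)
    obtain ⟨L', _, hL'f, hyL'⟩ := isMax_spherical hwt Finset.univ y hy
    have hyS : y ∈ Sph := Set.mem_iUnion₂.2 ⟨L', hL'f, hyL'⟩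
    have htop : ∀ w : W, w ∈ WP cs (Finset.univ : Finset B) := by
      intro w
      unfold WP
      rw [Finset.coe_univ, Set.image_univ, cs.subgroup_closure_range_simple]
      trivial
    intro w
    have h1 : ψ w ≤ ψ y := hy.le w (htop w)
    have h2 : ψ y ≤ φ y := by
      simp only [hψ]
      have : 0 ≤ ε * cs.length y := by positivity
      linarith
    have h3 := hxmax y hyS
    show ψ w ≤ φ x
    linarith
  intro w
  apply le_of_forall_pos_le_add
  intro η hη
  set ε := min (δ / 2) (η / (cs.length w + 1)) with hε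
  have hε0 : 0 < ε := lt_min (by linarith) (by positivity)
  have h1 := hpert ε hε0 (lt_of_le_of_lt (min_le_left _ _) (by linarith)) w
  have h2 : ε * cs.length w ≤ η := by
    have h3 : ε ≤ η / (cs.length w + 1) := min_le_right _ _
    rw [le_div_iff₀ (by positivity)] at h3
    nlinarith
  linarith

end Pool.Agent.H44.Cox
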